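import Pool.Agent.H92LS.Forms

set_option autoImplicit false

namespace Pool.Agent.H92LS

open Finset

/-- general solution of the recurrence -/
def R (c a b : ℝ) : ℕ → ℝ
  | 0 => a
  | 1 => b
  | (n + 2) => c * R c a b (n + 1) - R c a b n

theorem R_Rc (c a b : ℝ) : Rc c (R c a b) := fun _ => rfl

theorem sum_form {c : ℝ} {k : ℕ → ℝ} (hk : Rc c k) {d : ℕ} {x : ℕ → ℝ}
    (h : ∀ i, i + 1 ≤ d → x (i + 1) - x i = k (2 * i + 1)) :
    ∀ e n, n + e ≤ d → x (n + e) - x n = S c e * k (n + e + n) := by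
  intro e
  induction e with
  | zero => intro n _; simp [S_zero]
  | succ e ih =>
    intro n hn
    have h1 := ih n (by omega)
    have h2 := h (n + e) (by omega)
    have h3 := PL hk 1 e (n + e + n)
    rw [S_one, show 1 + e = e + 1 by ring, show n + e + n + 1 = n + (e + 1) + n by ring,
      show n + (e + 1) + n + e = 2 * (n + e) + 1 by ring] at h3
    rw [show n + e + 1 = n + (e + 1) by ring] at h2
    linear_combination h1 + h2 - h3

theorem sum_form' {c : ℝ} {k : ℕ → ℝ} (hk : Rc c k) {d : ℕ} {x : ℕ → ℝ}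
    (h : ∀ i, i + 1 ≤ d → x (i + 1) - x i = k (2 * i + 1)) :
    ∀ n j, n ≤ j → j ≤ d → x j - x n = S c (j - n) * k (j + n) := by
  intro n j hn hj
  have := sum_form hk h (j - n) n (by omega)
  rw [show n + (j - n) = j by omega] at this
  exact this

theorem build {c : ℝ} (hc : c ≠ 0) {d : ℕ} {x : ℕ → ℝ}
    (h3 : ∀ i, i + 3 ≤ d → x i - x (i + 3) = (c ^ 2 - 1) * (x (i + 1) - x (i + 2))) :
    ∃ l : ℕ → ℝ, Rc c l ∧ ∀ i, i + 1 ≤ d → x (i + 1) - x i = l (2 * i + 1) := by
  refine ⟨R c (c * (x 1 - x 0) - (x 2 - x 0) / c) (x 1 - x 0), R_Rc _ _ _, ?_⟩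
  set l := R c (c * (x 1 - x 0) - (x 2 - x 0) / c) (x 1 - x 0) with hl
  have hr : Rc c l := R_Rc _ _ _
  have l0 : l 0 = c * (x 1 - x 0) - (x 2 - x 0) / c := rfl
  have l1 : l 1 = x 1 - x 0 := rfl
  have l2 : c * l 2 = x 2 - x 0 := by
    have := hr 0
    rw [show 0 + 2 = 2 from rfl, show 0 + 1 = 1 from rfl, l0, l1] at this
    rw [this]; field_simp; ring
  intro i
  induction i using Nat.twoStepInduction with
  | zero => intro _; rw [show 2 * 0 + 1 = 1 from rfl, l1]
  | one =>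
    intro _
    have := hr 1
    rw [show 1 + 2 = 3 from rfl, show 1 + 1 = 2 from rfl] at this
    rw [show 2 * 1 + 1 = 3 from rfl, this, l1, l2]
    ring
  | more i ih1 ih2 =>
    intro hi
    have a1 := ih1 (by omega)
    have a2 := ih2 (by omega)
    have a3 := h3 i (by omega)
    have r1 := hr (2 * i + 1)
    have r2 := hr (2 * i + 2)
    have r3 := hr (2 * i + 3)
    rw [show i + 2 + 1 = i + 3 by ring]
    rw [show i + 1 + 1 = i + 2 by ring] at a2
    rw [show 2 * (i + 1) + 1 = 2 * i + 3 by ring] at a2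
    rw [show 2 * i + 1 + 2 = 2 * i + 3 by ring, show 2 * i + 1 + 1 = 2 * i + 2 by ring] at r1
    rw [show 2 * i + 2 + 2 = 2 * i + 4 by ring, show 2 * i + 2 + 1 = 2 * i + 3 by ring] at r2
    rw [show 2 * i + 3 + 2 = 2 * i + 5 by ring, show 2 * i + 3 + 1 = 2 * i + 4 by ring] at r3
    rw [show 2 * (i + 2) + 1 = 2 * i + 5 by ring, r3, r2]
    linear_combination (c ^ 2 - 2) * a2 - a1 - a3 - r1

theorem theta_sum {c : ℝ} {k : ℕ → ℝ} {d : ℕ} {x : ℕ → ℝ}
    (hx : ∀ n j, n ≤ j → j ≤ d → x j - x n = S c (j - n) * k (j + n))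
    (hS : S c d ≠ 0) (hkd : k d ≠ 0) :
    ∀ i, i ≤ d → ∑ h ∈ range i, (x h - x (d - h)) / (x 0 - x d) = S c i * S c (d + 1 - i) / S c d := by
  have h0 : x 0 - x d = - (S c d * k d) := by
    have := hx 0 d (Nat.zero_le _) le_rfl
    simp only [Nat.sub_zero, add_zero] at this
    linarith
  intro i
  induction i with
  | zero => intro _; simp [S_zero]
  | succ i ih =>
    intro hi
    rw [sum_range_succ, ih (by omega), h0]
    rw [show d + 1 - (i + 1) = d - i by omega]
    rcases le_total (2 * i) d with h | h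
    · have h1 := hx i (d - i) (by omega) (by omega)
      rw [show d - i - i = d - 2 * i by omega, show d - i + i = d by omega] at h1
      have h2 := PL (S_Rc c) i (d - 2 * i) 1
      rw [show i + (d - 2 * i) = d - i by omega, show 1 + i = i + 1 by ring,
        show i + 1 + (d - 2 * i) = d + 1 - i by omega, S_one] at h2
      rw [show x i - x (d - i) = - (S c (d - 2 * i) * k d) by linarith]
      field_simp
      linear_combination -h2
    · have h1 := hx (d - i) i (by omega) (by omega)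
      rw [show i - (d - i) = 2 * i - d by omega, show i + (d - i) = d by omega] at h1
      have h2 := PL (S_Rc c) (d - i) (2 * i - d) 1
      rw [show d - i + (2 * i - d) = i by omega, show 1 + (d - i) = d + 1 - i by omega,
        show d + 1 - i + (2 * i - d) = i + 1 by omega, S_one] at h2
      rw [h1]
      field_simp
      linear_combination h2

theorem S_pos {c : ℝ} (hc : 2 ≤ c) : ∀ m, 0 < S c (m + 1) ∧ S c m ≤ S c (m + 1) := by
  intro m
  induction m with
  | zero => simp [S_zero, S_one]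
  | succ m ih =>
    obtain ⟨h1, h2⟩ := ih
    have h3 := S_rec c m
    have h4 : S c (m + 1) ≤ S c (m + 2) := by rw [h3]; nlinarith
    exact ⟨lt_of_lt_of_le h1 h4, h4⟩

theorem k_pos {c : ℝ} (hc : 0 < c) {k : ℕ → ℝ} (hk : Rc c k) {d : ℕ}
    (h : ∀ i, i + 1 ≤ d → 0 < k (2 * i + 1)) : ∀ m, 1 ≤ m → m + 1 ≤ 2 * d → 0 < k m := by
  intro m h1 h2
  rcases Nat.even_or_odd' m with ⟨i, hi | hi⟩
  · obtain ⟨i, rfl⟩ : ∃ i', i = i' + 1 := ⟨i - 1, by omega⟩
    subst hi
    have a := h i (by omega)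
    have b := h (i + 1) (by omega)
    have r := hk (2 * i + 1)
    rw [show 2 * i + 1 + 2 = 2 * (i + 1) + 1 by ring, show 2 * i + 1 + 1 = 2 * (i + 1) by ring] at r
    have : 0 < c * k (2 * (i + 1)) := by linarith
    exact (mul_pos_iff_of_pos_left hc).1 this
  · subst hi
    exact h i (by omega)

/-- the abstract criterion -/
theorem core_iff {c : ℝ} {k l : ℕ → ℝ} (hk : Rc c k) (hl : Rc c l) (F1 : ℝ) {d : ℕ}
    (hs : ∀ m, 1 ≤ m → m ≤ d → 0 < S c m)
    (hkp : ∀ m, 1 ≤ m → m + 1 ≤ 2 * d → 0 < k m)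
    (hF : ∀ m, m + 1 ≤ d → Fs k l d F1 m ≠ 0)
    (hG : ∀ m, 1 ≤ m → m ≤ d → Gs k l d F1 m ≠ 0)
    (hN : NoHill d (Fs k l d F1) (Gs k l d F1)) :
    (∀ i j, i ≤ d → j ≤ d → |v c k l (Fs k l d F1) d 0 i j| ≤ 1) ↔
    (∀ J, J ≤ d → |T (Fs k l d F1) (Gs k l d F1) J J| ≤ 1 ∧
      |T (Fs k l d F1) (Gs k l d F1) d J| ≤ 1) := by
  constructor
  · intro h J hJ
    constructor
    · have := h J d hJ le_rfl
      rwa [v_last hk hl F1 (fun m a b => (hs m a b).ne') hF (d - J) d 0 (by omega) (by omega)] at this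
    · have := h d J le_rfl hJ
      have hv := v_prod hk hl F1 (D := d) (b := 0) (fun m a b => (hs m a b).ne') hF J hJ
      simp only [add_zero] at hv
      rwa [hv] at this
  · intro h i j hi hj
    have hall := valley hF hG hN (fun J hJ => (h J hJ).1) (fun J hJ => (h J hJ).2)
    exact v_mean hk hl F1 1 hs hkp hF (fun J hJ => hall i J hJ hi) (d - i) d 0 (by omega) (by omega) j hj

theorem Rc_neg {c : ℝ} {k : ℕ → ℝ} (hk : Rc c k) : Rc c (fun m => - k m) := by
  intro m
  have := hk m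
  simp only
  rw [this]; ring

theorem Fs_neg (k l : ℕ → ℝ) (d : ℕ) (F1 : ℝ) :
    Fs (fun m => - k m) (fun m => - l m) d F1 = Fs k l d F1 := by
  funext m; simp [Fs]

theorem Gs_neg (k l : ℕ → ℝ) (d : ℕ) (F1 : ℝ) :
    Gs (fun m => - k m) (fun m => - l m) d F1 = Gs k l d F1 := by
  funext m; simp [Gs]

theorem v_neg (c : ℝ) (k l F : ℕ → ℝ) (D b i j : ℕ) :
    v c (fun m => - k m) (fun m => - l m) F D b i j = v c k l F D b i j := by
  unfold v
  apply sum_congr rfl
  intro n _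
  apply prod_congr rfl
  intro m _
  congr 1
  ring

/-- exchange of the two sequences -/
theorem Fs_swap {c : ℝ} {k l : ℕ → ℝ} (hk : Rc c k) (hl : Rc c l) {d : ℕ} (hd : 1 ≤ d) (F1 : ℝ) :
    Fs l k d F1 = Fs k l d F1 := by
  funext m
  unfold Fs
  have h := CAS hk hl 1 1 (d - 1) m
  rw [show 1 + (d - 1) = d by omega, show 1 + m = m + 1 by ring,
    show m + 1 + (d - 1) = d + m by omega] at h
  linear_combination -h

theorem Gs_swap (k l : ℕ → ℝ) {d : ℕ} (F1 : ℝ) {m : ℕ} (h2 : m ≤ d) :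
    Gs l k d F1 m = Gs k l d F1 (d + 1 - m) := by
  unfold Gs
  rw [show d + 1 - (d + 1 - m) = m by omega]
  ring

theorem v_ext (c : ℝ) (k l F : ℕ → ℝ) (D b i j : ℕ) {N : ℕ} (hN : i + 1 ≤ N) :
    v c k l F D b i j = ∑ n ∈ range N, ∏ m ∈ range n,
    (S c (j - m) * k (j + m + b) * S c (i - m) * l (i + m)) / (S c (D - m) * S c (m + 1) * F m) := by
  unfold v
  apply sum_subset (range_subset_range.2 hN)
  intro n _ hn
  rw [mem_range, not_lt] at hn
  apply prod_eq_zero (mem_range.2 (show i < n by omega))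
  simp [S_zero]

theorem v_swap (c : ℝ) (k l F : ℕ → ℝ) (D i j : ℕ) :
    v c l k F D 0 j i = v c k l F D 0 i j := by
  rw [v_ext c l k F D 0 j i (N := i + j + 1) (by omega),
    v_ext c k l F D 0 i j (N := i + j + 1) (by omega)]
  apply sum_congr rfl
  intro n _
  apply prod_congr rfl
  intro m _
  congr 1
  simp only [add_zero]
  ring

theorem T_eq (F G : ℕ → ℝ) (D J : ℕ) : T F G D J = (∏ m ∈ range J, G (D - m)) / ∏ m ∈ range J, F m := by
  unfold T; rw [prod_div_distrib]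

theorem T_diag (F G : ℕ → ℝ) (J : ℕ) :
    T F G J J = (∏ m ∈ range J, G (m + 1)) / ∏ m ∈ range J, F m := by
  rw [T_eq]
  congr 1
  rw [← prod_range_reflect]
  apply prod_congr rfl
  intro m hm
  rw [mem_range] at hm
  congr 1
  omega

end Pool.Agent.H92LS
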