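import Pool.Agent.H92LS.Grow

set_option autoImplicit false

namespace Pool.Agent.H92LS

open Finset

theorem setup {d : ℕ} {x y : ℕ → ℝ}
    (hne : ∀ i j, i ≤ d → j ≤ d → i ≠ j → x i ≠ x j ∧ y i ≠ y j)
    (pa5 : ∀ i j, 2 ≤ i → i + 1 ≤ d → 2 ≤ j → j + 1 ≤ d →
      (x (i - 2) - x (i + 1)) / (x (i - 1) - x i) = (y (j - 2) - y (j + 1)) / (y (j - 1) - y j))
    (h : SM d x) :
    ∃ (c : ℝ) (k l : ℕ → ℝ), 0 < c ∧ Rc c k ∧ Rc c l ∧
      (∀ i, i + 1 ≤ d → x (i + 1) - x i = k (2 * i + 1)) ∧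
      (∀ i, i + 1 ≤ d → y (i + 1) - y i = l (2 * i + 1)) := by
  rcases Nat.lt_or_ge d 3 with hd | hd
  · obtain ⟨k, hk, hx⟩ := build (c := 2) (by norm_num) (d := d) (x := x) (fun i hi => by omega)
    obtain ⟨l, hl, hy⟩ := build (c := 2) (by norm_num) (d := d) (x := y) (fun i hi => by omega)
    exact ⟨2, k, l, by norm_num, hk, hl, hx, hy⟩
  · set ρ := (x 0 - x 3) / (x 1 - x 2) with hρ
    have hρ0 : 0 < ρ := by
      rw [hρ]
      rcases h with h | h
      · have a := h 0 (by omega)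
        have b := h 1 (by omega)
        have e := h 2 (by omega)
        simp only [zero_add] at a
        rw [show 1 + 1 = 2 from rfl] at b
        rw [show 2 + 1 = 3 from rfl] at e
        exact div_pos_of_neg_of_neg (by linarith) (by linarith)
      · have a := h 0 (by omega)
        have b := h 1 (by omega)
        have e := h 2 (by omega)
        simp only [zero_add] at a
        rw [show 1 + 1 = 2 from rfl] at b
        rw [show 2 + 1 = 3 from rfl] at e
        exact div_pos (by linarith) (by linarith)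
    have hc2 : Real.sqrt (ρ + 1) ^ 2 = ρ + 1 := Real.sq_sqrt (by linarith)
    have hc : 0 < Real.sqrt (ρ + 1) := Real.sqrt_pos.2 (by linarith)
    have hx3 : ∀ i, i + 3 ≤ d → x i - x (i + 3) = (Real.sqrt (ρ + 1) ^ 2 - 1) * (x (i + 1) - x (i + 2)) := by
      intro i hi
      have h1 := pa5 (i + 2) 2 (by omega) (by omega) (by omega) (by omega)
      have h2 := pa5 2 2 (by omega) (by omega) (by omega) (by omega)
      rw [show i + 2 - 2 = i by omega, show i + 2 - 1 = i + 1 by omega,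
        show i + 2 + 1 = i + 3 by omega] at h1
      have h3 : (x i - x (i + 3)) / (x (i + 1) - x (i + 2)) = ρ := by
        rw [h1, ← h2]
      have e1 : x (i + 1) - x (i + 2) ≠ 0 :=
        sub_ne_zero.2 (hne (i + 1) (i + 2) (by omega) (by omega) (by omega)).1
      rw [div_eq_iff e1] at h3
      rw [hc2, h3]
      ring
    have hy3 := rec3_transfer hne pa5 hx3
    obtain ⟨k, hk, hx⟩ := build hc.ne' hx3
    obtain ⟨l, hl, hy⟩ := build hc.ne' hy3
    exact ⟨_, k, l, hc, hk, hl, hx, hy⟩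

/-- choice of the good side in the first class -/
theorem pickA {c : ℝ} (hc : 0 < c) {k l x y : ℕ → ℝ} (hk : Rc c k) (hl : Rc c l) {F1 : ℝ} {d : ℕ}
    (hs : ∀ m, 1 ≤ m → m ≤ d → 0 < S c m)
    (hx : ∀ i, i + 1 ≤ d → x (i + 1) - x i = k (2 * i + 1))
    (hy : ∀ i, i + 1 ≤ d → y (i + 1) - y i = l (2 * i + 1))
    (hl0 : ∀ i, 1 ≤ i → i ≤ d → l i ≠ 0) (hF1 : F1 ≠ 0)
    (hB : Border d (Fs k l d F1) (Gs k l d F1)) (hSM : SM d x)
    (hA : (∀ i, i + 2 ≤ d → |x (i + 2) - x (i + 1)| ≤ |x (i + 1) - x i|) ∨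
      (¬ SM d y ∧ (|x 2 - x 1| ≤ |x 1 - x 0| ∨ |x (d - 1) - x (d - 2)| ≤ |x d - x (d - 1)|))) :
    (OneSign d k ∧ RowOK d k l F1) ∨ (OneSign d l ∧ RowOK d l k F1) := by
  have hok := oneSign_of_SM hc hk hx hSM
  rcases Nat.lt_or_ge d 3 with hd | hd
  · left
    exact ⟨hok, fun i a b => by omega⟩
  have hx0 := hx 0 (by omega)
  have hx1 := hx 1 (by omega)
  have hxe := hx (d - 1) (by omega)
  have hxf := hx (d - 2) (by omega)
  rw [show 2 * 0 + 1 = 1 from rfl] at hx0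
  rw [show 2 * 1 + 1 = 3 from rfl, show 1 + 1 = 2 from rfl] at hx1
  rw [show d - 1 + 1 = d by omega, show 2 * (d - 1) + 1 = 2 * d - 1 by omega] at hxe
  rw [show d - 2 + 1 = d - 1 by omega, show 2 * (d - 2) + 1 = 2 * d - 3 by omega] at hxf
  by_cases hSy : SM d y
  · rcases hA with h | h
    · right
      refine ⟨oneSign_of_SM hc hl hy hSy, rows_slow hc hk hok ?_⟩
      intro i hi
      have h1 := h i hi
      have h2 := hx i (by omega)
      have h3 := hx (i + 1) (by omega)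
      rw [show i + 1 + 1 = i + 2 by ring, show 2 * (i + 1) + 1 = 2 * i + 3 by ring] at h3
      rwa [h2, h3] at h1
    · exact absurd hSy h.1
  · left
    refine ⟨hok, rows_nonmono hc hk hl hs hok ?_ hl0 hF1 hB (fun h => hSy (SM_of_oneSign hy h))⟩
    rcases hA with h | h
    · left
      have h1 := h 0 (by omega)
      rw [show 0 + 2 = 2 from rfl, show 0 + 1 = 1 from rfl] at h1
      rwa [hx0, hx1] at h1
    · rcases h.2 with h | h
      · left
        rwa [hx0, hx1] at h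
      · right
        rwa [hxe, hxf] at h

/-- nonvanishing of `l` on `1..d` -/
theorem nz {c : ℝ} {l y : ℕ → ℝ} (hl : Rc c l) {d : ℕ}
    (hy : ∀ i, i + 1 ≤ d → y (i + 1) - y i = l (2 * i + 1))
    (hne : ∀ i j, i ≤ d → j ≤ d → i ≠ j → y i ≠ y j) : ∀ i, 1 ≤ i → i ≤ d → l i ≠ 0 := by
  intro i h1 h2 h0
  have h3 := sum_form' hl hy 0 i (Nat.zero_le _) h2
  simp only [Nat.sub_zero, add_zero] at h3
  rw [h0, mul_zero] at h3
  exact hne i 0 h2 (Nat.zero_le _) (by omega) (by linarith)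

/-- growth of both step sequences, in terms of `x`, `y` -/
theorem GG_iff {k l x y : ℕ → ℝ} {d : ℕ}
    (hx : ∀ i, i + 1 ≤ d → x (i + 1) - x i = k (2 * i + 1))
    (hy : ∀ i, i + 1 ≤ d → y (i + 1) - y i = l (2 * i + 1)) (h : GG d k l) :
    (∀ i, i + 2 ≤ d → |x (i + 1) - x i| < |x (i + 2) - x (i + 1)|) ∧
    (∀ i, i + 2 ≤ d → |y (i + 1) - y i| < |y (i + 2) - y (i + 1)|) := by
  constructor
  · intro i hi
    have h1 := h.1 i hi
    have h2 := hx i (by omega)
    have h3 := hx (i + 1) (by omega)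
    rw [show i + 1 + 1 = i + 2 by ring, show 2 * (i + 1) + 1 = 2 * i + 3 by ring] at h3
    rwa [← h2, ← h3] at h1
  · intro i hi
    have h1 := h.2 i hi
    have h2 := hy i (by omega)
    have h3 := hy (i + 1) (by omega)
    rw [show i + 1 + 1 = i + 2 by ring, show 2 * (i + 1) + 1 = 2 * i + 3 by ring] at h3
    rwa [← h2, ← h3] at h1

/-- data in the hyperbolic case -/
theorem dataHyp {d : ℕ} (hd : 1 ≤ d) {x y : ℕ → ℝ} {q a b c a' b' c' : ℝ} (hne : x 0 ≠ x 1) (hq : 0 < q)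
    (hxy : ∀ i, i ≤ d → x i = a + b * q ^ i + c / q ^ i ∧ y i = a' + b' * q ^ i + c' / q ^ i) :
    ∃ p B C B' C' : ℝ, 1 < p ∧ B * C = b * c ∧ B' * C' = b' * c' ∧
      (∀ i, i + 1 ≤ d → x (i + 1) - x i = hyp p B C (2 * i + 1)) ∧
      (∀ i, i + 1 ≤ d → y (i + 1) - y i = hyp p B' C' (2 * i + 1)) := by
  have flip : ∀ (b c : ℝ) (i : ℕ), b * q ^ i + c / q ^ i = c * (1 / q) ^ i + b / (1 / q) ^ i := by
    intro b c i
    have : q ^ i ≠ 0 := by positivity
    rw [one_div, inv_pow]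
    field_simp
    ring
  have exp : ∀ q : ℝ, 1 < q → ∃ p : ℝ, 1 < p ∧ p ^ 2 = q := by
    intro q hq
    refine ⟨Real.sqrt q, ?_, Real.sq_sqrt (by linarith)⟩
    rw [show (1 : ℝ) = Real.sqrt 1 by simp]
    exact Real.sqrt_lt_sqrt (by norm_num) hq
  rcases lt_trichotomy q 1 with h1 | h1 | h1
  · obtain ⟨p, hp, hpq⟩ := exp (1 / q) (by rw [lt_div_iff₀ hq]; linarith)
    refine ⟨p, c, b, c', b', hp, by ring, by ring, ?_, ?_⟩
    · apply hyp_step hp a c b
      intro i hi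
      rw [(hxy i hi).1, hpq]
      have := flip b c i
      linarith
    · apply hyp_step hp a' c' b'
      intro i hi
      rw [(hxy i hi).2, hpq]
      have := flip b' c' i
      linarith
  · exfalso
    apply hne
    rw [(hxy 0 (by omega)).1, (hxy 1 hd).1, h1]
    simp
  · obtain ⟨p, hp, hpq⟩ := exp q h1
    refine ⟨p, b, c, b', c', hp, rfl, rfl, ?_, ?_⟩
    · apply hyp_step hp a b c
      intro i hi
      rw [(hxy i hi).1, hpq]
    · apply hyp_step hp a' b' c'
      intro i hi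
      rw [(hxy i hi).2, hpq]

theorem hyp_form (p b c : ℝ) (m : ℕ) :
    hyp p b c m = ((p - 1 / p) * b) * p ^ m + (-((p - 1 / p) * c)) / p ^ m := rfl

theorem hyp_sign {p b c : ℝ} (hp : 1 < p) (h : ((p - 1 / p) * b) * (-((p - 1 / p) * c)) < 0) :
    0 < b * c := by
  have hη := eta_pos hp
  have e : ((p - 1 / p) * b) * (-((p - 1 / p) * c)) = -((p - 1 / p) ^ 2 * (b * c)) := by ring
  rw [e] at h
  have : 0 < (p - 1 / p) ^ 2 * (b * c) := by linarith
  exact (pos_iff_pos_of_mul_pos this).1 (by positivity)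

end Pool.Agent.H92LS
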