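import Pool.Agent.H92LS.Types

set_option autoImplicit false

namespace Pool.Agent.H92LS.Border0

open Finset

/-- Parameter arrays over the reals, of diameter `d`; only the values with index at most `d` matter.
`φ` is the first split sequence, `ϕ` the second one. -/
structure ParamArray (d : ℕ) (θ θs φ ϕ : ℕ → ℝ) : Prop where
  pa1 : ∀ i j, i ≤ d → j ≤ d → i ≠ j → θ i ≠ θ j ∧ θs i ≠ θs j
  pa2 : ∀ i, 1 ≤ i → i ≤ d → φ i ≠ 0 ∧ ϕ i ≠ 0
  pa3 : ∀ i, 1 ≤ i → i ≤ d → φ i =
    ϕ 1 * ∑ h ∈ range i, (θ h - θ (d - h)) / (θ 0 - θ d) + (θs i - θs 0) * (θ (i - 1) - θ d)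
  pa4 : ∀ i, 1 ≤ i → i ≤ d → ϕ i =
    φ 1 * ∑ h ∈ range i, (θ h - θ (d - h)) / (θ 0 - θ d) + (θs i - θs 0) * (θ (d - i + 1) - θ 0)
  pa5 : ∀ i j, 2 ≤ i → i + 1 ≤ d → 2 ≤ j → j + 1 ≤ d →
    (θ (i - 2) - θ (i + 1)) / (θ (i - 1) - θ i) = (θs (j - 2) - θs (j + 1)) / (θs (j - 1) - θs j)

/-- The polynomial `u_i`, evaluated at `x`. -/
noncomputable def u (θ θs φ : ℕ → ℝ) (i : ℕ) (x : ℝ) : ℝ :=
  ∑ n ∈ range (i + 1), (∏ h ∈ range n, (x - θ h)) * (∏ h ∈ range n, (θs i - θs h)) /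
    ∏ h ∈ range n, φ (h + 1)

/-- `x_i = a + b q^i + c q^(-i)` with `q > 0` and `b c ≤ 0`, or `x_i = a + b i`. -/
def SinhLike (d : ℕ) (x : ℕ → ℝ) : Prop :=
  (∃ q a b c : ℝ, 0 < q ∧ b * c ≤ 0 ∧ ∀ i, i ≤ d → x i = a + b * q ^ i + c / q ^ i) ∨
  (∃ a b : ℝ, ∀ i : ℕ, i ≤ d → x i = a + b * i)

/-- strictly monotone on `0..d` -/
def StrictOn (d : ℕ) (x : ℕ → ℝ) : Prop :=
  (∀ i, i + 1 ≤ d → x i < x (i + 1)) ∨ (∀ i, i + 1 ≤ d → x (i + 1) < x i)

/-- both sequences strictly monotone, of cosh type (or quadratic), one with growing and the other with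
shrinking steps -/
def Opposite (d : ℕ) (x y : ℕ → ℝ) : Prop :=
  StrictOn d x ∧ StrictOn d y ∧
  ((∃ q a b c a' b' c' : ℝ, 0 < q ∧ 0 < b * c ∧ 0 < b' * c' ∧
      (∀ i, i ≤ d → x i = a + b * q ^ i + c / q ^ i ∧ y i = a' + b' * q ^ i + c' / q ^ i) ∧
      (x 1 - x 0) * (y 1 - y 0) * (b * b') < 0) ∨
   (∃ a b c a' b' c' : ℝ,
      (∀ i : ℕ, i ≤ d → x i = a + b * i + c * (i : ℝ) ^ 2 ∧ y i = a' + b' * i + c' * (i : ℝ) ^ 2) ∧
      (x 1 - x 0) * (y 1 - y 0) * (c * c') < 0))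

open Pool.Agent.H92LS in
theorem flip_q {q b c : ℝ} (hq : 0 < q) (i : ℕ) : b * q ^ i + c / q ^ i = c * (1 / q) ^ i + b / (1 / q) ^ i := by
  have : q ^ i ≠ 0 := by positivity
  rw [one_div, inv_pow]
  field_simp
  ring

theorem exists_p {q : ℝ} (hq : 1 < q) : ∃ p : ℝ, 1 < p ∧ p ^ 2 = q := by
  refine ⟨Real.sqrt q, ?_, Real.sq_sqrt (by linarith)⟩
  rw [show (1 : ℝ) = Real.sqrt 1 by simp]
  exact Real.sqrt_lt_sqrt (by norm_num) hq

/-- normal form for `SinhLike` -/
theorem sinh_norm {d : ℕ} (hd : 1 ≤ d) {x : ℕ → ℝ} (hne : x 0 ≠ x 1) (h : SinhLike d x) :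
    (∃ p a b c : ℝ, 1 < p ∧ b * c ≤ 0 ∧ (b ≠ 0 ∨ c ≠ 0) ∧
      ∀ i, i ≤ d → x i = a + b * (p ^ 2) ^ i + c / (p ^ 2) ^ i) ∨
    (∃ a b : ℝ, b ≠ 0 ∧ ∀ i : ℕ, i ≤ d → x i = a + b * i) := by
  rcases h with ⟨q, a, b, c, hq, hbc, hx⟩ | ⟨a, b, hx⟩
  · left
    have hbc0 : b ≠ 0 ∨ c ≠ 0 := by
      by_contra hcon
      push Not at hcon
      apply hne
      rw [hx 0 (by omega), hx 1 hd, hcon.1, hcon.2]
      simp
    rcases lt_trichotomy q 1 with h1 | h1 | h1
    · obtain ⟨p, hp, hpq⟩ := exists_p (q := 1 / q) (by rw [lt_div_iff₀ hq]; linarith)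
      refine ⟨p, a, c, b, hp, by linarith, hbc0.symm, fun i hi => ?_⟩
      rw [hx i hi, hpq]
      have := flip_q (b := b) (c := c) hq i
      linarith
    · exfalso
      apply hne
      rw [hx 0 (by omega), hx 1 hd, h1]
      simp
    · obtain ⟨p, hp, hpq⟩ := exists_p h1
      exact ⟨p, a, b, c, hp, hbc, hbc0, fun i hi => by rw [hx i hi, hpq]⟩
  · right
    refine ⟨a, b, ?_, hx⟩
    rintro rfl
    apply hne
    rw [hx 0 (by omega), hx 1 hd]
    simp

open Pool.Agent.H92LS in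
/-- a `SinhLike` sequence and its partner -/
theorem sinh_data {d : ℕ} (hd : 1 ≤ d) {x y : ℕ → ℝ}
    (hne : ∀ i j, i ≤ d → j ≤ d → i ≠ j → x i ≠ x j ∧ y i ≠ y j)
    (pa5 : ∀ i j, 2 ≤ i → i + 1 ≤ d → 2 ≤ j → j + 1 ≤ d →
      (x (i - 2) - x (i + 1)) / (x (i - 1) - x i) = (y (j - 2) - y (j + 1)) / (y (j - 1) - y j))
    (h : SinhLike d x) :
    ∃ (c : ℝ) (k l : ℕ → ℝ), 2 ≤ c ∧ Rc c k ∧ Rc c l ∧
      (∀ i, i + 1 ≤ d → x (i + 1) - x i = k (2 * i + 1)) ∧
      (∀ i, i + 1 ≤ d → y (i + 1) - y i = l (2 * i + 1)) ∧ Good d k l := by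
  rcases sinh_norm hd (hne 0 1 (by omega) hd (by omega)).1 h with ⟨p, a, b, c, hp, hbc, h0, hx⟩ | ⟨a, b, h0, hx⟩
  · have hp0 : 0 < p := by linarith
    have hc : 2 ≤ p + 1 / p := by
      have : p + 1 / p - 2 = (p - 1) ^ 2 / p := by field_simp; ring
      have h2 : 0 ≤ (p - 1) ^ 2 / p := by positivity
      linarith
    have hk := hyp_Rc hp b c
    have hs := hyp_step hp a b c hx
    obtain ⟨l, hl, hy⟩ := build (by linarith : p + 1 / p ≠ 0) (rec3_transfer hne pa5 (rec3 hk hs))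
    exact ⟨p + 1 / p, hyp p b c, l, hc, hk, hl, hs, hy, good_sinh hp hbc h0 d hl⟩
  · have hk : Rc 2 (fun _ : ℕ => b) := by intro m; ring
    have hs : ∀ i, i + 1 ≤ d → x (i + 1) - x i = (fun _ : ℕ => b) (2 * i + 1) := by
      intro i hi
      rw [hx i (by omega), hx (i + 1) hi]
      push_cast
      ring
    obtain ⟨l, hl, hy⟩ := build (by norm_num : (2 : ℝ) ≠ 0) (rec3_transfer hne pa5 (rec3 hk hs))
    exact ⟨2, fun _ => b, l, le_rfl, hk, hl, hs, hy, good_lin h0 d hl⟩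

open Pool.Agent.H92LS in
theorem sign_data {c : ℝ} (hc : 2 ≤ c) {d : ℕ} {x k : ℕ → ℝ} (hk : Rc c k)
    (hx : ∀ i, i + 1 ≤ d → x (i + 1) - x i = k (2 * i + 1)) (h : StrictOn d x) :
    (∀ m, 1 ≤ m → m + 1 ≤ 2 * d → 0 < k m) ∨ (∀ m, 1 ≤ m → m + 1 ≤ 2 * d → k m < 0) := by
  rcases h with h | h
  · left
    exact k_pos (by linarith) hk (fun i hi => by have := h i hi; have := hx i hi; linarith)
  · right
    have := k_pos (c := c) (by linarith) (Rc_neg hk) (d := d)
      (fun i hi => by have h1 := h i hi; have h2 := hx i hi; linarith)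
    intro m h1 h2
    have h3 := this m h1 h2
    simpa using h3

open Pool.Agent.H92LS in
/-- the opposite case -/
theorem opp_data {d : ℕ} (hd : 1 ≤ d) {x y : ℕ → ℝ} (h : Opposite d x y) :
    ∃ (c : ℝ) (k l : ℕ → ℝ), 2 ≤ c ∧ Rc c k ∧ Rc c l ∧
      (∀ i, i + 1 ≤ d → x (i + 1) - x i = k (2 * i + 1)) ∧
      (∀ i, i + 1 ≤ d → y (i + 1) - y i = l (2 * i + 1)) ∧ Good d k l := by
  obtain ⟨hsx, hsy, h⟩ := h
  rcases h with ⟨q, a, b, c, a', b', c', hq, hbc, hbc', hxy, hs⟩ | ⟨a, b, c, a', b', c', hxy, hs⟩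
  · -- hyperbolic
    obtain ⟨p, b, c, b', c', hp, hbc, hbc', hx, hy, hs⟩ : ∃ p b c b' c' : ℝ, 1 < p ∧ 0 < b * c ∧ 0 < b' * c' ∧
        (∀ i, i ≤ d → x i = a + b * (p ^ 2) ^ i + c / (p ^ 2) ^ i) ∧
        (∀ i, i ≤ d → y i = a' + b' * (p ^ 2) ^ i + c' / (p ^ 2) ^ i) ∧
        (x 1 - x 0) * (y 1 - y 0) * (b * b') < 0 := by
      rcases lt_trichotomy q 1 with h1 | h1 | h1
      · obtain ⟨p, hp, hpq⟩ := exists_p (q := 1 / q) (by rw [lt_div_iff₀ hq]; linarith)
        refine ⟨p, c, b, c', b', hp, by linarith, by linarith, fun i hi => ?_, fun i hi => ?_, ?_⟩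
        · rw [(hxy i hi).1, hpq]
          have := flip_q (b := b) (c := c) hq i
          linarith
        · rw [(hxy i hi).2, hpq]
          have := flip_q (b := b') (c := c') hq i
          linarith
        · have h2 : 0 < (b * c) * (b' * c') := mul_pos hbc hbc'
          by_contra hcon
          push Not at hcon
          have h3 : 0 ≤ ((x 1 - x 0) * (y 1 - y 0) * (c * c')) * (b * b') ^ 2 :=
            mul_nonneg hcon (sq_nonneg _)
          have h4 : ((x 1 - x 0) * (y 1 - y 0) * (b * b')) * ((b * c) * (b' * c')) < 0 :=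
            mul_neg_of_neg_of_pos hs h2
          nlinarith
      · exfalso
        have h2 := (hxy 0 (by omega)).1
        have h3 := (hxy 1 hd).1
        rw [h1] at h2 h3
        simp only [one_pow] at h2 h3
        rw [h2, h3] at hs
        simp at hs
      · obtain ⟨p, hp, hpq⟩ := exists_p h1
        exact ⟨p, b, c, b', c', hp, hbc, hbc', fun i hi => by rw [(hxy i hi).1, hpq],
          fun i hi => by rw [(hxy i hi).2, hpq], hs⟩
    have hp0 : 0 < p := by linarith
    have hc : 2 ≤ p + 1 / p := by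
      have : p + 1 / p - 2 = (p - 1) ^ 2 / p := by field_simp; ring
      have h2 : 0 ≤ (p - 1) ^ 2 / p := by positivity
      linarith
    have hkx := hyp_step hp a b c hx
    have hly := hyp_step hp a' b' c' hy
    have hk := hyp_Rc hp b c
    have hl := hyp_Rc hp b' c'
    refine ⟨p + 1 / p, hyp p b c, hyp p b' c', hc, hk, hl, hkx, hly, ?_⟩
    have k1 := hkx 0 hd
    have l1 := hly 0 hd
    simp only [zero_add, mul_zero] at k1 l1
    rw [k1, l1] at hs
    have s1 := sign_data hc hk hkx hsx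
    have s2 := sign_data hc hl hly hsy
    -- signs of the mixed products
    have m1 : ∀ z : ℝ, z * (b * b') < 0 → z * (b * c') < 0 := by
      intro z hz
      by_contra hcon
      push Not at hcon
      have h3 : 0 ≤ (z * (b * c')) * (b' ^ 2) := mul_nonneg hcon (sq_nonneg _)
      have h4 : (z * (b * b')) * (b' * c') < 0 := mul_neg_of_neg_of_pos hz hbc'
      nlinarith
    have m2 : ∀ z : ℝ, z * (b * b') < 0 → z * (b' * c) < 0 := by
      intro z hz
      by_contra hcon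
      push Not at hcon
      have h3 : 0 ≤ (z * (b' * c)) * (b ^ 2) := mul_nonneg hcon (sq_nonneg _)
      have h4 : (z * (b * b')) * (b * c) < 0 := mul_neg_of_neg_of_pos hz hbc
      nlinarith
    have n1 := m1 _ hs
    have n2 := m2 _ hs
    rcases s1 with s1 | s1
    · have e1 := s1 1 le_rfl (by omega)
      apply good_cosh_pos hp s1
      rcases s2 with s2 | s2
      · left
        have e2 := s2 1 le_rfl (by omega)
        have e3 : 0 < hyp p b c 1 * hyp p b' c' 1 := mul_pos e1 e2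
        refine ⟨?_, ?_, fun m a b => s2 m a (by omega)⟩
        · exact (pos_iff_neg_of_mul_neg n1).1 e3
        · exact (pos_iff_neg_of_mul_neg n2).1 e3
      · right
        have e2 := s2 1 le_rfl (by omega)
        have e3 : hyp p b c 1 * hyp p b' c' 1 < 0 := mul_neg_of_pos_of_neg e1 e2
        refine ⟨?_, ?_, fun m a b => s2 m a (by omega)⟩
        · exact (neg_iff_pos_of_mul_neg n1).1 e3
        · exact (neg_iff_pos_of_mul_neg n2).1 e3
    · apply good_of_neg
      rw [show (fun m => - hyp p b c m) = hyp p (-b) (-c) from funext (fun m => hyp_neg p b c m),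
        show (fun m => - hyp p b' c' m) = hyp p (-b') (-c') from funext (fun m => hyp_neg p b' c' m)]
      have e1 := s1 1 le_rfl (by omega)
      apply good_cosh_pos hp (fun m a b => by rw [← hyp_neg]; have := s1 m a b; linarith)
      rcases s2 with s2 | s2
      · right
        have e2 := s2 1 le_rfl (by omega)
        have e3 : hyp p b c 1 * hyp p b' c' 1 < 0 := mul_neg_of_neg_of_pos e1 e2
        refine ⟨?_, ?_, fun m a b => by rw [← hyp_neg]; have := s2 m a (by omega); linarith⟩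
        · have := (neg_iff_pos_of_mul_neg n1).1 e3
          linarith
        · have := (neg_iff_pos_of_mul_neg n2).1 e3
          linarith
      · left
        have e2 := s2 1 le_rfl (by omega)
        have e3 : 0 < hyp p b c 1 * hyp p b' c' 1 := mul_pos_of_neg_of_neg e1 e2
        refine ⟨?_, ?_, fun m a b => by rw [← hyp_neg]; have := s2 m a (by omega); linarith⟩
        · have := (pos_iff_neg_of_mul_neg n1).1 e3
          linarith
        · have := (pos_iff_neg_of_mul_neg n2).1 e3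
          linarith
  · -- quadratic
    have hk : Rc 2 (fun m : ℕ => b + c * (m : ℝ)) := by intro m; push_cast; ring
    have hl : Rc 2 (fun m : ℕ => b' + c' * (m : ℝ)) := by intro m; push_cast; ring
    have hkx : ∀ i, i + 1 ≤ d → x (i + 1) - x i = (fun m : ℕ => b + c * (m : ℝ)) (2 * i + 1) := by
      intro i hi
      rw [(hxy i (by omega)).1, (hxy (i + 1) hi).1]
      push_cast
      ring
    have hly : ∀ i, i + 1 ≤ d → y (i + 1) - y i = (fun m : ℕ => b' + c' * (m : ℝ)) (2 * i + 1) := by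
      intro i hi
      rw [(hxy i (by omega)).2, (hxy (i + 1) hi).2]
      push_cast
      ring
    refine ⟨2, _, _, le_rfl, hk, hl, hkx, hly, ?_⟩
    have k1 := hkx 0 hd
    have l1 := hly 0 hd
    simp only [zero_add, mul_zero] at k1 l1
    rw [k1, l1] at hs
    have s1 := sign_data le_rfl hk hkx hsx
    have s2 := sign_data le_rfl hl hly hsy
    rcases s1 with s1 | s1
    · have e1 := s1 1 le_rfl (by omega)
      apply good_quad_pos s1
      rcases s2 with s2 | s2
      · left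
        have e2 := s2 1 le_rfl (by omega)
        exact ⟨(pos_iff_neg_of_mul_neg hs).1 (mul_pos e1 e2), fun m a b => s2 m a (by omega)⟩
      · right
        have e2 := s2 1 le_rfl (by omega)
        exact ⟨(neg_iff_pos_of_mul_neg hs).1 (mul_neg_of_pos_of_neg e1 e2), fun m a b => s2 m a (by omega)⟩
    · apply good_of_neg
      have e1 := s1 1 le_rfl (by omega)
      rw [show (fun m : ℕ => -(b + c * (m : ℝ))) = (fun m : ℕ => (-b) + (-c) * (m : ℝ)) from
          funext (fun m => by ring),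
        show (fun m : ℕ => -(b' + c' * (m : ℝ))) = (fun m : ℕ => (-b') + (-c') * (m : ℝ)) from
          funext (fun m => by ring)]
      apply good_quad_pos (fun m a b => by have := s1 m a b; linarith)
      rcases s2 with s2 | s2
      · right
        have e2 := s2 1 le_rfl (by omega)
        refine ⟨?_, fun m a b => by have := s2 m a (by omega); linarith⟩
        have := (neg_iff_pos_of_mul_neg hs).1 (mul_neg_of_neg_of_pos e1 e2)
        linarith
      · left
        have e2 := s2 1 le_rfl (by omega)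
        refine ⟨?_, fun m a b => by have := s2 m a (by omega); linarith⟩
        have := (pos_iff_neg_of_mul_neg hs).1 (mul_pos_of_neg_of_neg e1 e2)
        linarith

open Pool.Agent.H92LS in
/-- Exact criterion for all real parameter arrays one of whose two sequences `θ`, `θs` is
`a + b q^i + c q^(-i)` with `q > 0`, `b c ≤ 0` or `a + b i`, and for the opposite cosh and quadratic types. -/
theorem border_criterion (d : ℕ) (θ θs φ ϕ : ℕ → ℝ) (hp : ParamArray d θ θs φ ϕ)
    (ht : SinhLike d θ ∨ SinhLike d θs ∨ Opposite d θ θs) :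
    (∀ i j, i ≤ d → j ≤ d → |u θ θs φ i (θ j)| ≤ 1) ↔
    (∀ i, 1 ≤ i → i ≤ d →
      |∏ h ∈ range i, ϕ (h + 1)| ≤ |∏ h ∈ range i, φ (h + 1)| ∧
      |∏ h ∈ range i, ϕ (d - h)| ≤ |∏ h ∈ range i, φ (h + 1)|) := by
  rcases Nat.eq_zero_or_pos d with hd | hd
  · subst hd
    constructor
    · intro _ i h1 h2; omega
    · intro _ i j hi hj
      have h1 : i = 0 := by omega
      subst h1
      simp [u]
  · unfold u
    rcases ht with h | h | h
    · obtain ⟨c, k, l, hc, hk, hl, hx, hy, hg⟩ := sinh_data hd hp.pa1 hp.pa5 h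
      exact array_iff hc hk hl hd hp.pa1 hp.pa2 hp.pa3 hp.pa4 hx hy (Or.inl hg)
    · obtain ⟨c, k, l, hc, hk, hl, hx, hy, hg⟩ := sinh_data hd
        (fun i j hi hj hij => ((hp.pa1 i j hi hj hij).symm)) (fun i j a1 a2 a3 a4 => (hp.pa5 j i a3 a4 a1 a2).symm) h
      exact array_iff hc hl hk hd hp.pa1 hp.pa2 hp.pa3 hp.pa4 hy hx (Or.inr hg)
    · obtain ⟨c, k, l, hc, hk, hl, hx, hy, hg⟩ := opp_data hd h
      exact array_iff hc hk hl hd hp.pa1 hp.pa2 hp.pa3 hp.pa4 hx hy (Or.inl hg)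

end Pool.Agent.H92LS.Border0
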