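import Pool.Agent.H92LS.Seq

set_option autoImplicit false

namespace Pool.Agent.H92LS

open Finset

/-- `Fs m` stands for the normalised `phi_{m+1}`. -/
noncomputable def Fs (k l : ℕ → ℝ) (d : ℕ) (F1 : ℝ) (m : ℕ) : ℝ := F1 + l 1 * k d - l (m + 1) * k (d + m)

/-- The normalised second split sequence. -/
noncomputable def Gs (k l : ℕ → ℝ) (d : ℕ) (F1 : ℝ) (m : ℕ) : ℝ := F1 + l m * k (d + 1 - m)

/-- The function `u_i(theta_j)` of level `D` with shift `b`. -/
noncomputable def v (c : ℝ) (k l F : ℕ → ℝ) (D b i j : ℕ) : ℝ :=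
  ∑ n ∈ range (i + 1), ∏ m ∈ range n,
    (S c (j - m) * k (j + m + b) * S c (i - m) * l (i + m)) / (S c (D - m) * S c (m + 1) * F m)

/-- Window products. -/
noncomputable def T (F G : ℕ → ℝ) (D J : ℕ) : ℝ := ∏ m ∈ range J, G (D - m) / F m

theorem Fs_zero (k l : ℕ → ℝ) (d : ℕ) (F1 : ℝ) : Fs k l d F1 0 = F1 := by
  simp [Fs]

/-- `F_{m+1} - G_{D-m} = - l_D k_{2m+1+b}`, with `D = m + 1 + t`. -/
theorem FG {c : ℝ} {k l : ℕ → ℝ} (hk : Rc c k) (hl : Rc c l) (F1 : ℝ) (m t b : ℕ) :
    Fs k l (m + t + 1 + b) F1 m - Gs k l (m + t + 1 + b) F1 (t + 1)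
      = - (l (m + t + 1) * k (2 * m + 1 + b)) := by
  unfold Fs Gs
  have h := CAS hk hl 1 (b + m + 1) t m
  rw [show m + t + 1 + b + 1 - (t + 1) = b + m + 1 by omega]
  rw [show b + m + 1 + t = m + t + 1 + b by ring, show 1 + t = t + 1 by ring,
    show 1 + m = m + 1 by ring, show b + m + 1 + m + t = m + t + 1 + b + m by ring,
    show m + 1 + t = m + t + 1 by ring, show b + m + 1 + m = 2 * m + 1 + b by ring] at h
  linear_combination h

/-- products of `S` over a falling window -/
noncomputable def X (c : ℝ) (n j : ℕ) : ℝ := ∏ m ∈ range n, S c (j - m)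
/-- products of `k` over a rising window -/
noncomputable def Y (k : ℕ → ℝ) (n a : ℕ) : ℝ := ∏ m ∈ range n, k (a + m)

theorem X_succ (c : ℝ) (n j : ℕ) : X c (n + 1) j = X c n j * S c (j - n) := by
  unfold X; rw [prod_range_succ]
theorem X_succ' (c : ℝ) (n j : ℕ) : X c (n + 1) (j + 1) = S c (j + 1) * X c n j := by
  unfold X; rw [prod_range_succ']
  simp only [Nat.sub_zero, Nat.reduceSubDiff]
  ring
theorem Y_succ (k : ℕ → ℝ) (n a : ℕ) : Y k (n + 1) a = Y k n a * k (a + n) := by
  unfold Y; rw [prod_range_succ]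
theorem Y_succ' (k : ℕ → ℝ) (n a : ℕ) : Y k (n + 1) a = k a * Y k n (a + 1) := by
  unfold Y; rw [prod_range_succ']
  simp only [add_zero]
  rw [mul_comm]
  congr 1
  apply prod_congr rfl
  intro m _
  congr 1; ring
theorem X_zero_of_lt (c : ℝ) {n j : ℕ} (h : j < n) : X c n j = 0 := by
  unfold X
  apply prod_eq_zero (mem_range.2 h)
  simp [S_zero]

theorem X_ne (c : ℝ) {n j : ℕ} (hs : ∀ m, 1 ≤ m → m ≤ j → S c m ≠ 0) (h : n ≤ j) : X c n j ≠ 0 := by
  unfold X
  rw [prod_ne_zero_iff]
  intro m hm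
  rw [mem_range] at hm
  apply hs <;> omega

/-- the `n`-th factor depending on `D`, `j` -/
noncomputable def A (c : ℝ) (k : ℕ → ℝ) (D b j n : ℕ) : ℝ := X c n j * Y k n (j + b) / X c n D

theorem v_eq (c : ℝ) (k l F : ℕ → ℝ) (D b i j : ℕ) :
    v c k l F D b i j = ∑ n ∈ range (i + 1),
      A c k D b j n * ∏ m ∈ range n, (S c (i - m) * l (i + m) / (S c (m + 1) * F m)) := by
  unfold v A X Y
  apply sum_congr rfl
  intro n _
  rw [← prod_mul_distrib, ← prod_div_distrib, ← prod_mul_distrib]
  apply prod_congr rfl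
  intro m _
  rw [show j + m + b = j + b + m by ring]
  simp only [div_eq_mul_inv, mul_inv]
  ring

/-- termwise Pascal rule -/
theorem A_pascal {c : ℝ} {k : ℕ → ℝ} (hk : Rc c k) {D b j n : ℕ}
    (hs : ∀ m, 1 ≤ m → m ≤ D + 1 → S c m ≠ 0) (hj : j ≤ D) (hn : n ≤ D) :
    k (2 * j + 2 + b) * S c (D + 1) * A c k (D + 1) b (j + 1) n
      = k (j + 1 + b) * S c (D - j) * A c k D (b + 1) (j + 1) n
        + S c (j + 1) * k (j + D + 2 + b) * A c k D (b + 1) j n := by
  cases n with
  | zero =>
    simp only [A, X, Y, range_zero, prod_empty, mul_one, div_one]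
    have h := PL hk (j + 1) (D - j) (j + 1 + b)
    rw [show j + 1 + (D - j) = D + 1 by omega, show j + 1 + b + (j + 1) = 2 * j + 2 + b by ring,
      show 2 * j + 2 + b + (D - j) = j + D + 2 + b by omega] at h
    linear_combination h
  | succ n =>
    have hX : X c n D ≠ 0 := X_ne c (fun m h1 h2 => hs m h1 (by omega)) (by omega)
    have hD : S c (D + 1) ≠ 0 := hs _ (by omega) (by omega)
    have hDn : S c (D - n) ≠ 0 := hs _ (by omega) (by omega)
    unfold A
    rw [X_succ' c n j, X_succ' c n D, X_succ c n D, X_succ c n j, Y_succ' k n (j + 1 + b),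
      Y_succ k n (j + 1 + (b + 1)), Y_succ' k n (j + (b + 1))]
    rw [show j + 1 + b + 1 = j + 2 + b by ring, show j + 1 + (b + 1) = j + 2 + b by ring,
      show j + (b + 1) = j + 1 + b by ring, show j + 1 + b + 1 = j + 2 + b by ring]
    by_cases hnj : n ≤ j
    · have h := PL hk (j - n) (D - j) (j + 2 + b + n)
      rw [show j - n + (D - j) = D - n by omega, show j + 2 + b + n + (j - n) = 2 * j + 2 + b by omega,
        show 2 * j + 2 + b + (D - j) = j + D + 2 + b by omega] at h
      field_simp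
      linear_combination (S c (j + 1) * X c n j * k (j + 1 + b) * Y k n (j + 2 + b)) * h
    · have h0 : X c n j = 0 := X_zero_of_lt c (by omega)
      rw [h0]
      simp

theorem v_pascal {c : ℝ} {k : ℕ → ℝ} (l F : ℕ → ℝ) (hk : Rc c k) {D b i j : ℕ}
    (hs : ∀ m, 1 ≤ m → m ≤ D + 1 → S c m ≠ 0) (hj : j ≤ D) (hi : i ≤ D) :
    k (2 * j + 2 + b) * S c (D + 1) * v c k l F (D + 1) b i (j + 1)
      = k (j + 1 + b) * S c (D - j) * v c k l F D (b + 1) i (j + 1)
        + S c (j + 1) * k (j + D + 2 + b) * v c k l F D (b + 1) i j := by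
  rw [v_eq, v_eq, v_eq, mul_sum, mul_sum, mul_sum, ← sum_add_distrib]
  apply sum_congr rfl
  intro n hn
  rw [mem_range] at hn
  have h := A_pascal (b := b) hk hs hj (show n ≤ D by omega)
  linear_combination (∏ m ∈ range n, (S c (i - m) * l (i + m) / (S c (m + 1) * F m))) * h

/-- at `j = D+1` nothing changes -/
theorem v_top {c : ℝ} (k l F : ℕ → ℝ) {D b i : ℕ}
    (hs : ∀ m, 1 ≤ m → m ≤ D + 1 → S c m ≠ 0) (hi : i ≤ D) :
    v c k l F (D + 1) b i (D + 1) = v c k l F D (b + 1) i D := by
  rw [v_eq, v_eq]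
  apply sum_congr rfl
  intro n hn
  rw [mem_range] at hn
  congr 1
  unfold A
  have h1 : X c n (D + 1) ≠ 0 := X_ne c hs (by omega)
  have h2 : X c n D ≠ 0 := X_ne c (fun m h1 h2 => hs m h1 (by omega)) (by omega)
  rw [show D + (b + 1) = D + 1 + b by ring]
  field_simp

theorem v_zero (c : ℝ) (k l F : ℕ → ℝ) (D b i : ℕ) : v c k l F D b i 0 = 1 := by
  unfold v
  rw [sum_range_succ']
  rw [range_zero, prod_empty]
  have : ∑ n ∈ range i, ∏ m ∈ range (n + 1), (S c (0 - m) * k (0 + m + b) * S c (i - m) * l (i + m)) /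
      (S c (D - m) * S c (m + 1) * F m) = 0 := by
    apply sum_eq_zero
    intro n _
    apply prod_eq_zero (mem_range.2 (Nat.succ_pos n))
    simp [S_zero]
  rw [this, zero_add]

/-- summand of the top row -/
noncomputable def t (c : ℝ) (k l F : ℕ → ℝ) (D b J n : ℕ) : ℝ :=
  X c n J * Y k n (J + b) * (Y l n D / ∏ m ∈ range n, (S c (m + 1) * F m))

theorem v_row {c : ℝ} (k l F : ℕ → ℝ) {D b J : ℕ}
    (hs : ∀ m, 1 ≤ m → m ≤ D → S c m ≠ 0) :
    v c k l F D b D J = ∑ n ∈ range (D + 1), t c k l F D b J n := by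
  unfold v t X Y
  apply sum_congr rfl
  intro n hn
  rw [mem_range] at hn
  rw [← prod_mul_distrib, ← prod_div_distrib, ← prod_mul_distrib]
  apply prod_congr rfl
  intro m hm
  rw [mem_range] at hm
  have h1 : S c (D - m) ≠ 0 := hs _ (by omega) (by omega)
  rw [show J + m + b = J + b + m by ring]
  rw [show S c (D - m) * S c (m + 1) * F m = S c (D - m) * (S c (m + 1) * F m) by ring]
  rw [show S c (J - m) * k (J + b + m) * S c (D - m) * l (D + m)
    = S c (D - m) * (S c (J - m) * k (J + b + m) * l (D + m)) by ring]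
  rw [mul_div_mul_left _ _ h1, mul_div_assoc]

/-- the telescoping identity behind the product formula -/
theorem tele {c : ℝ} {k l : ℕ → ℝ} (hk : Rc c k) (hl : Rc c l) (F1 : ℝ) {D b J : ℕ}
    (hs : ∀ m, 1 ≤ m → m ≤ D → S c m ≠ 0) (hJ : J + 1 ≤ D)
    (hF : ∀ m, m + 1 ≤ D → Fs k l (D + b) F1 m ≠ 0) :
    ∀ N, N ≤ D →
    ∑ n ∈ range (N + 1), (Fs k l (D + b) F1 J * t c k l (Fs k l (D + b) F1) D b (J + 1) n
        - Gs k l (D + b) F1 (D - J) * t c k l (Fs k l (D + b) F1) D b J n)
      = - (k (2 * J + 1 + b) * l (D + N) * (Y l N D / ∏ m ∈ range N, (S c (m + 1) * Fs k l (D + b) F1 m))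
          * X c N J * Y k N (J + 1 + b)) := by
  have hFG : Fs k l (D + b) F1 J - Gs k l (D + b) F1 (D - J) = - (l D * k (2 * J + 1 + b)) := by
    have h := FG hk hl F1 J (D - J - 1) b
    rw [show J + (D - J - 1) + 1 = D by omega, show D - J - 1 + 1 = D - J by omega] at h
    exact h
  intro N
  induction N with
  | zero =>
    intro _
    rw [sum_range_one]
    simp only [t, X, Y, range_zero, prod_empty, mul_one, div_one, add_zero]
    linear_combination hFG
  | succ N ih =>
    intro hN
    rw [sum_range_succ, ih (by omega)]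
    have hFN := hF N (by omega)
    have hSN : S c (N + 1) ≠ 0 := hs _ (by omega) (by omega)
    unfold t
    by_cases hNJ : N ≤ J
    · obtain ⟨r, rfl⟩ := Nat.exists_eq_add_of_le hNJ
      rw [X_succ' c N (N + r), X_succ c N (N + r), Y_succ k N (N + r + 1 + b),
        Y_succ' k N (N + r + b), Y_succ l N D, prod_range_succ]
      rw [show N + r - N = r by omega]
      set Q := ∏ m ∈ range N, (S c (m + 1) * Fs k l (D + b) F1 m) with hQ
      have hQ0 : Q ≠ 0 := by
        rw [hQ, prod_ne_zero_iff]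
        intro m hm
        rw [mem_range] at hm
        exact mul_ne_zero (hs _ (by omega) (by omega)) (hF m (by omega))
      have hp := PL hk (N + 1) r (N + r + b)
      have hd : Fs k l (D + b) F1 (N + r) - Fs k l (D + b) F1 N
          = l (N + 1) * k (D + b + N) - l (N + r + 1) * k (D + b + (N + r)) := by
        unfold Fs; ring
      have hu : S c r * (l D * k (N + r + b) - l (D + (N + 1)) * k (N + r + b + (N + 1)))
          = S c (N + 1) * (l (N + 1) * k (D + b + N) - l (N + r + 1) * k (D + b + (N + r))) := by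
        cases r with
        | zero => simp [S_zero]
        | succ r =>
          have h1 := U1 hk hl N D (N + (r + 1) + b)
          have h2 := U1 hk hl r (N + 1) (D + b + N)
          rw [show N + 1 + (r + 1) = N + (r + 1) + 1 by ring, show D + b + N + (r + 1) = D + b + (N + (r + 1)) by ring,
            show N + 1 + (D + b + N) + r = D + (N + (r + 1) + b) + N by ring] at h2
          linear_combination (- S c (r + 1)) * h1 + S c (N + 1) * h2
      rw [show N + r + b + (N + 1) = N + r + 1 + b + N by ring,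
        show N + r + 1 + b + N + r = 2 * (N + r) + 1 + b by ring, show N + 1 + r = N + r + 1 by ring] at hp
      rw [show N + r + b + (N + 1) = N + r + 1 + b + N by ring] at hu
      rw [show N + r + b + 1 = N + r + 1 + b by ring]
      rw [show 2 * (N + r) + 1 + b = 2 * (N + r) + 1 + b from rfl] at hFG
      have hR : l (D + N) * (Y l N D / Q) = Y l N D * l (D + N) / (Q * (S c (N + 1) * Fs k l (D + b) F1 N))
          * (S c (N + 1) * Fs k l (D + b) F1 N) := by
        field_simp
      set R := Y l N D * l (D + N) / (Q * (S c (N + 1) * Fs k l (D + b) F1 N)) with hRdef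
      rw [mul_assoc (k (2 * (N + r) + 1 + b)) (l (D + N)) (Y l N D / Q), hR]
      linear_combination (R * X c N (N + r) * Y k N (N + r + 1 + b)) *
        (Fs k l (D + b) F1 (N + r) * hp - k (2 * (N + r) + 1 + b) * hu
          + S c r * k (N + r + b) * hFG + k (2 * (N + r) + 1 + b) * S c (N + 1) * hd)
    · have h0 : X c N J = 0 := X_zero_of_lt c (by omega)
      have h1 : X c (N + 1) J = 0 := X_zero_of_lt c (by omega)
      have h2 : X c (N + 1) (J + 1) = 0 := X_zero_of_lt c (by omega)
      rw [h0, h1, h2]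
      simp

theorem T_zero (F G : ℕ → ℝ) (D : ℕ) : T F G D 0 = 1 := by simp [T]
theorem T_succ (F G : ℕ → ℝ) (D J : ℕ) : T F G D (J + 1) = T F G D J * (G (D - J) / F J) := by
  unfold T; rw [prod_range_succ]

/-- the product formula for the top row -/
theorem v_prod {c : ℝ} {k l : ℕ → ℝ} (hk : Rc c k) (hl : Rc c l) (F1 : ℝ) {D b : ℕ}
    (hs : ∀ m, 1 ≤ m → m ≤ D → S c m ≠ 0)
    (hF : ∀ m, m + 1 ≤ D → Fs k l (D + b) F1 m ≠ 0) :
    ∀ J, J ≤ D → v c k l (Fs k l (D + b) F1) D b D J
      = T (Fs k l (D + b) F1) (Gs k l (D + b) F1) D J := by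
  intro J
  induction J with
  | zero => intro _; rw [v_zero, T_zero]
  | succ J ih =>
    intro hJ
    have h1 := ih (by omega)
    have h2 := tele hk hl F1 hs hJ hF D le_rfl
    rw [X_zero_of_lt c (show J < D by omega)] at h2
    simp only [mul_zero, zero_mul, neg_zero] at h2
    rw [sum_sub_distrib, ← mul_sum, ← mul_sum, ← v_row k l _ hs, ← v_row k l _ hs, h1] at h2
    have hFJ := hF J hJ
    rw [T_succ]
    field_simp
    linear_combination h2

/-- `u_i(theta_j)` lies between the window products. -/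
theorem v_mean {c : ℝ} {k l : ℕ → ℝ} (hk : Rc c k) (hl : Rc c l) (F1 M : ℝ) {d i : ℕ}
    (hs : ∀ m, 1 ≤ m → m ≤ d → 0 < S c m)
    (hkp : ∀ m, 1 ≤ m → m + 1 ≤ 2 * d → 0 < k m)
    (hF : ∀ m, m + 1 ≤ d → Fs k l d F1 m ≠ 0)
    (hT : ∀ J, J ≤ i → |T (Fs k l d F1) (Gs k l d F1) i J| ≤ M) :
    ∀ e D b : ℕ, D = i + e → D + b = d → ∀ j, j ≤ D → |v c k l (Fs k l d F1) D b i j| ≤ M := by
  intro e
  induction e with
  | zero =>
    intro D b hD hDb j hj
    rw [add_zero] at hD
    subst hD
    subst hDb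
    rw [v_prod hk hl F1 (fun m h1 h2 => (hs m h1 (by omega)).ne') (fun m h => hF m (by omega)) j hj]
    exact hT j hj
  | succ e ih =>
    intro D b hD hDb j hj
    obtain ⟨D, rfl⟩ : ∃ D', D = D' + 1 := ⟨i + e, by omega⟩
    have hD' : D = i + e := by omega
    cases j with
    | zero =>
      rw [v_zero]
      have := hT 0 (Nat.zero_le _)
      rw [T_zero] at this
      exact this
    | succ j =>
      have hs' : ∀ m, 1 ≤ m → m ≤ D + 1 → S c m ≠ 0 := fun m h1 h2 => (hs m h1 (by omega)).ne'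
      by_cases hjD : j = D
      · subst hjD
        rw [v_top k l _ hs' (by omega)]
        exact ih j (b + 1) hD' (by omega) j le_rfl
      · have hjD' : j + 1 ≤ D := by omega
        have h1 := ih D (b + 1) hD' (by omega) (j + 1) hjD'
        have h2 := ih D (b + 1) hD' (by omega) j (by omega)
        have hp := v_pascal (b := b) l (Fs k l d F1) hk hs' (show j ≤ D by omega) (show i ≤ D by omega)
        have hw := PL hk (j + 1) (D - j) (j + 1 + b)
        rw [show j + 1 + (D - j) = D + 1 by omega, show j + 1 + b + (j + 1) = 2 * j + 2 + b by ring,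
          show 2 * j + 2 + b + (D - j) = j + D + 2 + b by omega] at hw
        have p1 : 0 < k (2 * j + 2 + b) := hkp _ (by omega) (by omega)
        have p2 : 0 < S c (D + 1) := hs _ (by omega) (by omega)
        have p3 : 0 < k (j + 1 + b) := hkp _ (by omega) (by omega)
        have p4 : 0 < S c (D - j) := hs _ (by omega) (by omega)
        have p5 : 0 < S c (j + 1) := hs _ (by omega) (by omega)
        have p6 : 0 < k (j + D + 2 + b) := hkp _ (by omega) (by omega)
        set w := k (2 * j + 2 + b) * S c (D + 1) with hwdef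
        set w1 := k (j + 1 + b) * S c (D - j) with hw1
        set w2 := S c (j + 1) * k (j + D + 2 + b) with hw2
        have hww : w = w1 + w2 := by rw [hwdef, hw1, hw2]; linear_combination hw
        have q : 0 < w := mul_pos p1 p2
        have q1 : 0 < w1 := mul_pos p3 p4
        have q2 : 0 < w2 := mul_pos p5 p6
        rw [abs_le] at h1 h2 ⊢
        constructor
        · have : w * (-M) ≤ w * v c k l (Fs k l d F1) (D + 1) b i (j + 1) := by
            rw [hp, hww]; nlinarith
          exact le_of_mul_le_mul_left this q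
        · have : w * v c k l (Fs k l d F1) (D + 1) b i (j + 1) ≤ w * M := by
            rw [hp, hww]; nlinarith
          exact le_of_mul_le_mul_left this q

/-- the value at `theta_d` -/
theorem v_last {c : ℝ} {k l : ℕ → ℝ} (hk : Rc c k) (hl : Rc c l) (F1 : ℝ) {d i : ℕ}
    (hs : ∀ m, 1 ≤ m → m ≤ d → S c m ≠ 0)
    (hF : ∀ m, m + 1 ≤ d → Fs k l d F1 m ≠ 0) :
    ∀ e D b : ℕ, D = i + e → D + b = d →
      v c k l (Fs k l d F1) D b i D = T (Fs k l d F1) (Gs k l d F1) i i := by
  intro e
  induction e with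
  | zero =>
    intro D b hD hDb
    rw [add_zero] at hD
    subst hD
    subst hDb
    exact v_prod hk hl F1 (fun m h1 h2 => hs m h1 (by omega)) (fun m h => hF m (by omega)) D le_rfl
  | succ e ih =>
    intro D b hD hDb
    obtain ⟨D, rfl⟩ : ∃ D', D = D' + 1 := ⟨i + e, by omega⟩
    rw [v_top k l _ (fun m h1 h2 => hs m h1 (by omega)) (by omega)]
    exact ih D (b + 1) (by omega) (by omega)

end Pool.Agent.H92LS
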