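import Pool.Agent.H92LS.Row

set_option autoImplicit false

namespace Pool.Agent.H92LS

open Finset

/-- the border conditions -/
def Border (d : ℕ) (F G : ℕ → ℝ) : Prop :=
  ∀ J, J ≤ d → |T F G J J| ≤ 1 ∧ |T F G d J| ≤ 1

/-- one sign on `1..2d-1` -/
def OneSign (d : ℕ) (k : ℕ → ℝ) : Prop :=
  (∀ m, 1 ≤ m → m + 1 ≤ 2 * d → 0 < k m) ∨ (∀ m, 1 ≤ m → m + 1 ≤ 2 * d → k m < 0)

/-- all inner rows are of valley form or start with a ratio at most one -/
def RowOK (d : ℕ) (k l : ℕ → ℝ) (F1 : ℝ) : Prop :=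
  ∀ i, 2 ≤ i → i + 1 ≤ d → 0 ≤ l i * (l (i - 1) - l (i + 1)) ∨ |Gs k l d F1 i| ≤ |Fs k l d F1 0|

theorem full_border {c : ℝ} {k l : ℕ → ℝ} (hk : Rc c k) (hl : Rc c l) (F1 : ℝ) {d : ℕ}
    (hs : ∀ m, 1 ≤ m → m ≤ d → 0 < S c m)
    (hF : ∀ m, m + 1 ≤ d → Fs k l d F1 m ≠ 0)
    (h : ∀ i j, i ≤ d → j ≤ d → |v c k l (Fs k l d F1) d 0 i j| ≤ 1) :
    Border d (Fs k l d F1) (Gs k l d F1) := by
  intro J hJ
  constructor
  · have := h J d hJ le_rfl
    rwa [v_last hk hl F1 (fun m a b => (hs m a b).ne') hF (d - J) d 0 (by omega) (by omega)] at this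
  · have := h d J le_rfl hJ
    have hv := v_prod hk hl F1 (D := d) (b := 0) (fun m a b => (hs m a b).ne') hF J hJ
    simp only [add_zero] at hv
    rwa [hv] at this

theorem border_full_pos {c : ℝ} {k l : ℕ → ℝ} (hk : Rc c k) (hl : Rc c l) (F1 : ℝ) {d : ℕ}
    (hs : ∀ m, 1 ≤ m → m ≤ d → 0 < S c m)
    (hkp : ∀ m, 1 ≤ m → m + 1 ≤ 2 * d → 0 < k m)
    (hl0 : ∀ i, 1 ≤ i → i ≤ d → l i ≠ 0)
    (hF : ∀ m, m + 1 ≤ d → Fs k l d F1 m ≠ 0)
    (hB : Border d (Fs k l d F1) (Gs k l d F1)) (hR : RowOK d k l F1) :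
    ∀ i j, i ≤ d → j ≤ d → |v c k l (Fs k l d F1) d 0 i j| ≤ 1 := by
  intro i j hi hj
  have hall : ∀ J, J ≤ i → |T (Fs k l d F1) (Gs k l d F1) i J| ≤ 1 := by
    intro J hJ
    rcases Nat.eq_zero_or_pos J with h0 | h0
    · subst h0; rw [T_zero]; simp
    rcases Nat.eq_or_lt_of_le hi with h1 | h1
    · subst h1; exact (hB J hJ).2
    rcases Nat.lt_or_ge i 2 with h2 | h2
    · have : J = i := by omega
      subst this
      exact (hB J hi).1
    rcases hR i h2 h1 with h3 | h3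
    · exact row_valley hk hl F1 hkp hi (hl0 i (by omega) hi) hF h3 (hB i hi).1 J hJ
    · rcases le_total 0 (l i * (l (i - 1) - l (i + 1))) with h4 | h4
      · exact row_valley hk hl F1 hkp hi (hl0 i (by omega) hi) hF h4 (hB i hi).1 J hJ
      · exact row_hill hk hl F1 hkp hi hF h4 h3 J hJ
  exact v_mean hk hl F1 1 hs hkp hF hall (d - i) d 0 (by omega) (by omega) j hj

theorem border_full {c : ℝ} {k l : ℕ → ℝ} (hk : Rc c k) (hl : Rc c l) (F1 : ℝ) {d : ℕ}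
    (hs : ∀ m, 1 ≤ m → m ≤ d → 0 < S c m)
    (hkp : OneSign d k)
    (hl0 : ∀ i, 1 ≤ i → i ≤ d → l i ≠ 0)
    (hF : ∀ m, m + 1 ≤ d → Fs k l d F1 m ≠ 0)
    (hB : Border d (Fs k l d F1) (Gs k l d F1)) (hR : RowOK d k l F1) :
    ∀ i j, i ≤ d → j ≤ d → |v c k l (Fs k l d F1) d 0 i j| ≤ 1 := by
  rcases hkp with h | h
  · exact border_full_pos hk hl F1 hs h hl0 hF hB hR
  · have := border_full_pos (Rc_neg hk) (Rc_neg hl) F1 hs (d := d)
      (fun m a b => by have := h m a b; simpa using this)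
      (fun i a b => by have := hl0 i a b; simpa using this)
      (by rw [Fs_neg]; exact hF) (by rw [Fs_neg, Gs_neg]; exact hB)
      (by
        intro i a b
        rw [Fs_neg, Gs_neg]
        rcases hR i a b with h1 | h1
        · left
          have : -l i * (-l (i - 1) - -l (i + 1)) = l i * (l (i - 1) - l (i + 1)) := by ring
          rw [this]; exact h1
        · right; exact h1)
    rw [Fs_neg] at this
    simpa only [v_neg] using this

theorem T_swap1 (k l : ℕ → ℝ) {d : ℕ} (F : ℕ → ℝ) (F1 : ℝ) {J : ℕ} (hJ : J ≤ d) :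
    T F (Gs l k d F1) J J = T F (Gs k l d F1) d J := by
  rw [T_diag, T_eq]
  congr 1
  apply prod_congr rfl
  intro m hm
  rw [mem_range] at hm
  rw [Gs_swap k l F1 (by omega)]
  congr 1
  omega

theorem T_swap2 (k l : ℕ → ℝ) {d : ℕ} (F : ℕ → ℝ) (F1 : ℝ) {J : ℕ} (hJ : J ≤ d) :
    T F (Gs l k d F1) d J = T F (Gs k l d F1) J J := by
  rw [T_diag, T_eq]
  congr 1
  apply prod_congr rfl
  intro m hm
  rw [mem_range] at hm
  rw [Gs_swap k l F1 (by omega)]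
  congr 1
  omega

theorem Border_swap (k l : ℕ → ℝ) {d : ℕ} (F : ℕ → ℝ) (F1 : ℝ) (h : Border d F (Gs k l d F1)) :
    Border d F (Gs l k d F1) := by
  intro J hJ
  rw [T_swap1 k l F F1 hJ, T_swap2 k l F F1 hJ]
  exact ⟨(h J hJ).2, (h J hJ).1⟩

/-- main abstract criterion -/
theorem crit {c : ℝ} {k l : ℕ → ℝ} (hk : Rc c k) (hl : Rc c l) (F1 : ℝ) {d : ℕ} (hd : 1 ≤ d)
    (hs : ∀ m, 1 ≤ m → m ≤ d → 0 < S c m)
    (hk0 : ∀ i, 1 ≤ i → i ≤ d → k i ≠ 0)
    (hl0 : ∀ i, 1 ≤ i → i ≤ d → l i ≠ 0)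
    (hF : ∀ m, m + 1 ≤ d → Fs k l d F1 m ≠ 0)
    (hN : Border d (Fs k l d F1) (Gs k l d F1) →
      (OneSign d k ∧ RowOK d k l F1) ∨ (OneSign d l ∧ RowOK d l k F1)) :
    (∀ i j, i ≤ d → j ≤ d → |v c k l (Fs k l d F1) d 0 i j| ≤ 1) ↔
    Border d (Fs k l d F1) (Gs k l d F1) := by
  constructor
  · exact full_border hk hl F1 hs hF
  · intro hB
    rcases hN hB with ⟨h1, h2⟩ | ⟨h1, h2⟩
    · exact border_full hk hl F1 hs h1 hl0 hF hB h2
    · have hsw := Fs_swap hk hl hd F1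
      have := border_full hl hk F1 hs h1 hk0 (by rw [hsw]; exact hF)
        (by rw [hsw]; exact Border_swap k l _ F1 hB) h2
      rw [hsw] at this
      intro i j hi hj
      have h3 := this j i hj hi
      rwa [v_swap] at h3

/-- from sequences to parameter arrays -/
theorem array_crit {c : ℝ} {k l : ℕ → ℝ} (hk : Rc c k) (hl : Rc c l) {d : ℕ} (hd : 1 ≤ d)
    (hs : ∀ m, 1 ≤ m → m ≤ d → 0 < S c m)
    {θ θs φ ϕ : ℕ → ℝ}
    (pa1 : ∀ i j, i ≤ d → j ≤ d → i ≠ j → θ i ≠ θ j ∧ θs i ≠ θs j)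
    (pa2 : ∀ i, 1 ≤ i → i ≤ d → φ i ≠ 0 ∧ ϕ i ≠ 0)
    (pa3 : ∀ i, 1 ≤ i → i ≤ d → φ i =
      ϕ 1 * ∑ h ∈ range i, (θ h - θ (d - h)) / (θ 0 - θ d) + (θs i - θs 0) * (θ (i - 1) - θ d))
    (pa4 : ∀ i, 1 ≤ i → i ≤ d → ϕ i =
      φ 1 * ∑ h ∈ range i, (θ h - θ (d - h)) / (θ 0 - θ d) + (θs i - θs 0) * (θ (d - i + 1) - θ 0))
    (hx : ∀ i, i + 1 ≤ d → θ (i + 1) - θ i = k (2 * i + 1))
    (hy : ∀ i, i + 1 ≤ d → θs (i + 1) - θs i = l (2 * i + 1))
    (hN : ∀ F1, F1 ≠ 0 → φ 1 = S c d * F1 →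
      (∀ m, 1 ≤ m → m ≤ d → ϕ m = S c m * S c (d + 1 - m) * Gs k l d F1 m) →
      Border d (Fs k l d F1) (Gs k l d F1) →
      (OneSign d k ∧ RowOK d k l F1) ∨ (OneSign d l ∧ RowOK d l k F1)) :
    (∀ i j, i ≤ d → j ≤ d → |∑ n ∈ range (i + 1), (∏ h ∈ range n, (θ j - θ h)) *
        (∏ h ∈ range n, (θs i - θs h)) / ∏ h ∈ range n, φ (h + 1)| ≤ 1) ↔
    (∀ i, 1 ≤ i → i ≤ d → |∏ h ∈ range i, ϕ (h + 1)| ≤ |∏ h ∈ range i, φ (h + 1)| ∧
      |∏ h ∈ range i, ϕ (d - h)| ≤ |∏ h ∈ range i, φ (h + 1)|) := by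
  have hxx := sum_form' hk hx
  have hyy := sum_form' hl hy
  have hSd : S c d ≠ 0 := (hs d hd le_rfl).ne'
  have hk0 : ∀ i, 1 ≤ i → i ≤ d → k i ≠ 0 := by
    intro i h1 h2 h0
    have h3 := hxx 0 i (Nat.zero_le _) h2
    simp only [Nat.sub_zero, add_zero] at h3
    rw [h0, mul_zero] at h3
    exact (pa1 i 0 h2 (Nat.zero_le _) (by omega)).1 (by linarith)
  have hl0 : ∀ i, 1 ≤ i → i ≤ d → l i ≠ 0 := by
    intro i h1 h2 h0
    have h3 := hyy 0 i (Nat.zero_le _) h2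
    simp only [Nat.sub_zero, add_zero] at h3
    rw [h0, mul_zero] at h3
    exact (pa1 i 0 h2 (Nat.zero_le _) (by omega)).2 (by linarith)
  have hth := theta_sum hxx hSd (hk0 d hd le_rfl)
  set F1 := ϕ 1 / S c d - l 1 * k d with hF1
  have hφ : ∀ m, m + 1 ≤ d → φ (m + 1) = S c (m + 1) * S c (d - m) * Fs k l d F1 m := by
    intro m hm
    rw [pa3 (m + 1) (by omega) hm, hth (m + 1) hm]
    have h1 := hyy 0 (m + 1) (Nat.zero_le _) hm
    simp only [Nat.sub_zero, add_zero] at h1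
    have h2 := hxx m d (by omega) le_rfl
    rw [h1, show m + 1 - 1 = m by omega, show d + 1 - (m + 1) = d - m by omega,
      show θ m - θ d = - (S c (d - m) * k (d + m)) by linarith]
    unfold Fs
    rw [hF1]
    field_simp
    ring
  have hφ1 : φ 1 = S c d * F1 := by
    have := hφ 0 hd
    rw [Fs_zero] at this
    simpa [S_one] using this
  have hϕ : ∀ m, 1 ≤ m → m ≤ d → ϕ m = S c m * S c (d + 1 - m) * Gs k l d F1 m := by
    intro m h1 hm
    rw [pa4 m h1 hm, hth m hm, hφ1]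
    have h1 := hyy 0 m (Nat.zero_le _) hm
    simp only [Nat.sub_zero, add_zero] at h1
    have h2 := hxx 0 (d - m + 1) (Nat.zero_le _) (by omega)
    simp only [Nat.sub_zero, add_zero] at h2
    rw [h1, h2, show d - m + 1 = d + 1 - m by omega]
    unfold Gs
    field_simp
  have hF : ∀ m, m + 1 ≤ d → Fs k l d F1 m ≠ 0 := by
    intro m hm h0
    have := hφ m hm
    rw [h0, mul_zero] at this
    exact (pa2 (m + 1) (by omega) hm).1 this
  have hF10 : F1 ≠ 0 := by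
    have := hF 0 hd
    rwa [Fs_zero] at this
  have hu : ∀ i j, i ≤ d → j ≤ d → ∑ n ∈ range (i + 1), (∏ h ∈ range n, (θ j - θ h)) *
        (∏ h ∈ range n, (θs i - θs h)) / ∏ h ∈ range n, φ (h + 1) = v c k l (Fs k l d F1) d 0 i j := by
    intro i j hi hj
    unfold v
    apply sum_congr rfl
    intro n hn
    rw [mem_range] at hn
    rw [← prod_mul_distrib, ← prod_div_distrib]
    by_cases hnj : n ≤ j
    · apply prod_congr rfl
      intro m hm
      rw [mem_range] at hm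
      rw [hxx m j (by omega) hj, hyy m i (by omega) hi, hφ m (by omega)]
      simp only [add_zero]
      congr 1 <;> ring
    · push Not at hnj
      rw [prod_eq_zero (mem_range.2 hnj) (by simp), prod_eq_zero (mem_range.2 hnj) (by simp [S_zero])]
  have hmain := crit hk hl F1 hd hs hk0 hl0 hF (hN F1 hF10 hφ1 hϕ)
  have hP : ∀ J, J ≤ d → 0 < ∏ m ∈ range J, (S c (m + 1) * S c (d - m)) := by
    intro J hJ
    apply prod_pos
    intro m hm
    rw [mem_range] at hm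
    exact mul_pos (hs _ (by omega) (by omega)) (hs _ (by omega) (by omega))
  have hFp : ∀ J, J ≤ d → 0 < |∏ m ∈ range J, Fs k l d F1 m| := by
    intro J hJ
    rw [abs_pos, prod_ne_zero_iff]
    intro m hm
    rw [mem_range] at hm
    exact hF m (by omega)
  have q1 : ∀ J, J ≤ d → ∏ h ∈ range J, φ (h + 1)
      = (∏ m ∈ range J, (S c (m + 1) * S c (d - m))) * ∏ m ∈ range J, Fs k l d F1 m := by
    intro J hJ
    rw [← prod_mul_distrib]
    apply prod_congr rfl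
    intro m hm
    rw [mem_range] at hm
    exact hφ m (by omega)
  have q2 : ∀ J, J ≤ d → ∏ h ∈ range J, ϕ (h + 1)
      = (∏ m ∈ range J, (S c (m + 1) * S c (d - m))) * ∏ m ∈ range J, Gs k l d F1 (m + 1) := by
    intro J hJ
    rw [← prod_mul_distrib]
    apply prod_congr rfl
    intro m hm
    rw [mem_range] at hm
    rw [hϕ (m + 1) (by omega) (by omega), show d + 1 - (m + 1) = d - m by omega]
  have q3 : ∀ J, J ≤ d → ∏ h ∈ range J, ϕ (d - h)
      = (∏ m ∈ range J, (S c (m + 1) * S c (d - m))) * ∏ m ∈ range J, Gs k l d F1 (d - m) := by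
    intro J hJ
    rw [← prod_mul_distrib]
    apply prod_congr rfl
    intro m hm
    rw [mem_range] at hm
    rw [hϕ (d - m) (by omega) (by omega), show d + 1 - (d - m) = m + 1 by omega]
    ring
  have t1 : ∀ J, J ≤ d → (|T (Fs k l d F1) (Gs k l d F1) J J| ≤ 1 ↔
      |∏ h ∈ range J, ϕ (h + 1)| ≤ |∏ h ∈ range J, φ (h + 1)|) := by
    intro J hJ
    rw [T_diag, abs_div, div_le_one (hFp J hJ), q1 J hJ, q2 J hJ, abs_mul, abs_mul,
      abs_of_pos (hP J hJ)]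
    exact (mul_le_mul_iff_right₀ (hP J hJ)).symm
  have t2 : ∀ J, J ≤ d → (|T (Fs k l d F1) (Gs k l d F1) d J| ≤ 1 ↔
      |∏ h ∈ range J, ϕ (d - h)| ≤ |∏ h ∈ range J, φ (h + 1)|) := by
    intro J hJ
    rw [T_eq, abs_div, div_le_one (hFp J hJ), q1 J hJ, q3 J hJ, abs_mul, abs_mul,
      abs_of_pos (hP J hJ)]
    exact (mul_le_mul_iff_right₀ (hP J hJ)).symm
  constructor
  · intro h i h1 hi
    have := hmain.1 (fun i j hi hj => by rw [← hu i j hi hj]; exact h i j hi hj) i hi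
    exact ⟨(t1 i hi).1 this.1, (t2 i hi).1 this.2⟩
  · intro h i j hi hj
    rw [hu i j hi hj]
    refine hmain.2 (fun J hJ => ?_) i j hi hj
    rcases Nat.eq_zero_or_pos J with h0 | h0
    · subst h0; simp [T_zero]
    · exact ⟨(t1 J hJ).2 (h J h0 hJ).1, (t2 J hJ).2 (h J h0 hJ).2⟩

end Pool.Agent.H92LS
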