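import Pool.Agent.H92LS.Valley

set_option autoImplicit false

namespace Pool.Agent.H92LS

open Finset

theorem Rc_sol {p : ℝ} (hp : 1 < p) {l : ℕ → ℝ} (hl : Rc (p + 1 / p) l) :
    ∃ B C : ℝ, ∀ m, l m = B * p ^ m + C / p ^ m := by
  have hp0 : 0 < p := by linarith
  have hd : p ^ 2 - 1 ≠ 0 := by nlinarith
  refine ⟨(p * l 1 - l 0) / (p ^ 2 - 1), (p ^ 2 * l 0 - p * l 1) / (p ^ 2 - 1), ?_⟩
  intro m
  induction m using Nat.twoStepInduction with
  | zero => simp; field_simp; ring
  | one => simp; field_simp; ring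
  | more m ih1 ih2 =>
    rw [hl m, ih1, ih2]
    have : p ^ m ≠ 0 := by positivity
    rw [pow_succ p (m + 1), pow_succ p m]
    field_simp
    ring

theorem Rc_two {l : ℕ → ℝ} (hl : Rc 2 l) : ∀ m : ℕ, l m = l 0 + (l 1 - l 0) * m := by
  intro m
  induction m using Nat.twoStepInduction with
  | zero => simp
  | one => simp
  | more m ih1 ih2 =>
    rw [hl m, ih1, ih2]
    push_cast
    ring

theorem CC_hyp {d : ℕ} {G : ℕ → ℝ} {q A E c0 : ℝ} (hq : 1 < q) (hA : 0 ≤ A) (hE : 0 ≤ E)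
    (hG : ∀ m, 1 ≤ m → m ≤ d → G m = c0 - (A * q ^ m + E / q ^ m)) : CC d G := by
  intro r J hr hJ hd
  have hq0 : 0 < q := by linarith
  rw [hG r (by omega) (by omega), hG (r + J) (by omega) (by omega),
    hG (r + 1) (by omega) (by omega), hG (r + 1 + J) (by omega) (by omega)]
  have hx : 0 < q ^ r := by positivity
  have hy : 1 < q ^ J := one_lt_pow₀ hq (by omega)
  have e1 : q ^ (r + J) = q ^ r * q ^ J := pow_add q r J
  have e2 : q ^ (r + 1) = q ^ r * q := pow_succ q r
  have e3 : q ^ (r + 1 + J) = q ^ r * q * q ^ J := by rw [pow_add, pow_succ]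
  rw [e1, e2, e3]
  set x := q ^ r with hxd
  set y := q ^ J with hyd
  have hy0 : 0 < y := by linarith
  obtain ⟨w, hw0, hw⟩ : ∃ w, 0 ≤ w ∧ E = w * (x * q * y) :=
    ⟨E / (x * q * y), by positivity, by field_simp⟩
  obtain ⟨u, hu0, hu⟩ : ∃ u, 0 ≤ u ∧ u = A * x := ⟨A * x, by positivity, rfl⟩
  have f1 : E / x = w * q * y := by rw [hw]; field_simp
  have f2 : E / (x * y) = w * q := by rw [hw]; field_simp
  have f3 : E / (x * q) = w * y := by rw [hw]; field_simp
  have f4 : E / (x * q * y) = w := by rw [hw]; field_simp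
  have g2 : A * (x * y) = u * y := by rw [hu]; ring
  have g3 : A * (x * q) = u * q := by rw [hu]; ring
  have g4 : A * (x * q * y) = u * q * y := by rw [hu]; ring
  rw [f1, f2, f3, f4, g2, g3, g4, ← hu]
  have hy1 : 0 < y - 1 := by linarith
  have hq1 : 0 < q - 1 := by linarith
  refine ⟨?_, ?_, ?_⟩
  · have : 0 ≤ (u + w) * ((y - 1) * (q - 1)) := by positivity
    nlinarith
  · intro h
    have h1 : u * q ≤ w := by
      by_contra hx
      push Not at hx
      have : 0 < (u * q - w) * (y - 1) := mul_pos (by linarith) hy1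
      nlinarith
    have h2 : u ≤ w := by nlinarith
    have : 0 ≤ (w - u) * ((y + 1) * (q - 1)) := mul_nonneg (by linarith) (by positivity)
    nlinarith
  · intro h
    have h1 : w * q ≤ u := by
      by_contra hx
      push Not at hx
      have : 0 < (w * q - u) * (y - 1) := mul_pos (by linarith) hy1
      nlinarith
    have h2 : w ≤ u := by nlinarith
    have : 0 ≤ (u - w) * ((y + 1) * (q - 1)) := mul_nonneg (by linarith) (by positivity)
    nlinarith

theorem CC_quad {d : ℕ} {G : ℕ → ℝ} {g0 g1 C : ℝ} (hC : 0 ≤ C)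
    (hG : ∀ m : ℕ, 1 ≤ m → m ≤ d → G m = g0 + g1 * m - C * (m : ℝ) ^ 2) : CC d G := by
  intro r J hr hJ hd
  rw [hG r (by omega) (by omega), hG (r + J) (by omega) (by omega),
    hG (r + 1) (by omega) (by omega), hG (r + 1 + J) (by omega) (by omega)]
  push_cast
  have hJ' : (1 : ℝ) ≤ J := by exact_mod_cast hJ
  refine ⟨?_, ?_, ?_⟩
  · nlinarith [mul_nonneg hC (show (0 : ℝ) ≤ J by linarith)]
  · intro h
    have h1 : 0 ≤ g1 - C * (2 * r + 2 + J) := by
      by_contra hx
      push Not at hx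
      have : (g1 - C * (2 * r + 2 + J)) * J < 0 := mul_neg_of_neg_of_pos hx (by linarith)
      nlinarith
    nlinarith
  · intro h
    have h1 : g1 - C * (2 * r + J) ≤ 0 := by
      by_contra hx
      push Not at hx
      have : 0 < (g1 - C * (2 * r + J)) * J := mul_pos hx (by linarith)
      nlinarith
    nlinarith

/-- domination -/
theorem dom {c : ℝ} {k l : ℕ → ℝ} (hk : Rc c k) (hl : Rc c l) (F1 : ℝ) {d : ℕ}
    (hkp : ∀ m, 1 ≤ m → m + 1 ≤ 2 * d → 0 < k m) {D m : ℕ} (hm : m + 1 ≤ D) (hD : D ≤ d) :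
    ∃ x, 0 < x ∧ Fs k l d F1 m - Gs k l d F1 (D - m) = - (l D * x) := by
  refine ⟨k (2 * m + 1 + (d - D)), hkp _ (by omega) (by omega), ?_⟩
  have h := FG hk hl F1 m (D - m - 1) (d - D)
  rw [show m + (D - m - 1) + 1 + (d - D) = d by omega, show D - m - 1 + 1 = D - m by omega,
    show m + (D - m - 1) + 1 = D by omega] at h
  exact h

theorem noHill_hyp {p : ℝ} (hp : 1 < p) {k l : ℕ → ℝ} {B C B' C' : ℝ}
    (hkf : ∀ m, k m = B * p ^ m + C / p ^ m) (hlf : ∀ m, l m = B' * p ^ m + C' / p ^ m)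
    (hk : Rc (p + 1 / p) k) (hl : Rc (p + 1 / p) l) (F1 : ℝ) {d : ℕ}
    (hkp : ∀ m, 1 ≤ m → m + 1 ≤ 2 * d → 0 < k m)
    (h : (B' * C) * (C' * B) ≤ 0 ∨ (B' * C ≤ 0 ∧ C' * B ≤ 0 ∧ ∀ m, 1 ≤ m → m ≤ d → l m < 0) ∨
      (0 ≤ B' * C ∧ 0 ≤ C' * B ∧ ∀ m, 1 ≤ m → m ≤ d → 0 < l m)) :
    NoHill d (Fs k l d F1) (Gs k l d F1) := by
  have hp0 : 0 < p := by linarith
  have hq : 1 < p ^ 2 := by nlinarith
  have hP : 0 < p ^ (d + 1) := by positivity
  have hGf : ∀ m, 1 ≤ m → m ≤ d → Gs k l d F1 m =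
      (F1 + B' * B * p ^ (d + 1) + C' * C / p ^ (d + 1))
        - ((-(B' * C) / p ^ (d + 1)) * (p ^ 2) ^ m + (-(C' * B) * p ^ (d + 1)) / (p ^ 2) ^ m) := by
    intro m h1 h2
    unfold Gs
    rw [hkf, hlf]
    have e : p ^ (d + 1) = p ^ m * p ^ (d + 1 - m) := by rw [← pow_add]; congr 1; omega
    rw [e, ← pow_mul, mul_comm 2 m, pow_mul]
    have x1 : p ^ m ≠ 0 := by positivity
    have x2 : p ^ (d + 1 - m) ≠ 0 := by positivity
    field_simp
    ring
  rcases h with h | h | h
  · -- monotone case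
    set A := -(B' * C) / p ^ (d + 1) with hA
    set E := -(C' * B) * p ^ (d + 1) with hE
    have hAE : A * E ≤ 0 := by
      have : A * E = (B' * C) * (C' * B) := by rw [hA, hE]; field_simp
      rw [this]; exact h
    have hstep : ∀ m, 1 ≤ m → m + 1 ≤ d → Gs k l d F1 (m + 1) - Gs k l d F1 m
        = (p ^ 2 - 1) * (E / ((p ^ 2) ^ m * p ^ 2) - A * (p ^ 2) ^ m) := by
      intro m h1 h2
      rw [hGf m h1 (by omega), hGf (m + 1) (by omega) h2, pow_succ (p ^ 2) m]
      field_simp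
      ring
    have hq1 : 0 < p ^ 2 - 1 := by linarith
    rcases mul_nonpos_iff.1 hAE with ⟨hA0, hE0⟩ | ⟨hA0, hE0⟩
    · by_cases hz : A = 0 ∧ E = 0
      · apply noHill_const
        intro m n h1 h2 h3 h4
        rw [hGf m h1 h2, hGf n h3 h4, hz.1, hz.2]
        simp
      · apply noHill_anti
        intro m h1 h2
        have := hstep m h1 h2
        have hlt : E / ((p ^ 2) ^ m * p ^ 2) - A * (p ^ 2) ^ m < 0 := by
          have a1 : E / ((p ^ 2) ^ m * p ^ 2) ≤ 0 := div_nonpos_of_nonpos_of_nonneg hE0 (by positivity)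
          have a2 : 0 ≤ A * (p ^ 2) ^ m := by positivity
          rcases lt_or_eq_of_le hA0 with h5 | h5
          · have : 0 < A * (p ^ 2) ^ m := by positivity
            linarith
          · have hE1 : E < 0 := lt_of_le_of_ne hE0 (fun h6 => hz ⟨h5.symm, h6⟩)
            have : E / ((p ^ 2) ^ m * p ^ 2) < 0 := div_neg_of_neg_of_pos hE1 (by positivity)
            linarith
        have := mul_neg_of_pos_of_neg hq1 hlt
        linarith
    · by_cases hz : A = 0 ∧ E = 0
      · apply noHill_const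
        intro m n h1 h2 h3 h4
        rw [hGf m h1 h2, hGf n h3 h4, hz.1, hz.2]
        simp
      · apply noHill_mono
        intro m h1 h2
        have := hstep m h1 h2
        have hlt : 0 < E / ((p ^ 2) ^ m * p ^ 2) - A * (p ^ 2) ^ m := by
          have a1 : 0 ≤ E / ((p ^ 2) ^ m * p ^ 2) := div_nonneg hE0 (by positivity)
          have a2 : A * (p ^ 2) ^ m ≤ 0 := mul_nonpos_of_nonpos_of_nonneg hA0 (by positivity)
          rcases lt_or_eq_of_le hE0 with h5 | h5
          · have : 0 < E / ((p ^ 2) ^ m * p ^ 2) := by positivity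
            linarith
          · have hA1 : A < 0 := lt_of_le_of_ne hA0 (fun h6 => hz ⟨h6, h5.symm⟩)
            have : A * (p ^ 2) ^ m < 0 := mul_neg_of_neg_of_pos hA1 (by positivity)
            linarith
        have := mul_pos hq1 hlt
        linarith
  · obtain ⟨ha, he, hln⟩ := h
    apply noHill_conc
    · apply CC_hyp hq (A := -(B' * C) / p ^ (d + 1)) (E := -(C' * B) * p ^ (d + 1)) _ _ hGf
      · apply div_nonneg _ hP.le; linarith
      · apply mul_nonneg _ hP.le; linarith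
    · intro D m h1 h2
      obtain ⟨x, hx, hxe⟩ := dom hk hl F1 hkp h1 h2
      have := mul_neg_of_neg_of_pos (hln D (by omega) h2) hx
      linarith
  · obtain ⟨ha, he, hln⟩ := h
    apply noHill_neg
    apply noHill_conc
    · apply CC_hyp hq (A := (B' * C) / p ^ (d + 1)) (E := (C' * B) * p ^ (d + 1))
        (c0 := -(F1 + B' * B * p ^ (d + 1) + C' * C / p ^ (d + 1)))
      · apply div_nonneg ha hP.le
      · apply mul_nonneg he hP.le
      · intro m h1 h2
        rw [hGf m h1 h2]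
        ring
    · intro D m h1 h2
      obtain ⟨x, hx, hxe⟩ := dom hk hl F1 hkp h1 h2
      have := mul_pos (hln D (by omega) h2) hx
      linarith

end Pool.Agent.H92LS
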