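import Pool.Agent.H92LS.Shape

set_option autoImplicit false

namespace Pool.Agent.H92LS

open Finset

/-- both sequences of steps grow -/
def GG (d : ℕ) (k l : ℕ → ℝ) : Prop :=
  (∀ i, i + 2 ≤ d → |k (2 * i + 1)| < |k (2 * i + 3)|) ∧
  (∀ i, i + 2 ≤ d → |l (2 * i + 1)| < |l (2 * i + 3)|)

theorem core_ineq {p a b B C B' C' : ℝ} (hp : 1 < p) (ha : p ^ 2 ≤ a) (hb : p ^ 2 ≤ b)
    (h : 0 ≤ B' * C ∨ 0 ≤ C' * B) :
    (B' * a + C' / a) * (B * b + C / b) ≤ (B' * p + C' / p) * (B * (a * b / p) + C / (a * b / p)) ∨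
    (B' * a + C' / a) * (B * b + C / b) ≤ (B' * (a * b / p) + C' / (a * b / p)) * (B * p + C / p) := by
  have hp0 : 0 < p := by linarith
  have ha0 : 0 < a := lt_of_lt_of_le (by positivity) ha
  have hb0 : 0 < b := lt_of_lt_of_le (by positivity) hb
  have hpp : p < p ^ 2 := by nlinarith
  have ha1 : 0 < a ^ 2 - p ^ 2 := by nlinarith
  have hb1 : 0 < b ^ 2 - p ^ 2 := by nlinarith
  have e1 : (B' * p + C' / p) * (B * (a * b / p) + C / (a * b / p)) - (B' * a + C' / a) * (B * b + C / b)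
      = (a ^ 2 - p ^ 2) / (a * b * p ^ 2) * (C' * B * b ^ 2 - B' * C * p ^ 2) := by
    field_simp
    ring
  have e2 : (B' * (a * b / p) + C' / (a * b / p)) * (B * p + C / p) - (B' * a + C' / a) * (B * b + C / b)
      = (b ^ 2 - p ^ 2) / (a * b * p ^ 2) * (B' * C * a ^ 2 - C' * B * p ^ 2) := by
    field_simp
    ring
  have q1 : 0 < (a ^ 2 - p ^ 2) / (a * b * p ^ 2) := by positivity
  have q2 : 0 < (b ^ 2 - p ^ 2) / (a * b * p ^ 2) := by positivity
  have m1 : 0 ≤ C' * B * b ^ 2 - B' * C * p ^ 2 → (B' * a + C' / a) * (B * b + C / b) ≤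
      (B' * p + C' / p) * (B * (a * b / p) + C / (a * b / p)) := by
    intro h0
    have := mul_nonneg q1.le h0
    linarith
  have m2 : 0 ≤ B' * C * a ^ 2 - C' * B * p ^ 2 → (B' * a + C' / a) * (B * b + C / b) ≤
      (B' * (a * b / p) + C' / (a * b / p)) * (B * p + C / p) := by
    intro h0
    have := mul_nonneg q2.le h0
    linarith
  set u := B' * C
  set w := C' * B
  rcases le_or_gt 0 u with hu | hu
  · rcases le_or_gt w u with hw | hw
    · right
      apply m2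
      have h1 : u * p ^ 2 ≤ u * a ^ 2 := mul_le_mul_of_nonneg_left (by linarith) hu
      have h2 : w * p ^ 2 ≤ u * p ^ 2 := mul_le_mul_of_nonneg_right hw (by positivity)
      linarith
    · left
      apply m1
      have hw0 : 0 ≤ w := by linarith
      have h1 : w * p ^ 2 ≤ w * b ^ 2 := mul_le_mul_of_nonneg_left (by linarith) hw0
      have h2 : u * p ^ 2 ≤ w * p ^ 2 := mul_le_mul_of_nonneg_right hw.le (by positivity)
      linarith
  · have hw : 0 ≤ w := by
      rcases h with h | h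
      · exact absurd h (not_le.2 hu)
      · exact h
    left
    apply m1
    have h1 : 0 ≤ w * b ^ 2 := by positivity
    have h2 : u * p ^ 2 ≤ 0 := mul_nonpos_of_nonpos_of_nonneg hu.le (by positivity)
    linarith

theorem lhyp {p B C B' C' : ℝ} (hp : 1 < p) {d i : ℕ}
    (hk : ∀ m, 1 ≤ m → m + 1 ≤ 2 * d → 0 < B * p ^ m + C / p ^ m)
    (hl : ∀ m, 1 ≤ m → m ≤ d → 0 < B' * p ^ m + C' / p ^ m) (hi : 2 ≤ i) (hid : i + 1 ≤ d) :
    (B' * p ^ (i + 1) + C' / p ^ (i + 1) ≤ B' * p ^ (i - 1) + C' / p ^ (i - 1)) ∨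
    ((B' * p ^ i + C' / p ^ i) * (B * p ^ (d + 1 - i) + C / p ^ (d + 1 - i)) ≤
        (B' * p ^ 1 + C' / p ^ 1) * (B * p ^ d + C / p ^ d) ∨
      (B' * p ^ i + C' / p ^ i) * (B * p ^ (d + 1 - i) + C / p ^ (d + 1 - i)) ≤
        (B' * p ^ d + C' / p ^ d) * (B * p ^ 1 + C / p ^ 1)) ∨
    (0 < B ∧ C < 0 ∧ 0 < B' ∧ C' < 0) := by
  have hp0 : 0 < p := by linarith
  by_cases h : 0 ≤ B' * C ∨ 0 ≤ C' * B
  · right; left
    have ha : p ^ 2 ≤ p ^ i := pow_le_pow_right₀ hp.le hi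
    have hb : p ^ 2 ≤ p ^ (d + 1 - i) := pow_le_pow_right₀ hp.le (by omega)
    have hd : p ^ d = p ^ i * p ^ (d + 1 - i) / p := by
      rw [← pow_add, show i + (d + 1 - i) = d + 1 by omega, pow_succ]
      field_simp
    have := core_ineq (B := B) (C := C) (B' := B') (C' := C') hp ha hb h
    rw [pow_one, hd]
    exact this
  · push Not at h
    obtain ⟨h1, h2⟩ := h
    have k1 := hk 1 le_rfl (by omega)
    have l1 := hl 1 le_rfl (by omega)
    rw [pow_one] at k1 l1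
    rcases lt_or_ge 0 B' with hB' | hB'
    · right; right
      have hC : C < 0 := by
        by_contra hc
        push Not at hc
        have := mul_nonneg hB'.le hc
        linarith
      have hB : 0 < B := by
        by_contra hc
        push Not at hc
        have a1 : B * p ≤ 0 := mul_nonpos_of_nonpos_of_nonneg hc hp0.le
        have a2 : C / p < 0 := div_neg_of_neg_of_pos hC hp0
        linarith
      have hC' : C' < 0 := by
        by_contra hc
        push Not at hc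
        have := mul_nonneg hc hB.le
        linarith
      exact ⟨hB, hC, hB', hC'⟩
    · left
      have hB'' : B' < 0 := by
        rcases lt_or_eq_of_le hB' with h3 | h3
        · exact h3
        · rw [h3] at h1; simp at h1
      have hC' : 0 < C' := by
        by_contra hc
        push Not at hc
        have a1 : B' * p < 0 := mul_neg_of_neg_of_pos hB'' hp0
        have a2 : C' / p ≤ 0 := div_nonpos_of_nonpos_of_nonneg hc hp0.le
        linarith
      have hpw : p ^ (i - 1) ≤ p ^ (i + 1) := pow_le_pow_right₀ hp.le (by omega)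
      have a1 : B' * p ^ (i + 1) ≤ B' * p ^ (i - 1) := mul_le_mul_of_nonpos_left hpw hB''.le
      have a2 : C' / p ^ (i + 1) ≤ C' / p ^ (i - 1) :=
        div_le_div_of_nonneg_left hC'.le (by positivity) hpw
      linarith

theorem llin {b c b' c' : ℝ} {d i : ℕ}
    (_hk : ∀ m : ℕ, 1 ≤ m → m + 1 ≤ 2 * d → 0 < b + c * m)
    (_hl : ∀ m : ℕ, 1 ≤ m → m ≤ d → 0 < b' + c' * m) (hi : 2 ≤ i) (hid : i + 1 ≤ d) :
    (b' + c' * ((i + 1 : ℕ) : ℝ) ≤ b' + c' * ((i - 1 : ℕ) : ℝ)) ∨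
    ((b' + c' * (i : ℝ)) * (b + c * ((d + 1 - i : ℕ) : ℝ)) ≤ (b' + c' * ((1 : ℕ) : ℝ)) * (b + c * (d : ℝ)) ∨
      (b' + c' * (i : ℝ)) * (b + c * ((d + 1 - i : ℕ) : ℝ)) ≤ (b' + c' * (d : ℝ)) * (b + c * ((1 : ℕ) : ℝ))) ∨
    (0 < c ∧ 0 < c') := by
  have e1 : ((d + 1 - i : ℕ) : ℝ) = d + 1 - i := by
    rw [Nat.cast_sub (by omega)]; push_cast; ring
  have e2 : ((i - 1 : ℕ) : ℝ) = i - 1 := by
    rw [Nat.cast_sub (by omega)]; push_cast; ring
  have hi' : (2 : ℝ) ≤ i := by exact_mod_cast hi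
  have hid' : (i : ℝ) + 1 ≤ d := by exact_mod_cast hid
  rw [e1, e2]
  push_cast
  rcases lt_or_ge 0 (c * c') with h | h
  · rcases lt_or_ge 0 c with hc | hc
    · right; right
      exact ⟨hc, (pos_iff_pos_of_mul_pos h).1 hc⟩
    · left
      have : c' ≤ 0 := by
        by_contra hcon
        push Not at hcon
        have := mul_nonpos_of_nonpos_of_nonneg hc hcon.le
        linarith
      nlinarith
  · right; left
    have s1 : (b' + c' * 1) * (b + c * (d : ℝ)) - (b' + c' * (i : ℝ)) * (b + c * ((d : ℝ) + 1 - i))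
        = (i - 1) * (b' * c - c' * b + c' * c * (i - d)) := by ring
    have s2 : (b' + c' * (d : ℝ)) * (b + c * 1) - (b' + c' * (i : ℝ)) * (b + c * ((d : ℝ) + 1 - i))
        = (d - i) * (c' * b - b' * c + c' * c * (1 - i)) := by ring
    rcases le_or_gt 0 (b' * c - c' * b + c' * c * ((i : ℝ) - d)) with h1 | h1
    · left
      have := mul_nonneg (show (0 : ℝ) ≤ i - 1 by linarith) h1
      linarith
    · right
      have h2 : 0 ≤ c' * b - b' * c + c' * c * (1 - (i : ℝ)) := by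
        have h3 : 0 ≤ -(c * c') * ((d : ℝ) - 1) := mul_nonneg (by linarith) (by linarith)
        nlinarith
      have := mul_nonneg (show (0 : ℝ) ≤ d - i by linarith) h2
      linarith

/-- from the bound of `y` to the first ratio -/
theorem first_ratio {F y y1 yd : ℝ} (_hF : F < 0) (hy : 0 < y) (h : y ≤ y1 ∨ y ≤ yd)
    (h1 : y1 ≤ -(2 * F)) (hd : yd ≤ -(2 * F)) : |F + y| ≤ |F| := by
  rw [abs_add_le_iff]
  have : 2 * F + y ≤ 0 := by
    rcases h with h | h <;> linarith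
  exact mul_nonpos_of_nonneg_of_nonpos hy.le this

theorem first_ratio' {F y y1 yd : ℝ} (_hF : 0 < F) (hy : y < 0) (h : -y ≤ y1 ∨ -y ≤ yd)
    (h1 : y1 ≤ 2 * F) (hd : yd ≤ 2 * F) : |F + y| ≤ |F| := by
  rw [abs_add_le_iff]
  have : 0 ≤ 2 * F + y := by
    rcases h with h | h <;> linarith
  exact mul_nonpos_of_nonpos_of_nonneg hy.le this

/-- rows for positive `k`, generic in the type -/
theorem rows_pos {c : ℝ} {k l : ℕ → ℝ} (hl : Rc c l) {F1 : ℝ} {d : ℕ}
    (hs : ∀ m, 1 ≤ m → m ≤ d → 0 < S c m)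
    (hkp : ∀ m, 1 ≤ m → m + 1 ≤ 2 * d → 0 < k m)
    (hl0 : ∀ i, 1 ≤ i → i ≤ d → l i ≠ 0) (hF1 : F1 ≠ 0)
    (hB : Border d (Fs k l d F1) (Gs k l d F1))
    (h3 : ∀ l' : ℕ → ℝ, (l' = l ∨ l' = fun m => - l m) → (∀ m, 1 ≤ m → m ≤ d → 0 < l' m) →
      ∀ i, 2 ≤ i → i + 1 ≤ d → l' (i + 1) ≤ l' (i - 1) ∨
        (l' i * k (d + 1 - i) ≤ l' 1 * k d ∨ l' i * k (d + 1 - i) ≤ l' d * k 1)) :
    RowOK d k l F1 := by
  intro i hi hid
  have hke : 0 < k (d + 1 - i) := hkp _ (by omega) (by omega)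
  rcases border_sign hl (by omega) hs hkp hl0 hF1 hB with ⟨h1, h2, h4, h5⟩ | ⟨h1, h2, h4, h5⟩
  · have hli := h1 i (by omega) (by omega)
    rcases h3 l (Or.inl rfl) h1 i hi hid with h6 | h6
    · left
      exact mul_nonneg hli.le (by linarith)
    · right
      rw [Fs_zero]
      exact first_ratio h2 (mul_pos hli hke) h6 h4 h5
  · have hli := h1 i (by omega) (by omega)
    rcases h3 (fun m => - l m) (Or.inr rfl) (fun m a b => by have := h1 m a b; simpa using this) i hi hid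
      with h6 | h6
    · left
      exact mul_nonneg_of_nonpos_of_nonpos hli.le (by linarith)
    · right
      rw [Fs_zero]
      simp only [neg_mul] at h6
      exact first_ratio' h2 (mul_neg_of_neg_of_pos hli hke) h6 h4 h5

theorem grow_hyp {p B C : ℝ} (hp : 1 < p) (hB : 0 < B) (hC : C < 0) {k : ℕ → ℝ}
    (hk : ∀ m, k m = B * p ^ m + C / p ^ m) (h1 : 0 < k 1) :
    ∀ i : ℕ, |k (2 * i + 1)| < |k (2 * i + 3)| := by
  have hp0 : 0 < p := by linarith
  have hinc : ∀ m n : ℕ, m < n → k m < k n := by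
    intro m n hmn
    rw [hk, hk]
    have hpw : p ^ m < p ^ n := pow_lt_pow_right₀ hp hmn
    have a1 : B * p ^ m < B * p ^ n := mul_lt_mul_of_pos_left hpw hB
    have a2 : C / p ^ m ≤ C / p ^ n := by
      have := div_le_div_of_nonneg_left (show 0 ≤ -C by linarith) (show 0 < p ^ m by positivity) hpw.le
      rw [neg_div, neg_div] at this
      linarith
    linarith
  intro i
  have hp1 : 0 < k (2 * i + 1) := by
    rcases Nat.eq_zero_or_pos i with h | h
    · subst h; simpa using h1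
    · exact lt_trans h1 (hinc _ _ (by omega))
  have := hinc (2 * i + 1) (2 * i + 3) (by omega)
  rw [abs_of_pos hp1, abs_of_pos (lt_trans hp1 this)]
  exact this

theorem grow_lin {b c : ℝ} (hc : 0 < c) {k : ℕ → ℝ}
    (hk : ∀ m : ℕ, k m = b + c * m) (h1 : 0 < k 1) :
    ∀ i : ℕ, |k (2 * i + 1)| < |k (2 * i + 3)| := by
  intro i
  rw [hk] at h1
  have hi : (0 : ℝ) ≤ i := by positivity
  have e1 : k (2 * i + 1) = b + c * (2 * i + 1) := by rw [hk]; push_cast; ring
  have e3 : k (2 * i + 3) = b + c * (2 * i + 3) := by rw [hk]; push_cast; ring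
  have hp1 : 0 < b + c * (2 * i + 1) := by
    have := mul_nonneg hc.le hi
    push_cast at h1
    nlinarith
  rw [e1, e3, abs_of_pos hp1, abs_of_pos (by nlinarith)]
  nlinarith

/-- rows for positive `k` in the hyperbolic case -/
theorem rows_hyp_pos {p B C B' C' : ℝ} (hp : 1 < p) {k l : ℕ → ℝ}
    (hkf : ∀ m, k m = B * p ^ m + C / p ^ m) (hlf : ∀ m, l m = B' * p ^ m + C' / p ^ m)
    (hl : Rc (p + 1 / p) l) {F1 : ℝ} {d : ℕ}
    (hs : ∀ m, 1 ≤ m → m ≤ d → 0 < S (p + 1 / p) m)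
    (hkp : ∀ m, 1 ≤ m → m + 1 ≤ 2 * d → 0 < k m)
    (hl0 : ∀ i, 1 ≤ i → i ≤ d → l i ≠ 0) (hF1 : F1 ≠ 0)
    (hB : Border d (Fs k l d F1) (Gs k l d F1))
    (hno : ¬ (B * C < 0 ∧ B' * C' < 0 ∧ GG d k l)) : RowOK d k l F1 := by
  apply rows_pos hl hs hkp hl0 hF1 hB
  intro l' hl' hlp i hi hid
  have hkp' : ∀ m, 1 ≤ m → m + 1 ≤ 2 * d → 0 < B * p ^ m + C / p ^ m := by
    intro m a b; rw [← hkf]; exact hkp m a b
  rcases hl' with rfl | rfl
  · have hlp' : ∀ m, 1 ≤ m → m ≤ d → 0 < B' * p ^ m + C' / p ^ m := by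
      intro m a b; rw [← hlf]; exact hlp m a b
    rcases lhyp hp hkp' hlp' hi hid with h | h | h
    · left; rw [hlf, hlf]; exact h
    · right; rw [hlf i, hlf 1, hlf d, hkf, hkf, hkf]; exact h
    · exfalso
      apply hno
      obtain ⟨a1, a2, a3, a4⟩ := h
      refine ⟨mul_neg_of_pos_of_neg a1 a2, mul_neg_of_pos_of_neg a3 a4, ?_, ?_⟩
      · intro j _; exact grow_hyp hp a1 a2 hkf (hkp 1 le_rfl (by omega)) j
      · intro j _; exact grow_hyp hp a3 a4 hlf (hlp 1 le_rfl (by omega)) j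
  · have hlf' : ∀ m, - l m = (-B') * p ^ m + (-C') / p ^ m := by
      intro m; rw [hlf]; ring
    have hlp' : ∀ m, 1 ≤ m → m ≤ d → 0 < (-B') * p ^ m + (-C') / p ^ m := by
      intro m a b; rw [← hlf']; exact hlp m a b
    rcases lhyp hp hkp' hlp' hi hid with h | h | h
    · left
      show - l (i + 1) ≤ - l (i - 1)
      rw [hlf', hlf']; exact h
    · right
      show - l i * k (d + 1 - i) ≤ - l 1 * k d ∨ - l i * k (d + 1 - i) ≤ - l d * k 1
      rw [hlf' i, hlf' 1, hlf' d, hkf, hkf, hkf]; exact h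
    · exfalso
      apply hno
      obtain ⟨a1, a2, a3, a4⟩ := h
      refine ⟨mul_neg_of_pos_of_neg a1 a2, ?_, ?_, ?_⟩
      · have := mul_neg_of_pos_of_neg a3 a4
        have e : -B' * -C' = B' * C' := by ring
        rwa [e] at this
      · intro j _; exact grow_hyp hp a1 a2 hkf (hkp 1 le_rfl (by omega)) j
      · intro j _
        have := grow_hyp (k := fun m => - l m) hp a3 a4 hlf' (hlp 1 le_rfl (by omega)) j
        simpa using this

/-- rows for positive `k` in the linear case -/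
theorem rows_lin_pos {b c b' c' : ℝ} {k l : ℕ → ℝ}
    (hkf : ∀ m : ℕ, k m = b + c * m) (hlf : ∀ m : ℕ, l m = b' + c' * m)
    (hl : Rc 2 l) {F1 : ℝ} {d : ℕ}
    (hs : ∀ m, 1 ≤ m → m ≤ d → 0 < S 2 m)
    (hkp : ∀ m, 1 ≤ m → m + 1 ≤ 2 * d → 0 < k m)
    (hl0 : ∀ i, 1 ≤ i → i ≤ d → l i ≠ 0) (hF1 : F1 ≠ 0)
    (hB : Border d (Fs k l d F1) (Gs k l d F1))
    (hno : ¬ GG d k l) : RowOK d k l F1 := by
  apply rows_pos hl hs hkp hl0 hF1 hB
  intro l' hl' hlp i hi hid
  have hkp' : ∀ m : ℕ, 1 ≤ m → m + 1 ≤ 2 * d → 0 < b + c * m := by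
    intro m x y; rw [← hkf]; exact hkp m x y
  rcases hl' with rfl | rfl
  · have hlp' : ∀ m : ℕ, 1 ≤ m → m ≤ d → 0 < b' + c' * m := by
      intro m x y; rw [← hlf]; exact hlp m x y
    rcases llin hkp' hlp' hi hid with h | h | h
    · left; rw [hlf, hlf]; exact h
    · right; rw [hlf i, hlf 1, hlf d, hkf, hkf, hkf]; exact h
    · exfalso
      apply hno
      obtain ⟨a1, a2⟩ := h
      refine ⟨?_, ?_⟩
      · intro j _; exact grow_lin a1 hkf (hkp 1 le_rfl (by omega)) j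
      · intro j _; exact grow_lin a2 hlf (hlp 1 le_rfl (by omega)) j
  · have hlf' : ∀ m : ℕ, - l m = (-b') + (-c') * m := by
      intro m; rw [hlf]; ring
    have hlp' : ∀ m : ℕ, 1 ≤ m → m ≤ d → 0 < (-b') + (-c') * m := by
      intro m x y; rw [← hlf']; exact hlp m x y
    rcases llin hkp' hlp' hi hid with h | h | h
    · left
      show - l (i + 1) ≤ - l (i - 1)
      rw [hlf', hlf']; exact h
    · right
      show - l i * k (d + 1 - i) ≤ - l 1 * k d ∨ - l i * k (d + 1 - i) ≤ - l d * k 1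
      rw [hlf' i, hlf' 1, hlf' d, hkf, hkf, hkf]; exact h
    · exfalso
      apply hno
      obtain ⟨a1, a2⟩ := h
      refine ⟨?_, ?_⟩
      · intro j _; exact grow_lin a1 hkf (hkp 1 le_rfl (by omega)) j
      · intro j _
        have := grow_lin (k := fun m => - l m) a2 hlf' (hlp 1 le_rfl (by omega)) j
        simpa using this

theorem GG_neg {d : ℕ} {k l : ℕ → ℝ} (h : GG d (fun m => - k m) (fun m => - l m)) : GG d k l := by
  unfold GG at h ⊢
  simpa using h

theorem GG_swap {d : ℕ} {k l : ℕ → ℝ} (h : GG d k l) : GG d l k := ⟨h.2, h.1⟩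

theorem RowOK_of_neg {d : ℕ} {k l : ℕ → ℝ} {F1 : ℝ}
    (h : RowOK d (fun m => - k m) (fun m => - l m) F1) : RowOK d k l F1 := by
  intro i a b
  have := h i a b
  rw [Fs_neg, Gs_neg] at this
  have e : -l i * (-l (i - 1) - -l (i + 1)) = l i * (l (i - 1) - l (i + 1)) := by ring
  rwa [e] at this

theorem rows_hyp {p B C B' C' : ℝ} (hp : 1 < p) {k l : ℕ → ℝ}
    (hkf : ∀ m, k m = B * p ^ m + C / p ^ m) (hlf : ∀ m, l m = B' * p ^ m + C' / p ^ m)
    (hl : Rc (p + 1 / p) l) {F1 : ℝ} {d : ℕ}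
    (hs : ∀ m, 1 ≤ m → m ≤ d → 0 < S (p + 1 / p) m)
    (hkp : OneSign d k)
    (hl0 : ∀ i, 1 ≤ i → i ≤ d → l i ≠ 0) (hF1 : F1 ≠ 0)
    (hB : Border d (Fs k l d F1) (Gs k l d F1))
    (hno : ¬ (B * C < 0 ∧ B' * C' < 0 ∧ GG d k l)) : RowOK d k l F1 := by
  rcases hkp with h | h
  · exact rows_hyp_pos hp hkf hlf hl hs h hl0 hF1 hB hno
  · apply RowOK_of_neg
    refine rows_hyp_pos (B := -B) (C := -C) (B' := -B') (C' := -C') hp (fun m => by rw [hkf]; ring)
      (fun m => by rw [hlf]; ring) (Rc_neg hl) hs (fun m a b => by have := h m a b; simpa using this)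
      (fun i a b => by have := hl0 i a b; simpa using this) hF1 (by rw [Fs_neg, Gs_neg]; exact hB) ?_
    rintro ⟨a, b, g⟩
    apply hno
    refine ⟨by have e : -B * -C = B * C := by ring
               rwa [e] at a, by have e : -B' * -C' = B' * C' := by ring
                                rwa [e] at b, GG_neg g⟩

theorem rows_lin {b c b' c' : ℝ} {k l : ℕ → ℝ}
    (hkf : ∀ m : ℕ, k m = b + c * m) (hlf : ∀ m : ℕ, l m = b' + c' * m)
    (hl : Rc 2 l) {F1 : ℝ} {d : ℕ}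
    (hs : ∀ m, 1 ≤ m → m ≤ d → 0 < S 2 m)
    (hkp : OneSign d k)
    (hl0 : ∀ i, 1 ≤ i → i ≤ d → l i ≠ 0) (hF1 : F1 ≠ 0)
    (hB : Border d (Fs k l d F1) (Gs k l d F1))
    (hno : ¬ GG d k l) : RowOK d k l F1 := by
  rcases hkp with h | h
  · exact rows_lin_pos hkf hlf hl hs h hl0 hF1 hB hno
  · apply RowOK_of_neg
    refine rows_lin_pos (b := -b) (c := -c) (b' := -b') (c' := -c') (fun m => by rw [hkf]; ring)
      (fun m => by rw [hlf]; ring) (Rc_neg hl) hs (fun m a b => by have := h m a b; simpa using this)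
      (fun i a b => by have := hl0 i a b; simpa using this) hF1 (by rw [Fs_neg, Gs_neg]; exact hB) ?_
    intro g
    exact hno (GG_neg g)

end Pool.Agent.H92LS
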