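import Pool.Agent.H92LS.Arr

set_option autoImplicit false

namespace Pool.Agent.H92LS

open Finset

/-- `k` has one sign on `1..2d-1` and the windows have no hill -/
def Good (d : ℕ) (k l : ℕ → ℝ) : Prop :=
  ((∀ m, 1 ≤ m → m + 1 ≤ 2 * d → 0 < k m) ∨ (∀ m, 1 ≤ m → m + 1 ≤ 2 * d → k m < 0)) ∧
  ∀ F1, NoHill d (Fs k l d F1) (Gs k l d F1)

theorem crit1 {c : ℝ} {k l : ℕ → ℝ} (hk : Rc c k) (hl : Rc c l) (F1 : ℝ) {d : ℕ}
    (hs : ∀ m, 1 ≤ m → m ≤ d → 0 < S c m)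
    (hF : ∀ m, m + 1 ≤ d → Fs k l d F1 m ≠ 0)
    (hG : ∀ m, 1 ≤ m → m ≤ d → Gs k l d F1 m ≠ 0)
    (hN : Good d k l) :
    (∀ i j, i ≤ d → j ≤ d → |v c k l (Fs k l d F1) d 0 i j| ≤ 1) ↔
    (∀ J, J ≤ d → |T (Fs k l d F1) (Gs k l d F1) J J| ≤ 1 ∧
      |T (Fs k l d F1) (Gs k l d F1) d J| ≤ 1) := by
  rcases hN with ⟨h | h, h2⟩
  · exact core_iff hk hl F1 hs h hF hG (h2 F1)
  · have := core_iff (Rc_neg hk) (Rc_neg hl) F1 hs (d := d)
      (fun m a b => by have := h m a b; simpa using this)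
      (by rw [Fs_neg]; exact hF) (by rw [Gs_neg]; exact hG) (by rw [Fs_neg, Gs_neg]; exact h2 F1)
    rw [Fs_neg, Gs_neg] at this
    simpa only [v_neg] using this

theorem crit2 {c : ℝ} {k l : ℕ → ℝ} (hk : Rc c k) (hl : Rc c l) (F1 : ℝ) {d : ℕ} (hd : 1 ≤ d)
    (hs : ∀ m, 1 ≤ m → m ≤ d → 0 < S c m)
    (hF : ∀ m, m + 1 ≤ d → Fs k l d F1 m ≠ 0)
    (hG : ∀ m, 1 ≤ m → m ≤ d → Gs k l d F1 m ≠ 0)
    (hN : Good d k l ∨ Good d l k) :
    (∀ i j, i ≤ d → j ≤ d → |v c k l (Fs k l d F1) d 0 i j| ≤ 1) ↔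
    (∀ J, J ≤ d → |T (Fs k l d F1) (Gs k l d F1) J J| ≤ 1 ∧
      |T (Fs k l d F1) (Gs k l d F1) d J| ≤ 1) := by
  rcases hN with h | h
  · exact crit1 hk hl F1 hs hF hG h
  · have hsw := Fs_swap hk hl hd F1
    have := crit1 hl hk F1 hs (by rw [hsw]; exact hF)
      (fun m a b => by rw [Gs_swap k l F1 b]; exact hG _ (by omega) (by omega)) h
    rw [hsw] at this
    have e1 : ∀ J, J ≤ d → T (Fs k l d F1) (Gs l k d F1) J J = T (Fs k l d F1) (Gs k l d F1) d J := by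
      intro J hJ
      rw [T_diag, T_eq]
      congr 1
      apply prod_congr rfl
      intro m hm
      rw [mem_range] at hm
      rw [Gs_swap k l F1 (by omega)]
      congr 1
      omega
    have e2 : ∀ J, J ≤ d → T (Fs k l d F1) (Gs l k d F1) d J = T (Fs k l d F1) (Gs k l d F1) J J := by
      intro J hJ
      rw [T_diag, T_eq]
      congr 1
      apply prod_congr rfl
      intro m hm
      rw [mem_range] at hm
      rw [Gs_swap k l F1 (by omega)]
      congr 1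
      omega
    constructor
    · intro h1 J hJ
      have h2 := this.1 (fun i j hi hj => by rw [v_swap]; exact h1 j i hj hi) J hJ
      rw [e1 J hJ, e2 J hJ] at h2
      exact ⟨h2.2, h2.1⟩
    · intro h1 i j hi hj
      have h2 := this.2 (fun J hJ => by rw [e1 J hJ, e2 J hJ]; exact ⟨(h1 J hJ).2, (h1 J hJ).1⟩) j i hj hi
      rwa [v_swap] at h2

/-- from sequences to parameter arrays -/
theorem array_iff {c : ℝ} {k l : ℕ → ℝ} (hc : 2 ≤ c) (hk : Rc c k) (hl : Rc c l) {d : ℕ} (hd : 1 ≤ d)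
    {θ θs φ ϕ : ℕ → ℝ}
    (pa1 : ∀ i j, i ≤ d → j ≤ d → i ≠ j → θ i ≠ θ j ∧ θs i ≠ θs j)
    (pa2 : ∀ i, 1 ≤ i → i ≤ d → φ i ≠ 0 ∧ ϕ i ≠ 0)
    (pa3 : ∀ i, 1 ≤ i → i ≤ d → φ i =
      ϕ 1 * ∑ h ∈ range i, (θ h - θ (d - h)) / (θ 0 - θ d) + (θs i - θs 0) * (θ (i - 1) - θ d))
    (pa4 : ∀ i, 1 ≤ i → i ≤ d → ϕ i =
      φ 1 * ∑ h ∈ range i, (θ h - θ (d - h)) / (θ 0 - θ d) + (θs i - θs 0) * (θ (d - i + 1) - θ 0))
    (hx : ∀ i, i + 1 ≤ d → θ (i + 1) - θ i = k (2 * i + 1))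
    (hy : ∀ i, i + 1 ≤ d → θs (i + 1) - θs i = l (2 * i + 1))
    (hN : Good d k l ∨ Good d l k) :
    (∀ i j, i ≤ d → j ≤ d → |∑ n ∈ range (i + 1), (∏ h ∈ range n, (θ j - θ h)) *
        (∏ h ∈ range n, (θs i - θs h)) / ∏ h ∈ range n, φ (h + 1)| ≤ 1) ↔
    (∀ i, 1 ≤ i → i ≤ d → |∏ h ∈ range i, ϕ (h + 1)| ≤ |∏ h ∈ range i, φ (h + 1)| ∧
      |∏ h ∈ range i, ϕ (d - h)| ≤ |∏ h ∈ range i, φ (h + 1)|) := by
  have hs : ∀ m, 1 ≤ m → m ≤ d → 0 < S c m := by
    intro m h1 _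
    have := (S_pos hc (m - 1)).1
    rwa [show m - 1 + 1 = m by omega] at this
  have hxx := sum_form' hk hx
  have hyy := sum_form' hl hy
  have hSd : S c d ≠ 0 := (hs d hd le_rfl).ne'
  have hkd : k d ≠ 0 := by
    intro h0
    have h1 := hxx 0 d (Nat.zero_le _) le_rfl
    simp only [Nat.sub_zero, add_zero] at h1
    rw [h0, mul_zero] at h1
    exact (pa1 d 0 le_rfl (Nat.zero_le _) (by omega)).1 (by linarith)
  have hth := theta_sum hxx hSd hkd
  set F1 := ϕ 1 / S c d - l 1 * k d with hF1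
  have hφ : ∀ m, m + 1 ≤ d → φ (m + 1) = S c (m + 1) * S c (d - m) * Fs k l d F1 m := by
    intro m hm
    rw [pa3 (m + 1) (by omega) hm, hth (m + 1) hm]
    have h1 := hyy 0 (m + 1) (Nat.zero_le _) hm
    simp only [Nat.sub_zero, add_zero] at h1
    have h2 := hxx m d (by omega) le_rfl
    rw [h1, show m + 1 - 1 = m by omega, show d + 1 - (m + 1) = d - m by omega,
      show θ m - θ d = - (S c (d - m) * k (d + m)) by linarith]
    unfold Fs
    rw [hF1]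
    field_simp
    ring
  have hφ1 : φ 1 = S c d * F1 := by
    have := hφ 0 hd
    rw [Fs_zero] at this
    simpa [S_one] using this
  have hϕ : ∀ m, 1 ≤ m → m ≤ d → ϕ m = S c m * S c (d + 1 - m) * Gs k l d F1 m := by
    intro m h1 hm
    rw [pa4 m h1 hm, hth m hm, hφ1]
    have h1 := hyy 0 m (Nat.zero_le _) hm
    simp only [Nat.sub_zero, add_zero] at h1
    have h2 := hxx 0 (d - m + 1) (Nat.zero_le _) (by omega)
    simp only [Nat.sub_zero, add_zero] at h2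
    rw [h1, h2, show d - m + 1 = d + 1 - m by omega]
    unfold Gs
    field_simp
  have hF : ∀ m, m + 1 ≤ d → Fs k l d F1 m ≠ 0 := by
    intro m hm h0
    have := hφ m hm
    rw [h0, mul_zero] at this
    exact (pa2 (m + 1) (by omega) hm).1 this
  have hG : ∀ m, 1 ≤ m → m ≤ d → Gs k l d F1 m ≠ 0 := by
    intro m h1 hm h0
    have := hϕ m h1 hm
    rw [h0, mul_zero] at this
    exact (pa2 m h1 hm).2 this
  have hu : ∀ i j, i ≤ d → j ≤ d → ∑ n ∈ range (i + 1), (∏ h ∈ range n, (θ j - θ h)) *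
        (∏ h ∈ range n, (θs i - θs h)) / ∏ h ∈ range n, φ (h + 1) = v c k l (Fs k l d F1) d 0 i j := by
    intro i j hi hj
    unfold v
    apply sum_congr rfl
    intro n hn
    rw [mem_range] at hn
    rw [← prod_mul_distrib, ← prod_div_distrib]
    by_cases hnj : n ≤ j
    · apply prod_congr rfl
      intro m hm
      rw [mem_range] at hm
      rw [hxx m j (by omega) hj, hyy m i (by omega) hi, hφ m (by omega)]
      simp only [add_zero]
      congr 1 <;> ring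
    · push Not at hnj
      rw [prod_eq_zero (mem_range.2 hnj) (by simp), prod_eq_zero (mem_range.2 hnj) (by simp [S_zero])]
  have hmain := crit2 hk hl F1 hd hs hF hG hN
  have hP : ∀ J, J ≤ d → 0 < ∏ m ∈ range J, (S c (m + 1) * S c (d - m)) := by
    intro J hJ
    apply prod_pos
    intro m hm
    rw [mem_range] at hm
    exact mul_pos (hs _ (by omega) (by omega)) (hs _ (by omega) (by omega))
  have hFp : ∀ J, J ≤ d → 0 < |∏ m ∈ range J, Fs k l d F1 m| := by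
    intro J hJ
    rw [abs_pos, prod_ne_zero_iff]
    intro m hm
    rw [mem_range] at hm
    exact hF m (by omega)
  have q1 : ∀ J, J ≤ d → ∏ h ∈ range J, φ (h + 1)
      = (∏ m ∈ range J, (S c (m + 1) * S c (d - m))) * ∏ m ∈ range J, Fs k l d F1 m := by
    intro J hJ
    rw [← prod_mul_distrib]
    apply prod_congr rfl
    intro m hm
    rw [mem_range] at hm
    exact hφ m (by omega)
  have q2 : ∀ J, J ≤ d → ∏ h ∈ range J, ϕ (h + 1)
      = (∏ m ∈ range J, (S c (m + 1) * S c (d - m))) * ∏ m ∈ range J, Gs k l d F1 (m + 1) := by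
    intro J hJ
    rw [← prod_mul_distrib]
    apply prod_congr rfl
    intro m hm
    rw [mem_range] at hm
    rw [hϕ (m + 1) (by omega) (by omega), show d + 1 - (m + 1) = d - m by omega]
  have q3 : ∀ J, J ≤ d → ∏ h ∈ range J, ϕ (d - h)
      = (∏ m ∈ range J, (S c (m + 1) * S c (d - m))) * ∏ m ∈ range J, Gs k l d F1 (d - m) := by
    intro J hJ
    rw [← prod_mul_distrib]
    apply prod_congr rfl
    intro m hm
    rw [mem_range] at hm
    rw [hϕ (d - m) (by omega) (by omega), show d + 1 - (d - m) = m + 1 by omega]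
    ring
  have t1 : ∀ J, J ≤ d → (|T (Fs k l d F1) (Gs k l d F1) J J| ≤ 1 ↔
      |∏ h ∈ range J, ϕ (h + 1)| ≤ |∏ h ∈ range J, φ (h + 1)|) := by
    intro J hJ
    rw [T_diag, abs_div, div_le_one (hFp J hJ), q1 J hJ, q2 J hJ, abs_mul, abs_mul,
      abs_of_pos (hP J hJ)]
    exact (mul_le_mul_iff_right₀ (hP J hJ)).symm
  have t2 : ∀ J, J ≤ d → (|T (Fs k l d F1) (Gs k l d F1) d J| ≤ 1 ↔
      |∏ h ∈ range J, ϕ (d - h)| ≤ |∏ h ∈ range J, φ (h + 1)|) := by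
    intro J hJ
    rw [T_eq, abs_div, div_le_one (hFp J hJ), q1 J hJ, q3 J hJ, abs_mul, abs_mul,
      abs_of_pos (hP J hJ)]
    exact (mul_le_mul_iff_right₀ (hP J hJ)).symm
  constructor
  · intro h i h1 hi
    have := hmain.1 (fun i j hi hj => by rw [← hu i j hi hj]; exact h i j hi hj) i hi
    exact ⟨(t1 i hi).1 this.1, (t2 i hi).1 this.2⟩
  · intro h i j hi hj
    rw [hu i j hi hj]
    refine hmain.2 (fun J hJ => ?_) i j hi hj
    rcases Nat.eq_zero_or_pos J with h0 | h0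
    · subst h0; simp [T_zero]
    · exact ⟨(t1 J hJ).2 (h J h0 hJ).1, (t2 J hJ).2 (h J h0 hJ).2⟩

end Pool.Agent.H92LS
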