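import Pool.Agent.H92LS.Arr

set_option autoImplicit false

namespace Pool.Agent.H92LS

open Finset

/-- the sums `F_m + G_{i-m}` along a row, with `i = m + t + 2`, `d = i + b` -/
theorem FGsum {c : ℝ} {k l : ℕ → ℝ} (hk : Rc c k) (hl : Rc c l) (F1 : ℝ) (m t b : ℕ) :
    (Fs k l (m + t + 2 + b) F1 (m + 1) + Gs k l (m + t + 2 + b) F1 (t + 1))
      - (Fs k l (m + t + 2 + b) F1 m + Gs k l (m + t + 2 + b) F1 (t + 2))
      = k (2 * m + 2 + b) * (l (m + t + 1) - l (m + t + 3)) := by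
  unfold Fs Gs
  have h1 := U0 hk hl (m + 1) (m + t + 2 + b + m)
  have h2 := U0 hk hl (m + t + 2) (2 * m + 1 + b)
  have h3 := CAS hk hl (t + 1) (m + 1 + b) 1 m
  rw [show m + 1 + (m + t + 2 + b + m) = m + t + 2 + (2 * m + 1 + b) by ring] at h1
  rw [show m + t + 2 + b + 1 - (t + 1) = m + 1 + b + 1 by omega,
    show m + t + 2 + b + 1 - (t + 2) = m + 1 + b by omega]
  rw [show t + 1 + m = m + t + 1 by ring, show m + 1 + b + m + 1 = 2 * m + 2 + b by ring,
    show m + t + 1 + 1 = m + t + 2 by ring, show m + 1 + b + m = 2 * m + 1 + b by ring,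
    show t + 1 + 1 = t + 2 by ring] at h3
  rw [show m + t + 2 + 1 = m + t + 3 by ring, show 2 * m + 1 + b + 1 = 2 * m + 2 + b by ring] at h2
  rw [show m + t + 2 + b + (m + 1) = m + t + 2 + b + m + 1 by ring]
  linear_combination -h1 + h2 + h3

/-- a row in its valley form: once the ratios exceed one they stay there -/
theorem step_up {c : ℝ} {k l : ℕ → ℝ} (hk : Rc c k) (hl : Rc c l) (F1 : ℝ) {d i m : ℕ}
    (hkp : ∀ m, 1 ≤ m → m + 1 ≤ 2 * d → 0 < k m) (hi : i ≤ d) (hm : m + 2 ≤ i) (hli : l i ≠ 0)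
    (hC : 0 ≤ l i * (l (i - 1) - l (i + 1)))
    (h : |Fs k l d F1 m| ≤ |Gs k l d F1 (i - m)|) :
    |Fs k l d F1 (m + 1)| ≤ |Gs k l d F1 (i - (m + 1))| := by
  obtain ⟨t, rfl⟩ : ∃ t, i = m + t + 2 := ⟨i - m - 2, by omega⟩
  obtain ⟨b, rfl⟩ : ∃ b, d = m + t + 2 + b := ⟨d - (m + t + 2), by omega⟩
  have e1 := FG hk hl F1 m (t + 1) b
  have e2 := FG hk hl F1 (m + 1) t b
  have e3 := FGsum hk hl F1 m t b
  rw [show m + (t + 1) + 1 + b = m + t + 2 + b by ring, show t + 1 + 1 = t + 2 by ring,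
    show m + (t + 1) + 1 = m + t + 2 by ring] at e1
  rw [show m + 1 + t + 1 + b = m + t + 2 + b by ring, show m + 1 + t + 1 = m + t + 2 by ring,
    show 2 * (m + 1) + 1 + b = 2 * m + 3 + b by ring] at e2
  rw [show m + t + 2 - m = t + 2 by omega] at h
  rw [show m + t + 2 - (m + 1) = t + 1 by omega]
  rw [show m + t + 2 - 1 = m + t + 1 by omega, show m + t + 2 + 1 = m + t + 3 by ring] at hC
  have k1 : 0 < k (2 * m + 1 + b) := hkp _ (by omega) (by omega)
  have k2 : 0 < k (2 * m + 2 + b) := hkp _ (by omega) (by omega)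
  have k3 : 0 < k (2 * m + 3 + b) := hkp _ (by omega) (by omega)
  set f0 := Fs k l (m + t + 2 + b) F1 m
  set f1 := Fs k l (m + t + 2 + b) F1 (m + 1)
  set g0 := Gs k l (m + t + 2 + b) F1 (t + 2)
  set g1 := Gs k l (m + t + 2 + b) F1 (t + 1)
  set L := l (m + t + 2)
  rw [← sq_le_sq] at h ⊢
  -- (f0 - g0)(f0+g0) ≤ 0, f0 - g0 = - L k1
  have h1 : 0 ≤ L * (f0 + g0) := by
    have : (f0 - g0) * (f0 + g0) ≤ 0 := by nlinarith
    rw [e1] at this
    by_contra hc
    push Not at hc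
    have := mul_neg_of_neg_of_pos hc k1
    nlinarith
  have h2 : 0 ≤ L * (f1 + g1) := by
    have : L * (f1 + g1) - L * (f0 + g0) = k (2 * m + 2 + b) * (L * (l (m + t + 1) - l (m + t + 3))) := by
      linear_combination L * e3
    have h3 := mul_nonneg k2.le hC
    linarith
  have h3 : (f1 - g1) * (f1 + g1) ≤ 0 := by
    rw [e2]
    have := mul_nonneg k3.le h2
    nlinarith
  nlinarith

/-- a row in its hill form: once the ratios are at most one they stay there -/
theorem step_dn {c : ℝ} {k l : ℕ → ℝ} (hk : Rc c k) (hl : Rc c l) (F1 : ℝ) {d i m : ℕ}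
    (hkp : ∀ m, 1 ≤ m → m + 1 ≤ 2 * d → 0 < k m) (hi : i ≤ d) (hm : m + 2 ≤ i)
    (hC : l i * (l (i - 1) - l (i + 1)) ≤ 0)
    (h : |Gs k l d F1 (i - m)| ≤ |Fs k l d F1 m|) :
    |Gs k l d F1 (i - (m + 1))| ≤ |Fs k l d F1 (m + 1)| := by
  obtain ⟨t, rfl⟩ : ∃ t, i = m + t + 2 := ⟨i - m - 2, by omega⟩
  obtain ⟨b, rfl⟩ : ∃ b, d = m + t + 2 + b := ⟨d - (m + t + 2), by omega⟩
  have e1 := FG hk hl F1 m (t + 1) b
  have e2 := FG hk hl F1 (m + 1) t b
  have e3 := FGsum hk hl F1 m t b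
  rw [show m + (t + 1) + 1 + b = m + t + 2 + b by ring, show t + 1 + 1 = t + 2 by ring,
    show m + (t + 1) + 1 = m + t + 2 by ring] at e1
  rw [show m + 1 + t + 1 + b = m + t + 2 + b by ring, show m + 1 + t + 1 = m + t + 2 by ring,
    show 2 * (m + 1) + 1 + b = 2 * m + 3 + b by ring] at e2
  rw [show m + t + 2 - m = t + 2 by omega] at h
  rw [show m + t + 2 - (m + 1) = t + 1 by omega]
  rw [show m + t + 2 - 1 = m + t + 1 by omega, show m + t + 2 + 1 = m + t + 3 by ring] at hC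
  have k1 : 0 < k (2 * m + 1 + b) := hkp _ (by omega) (by omega)
  have k2 : 0 < k (2 * m + 2 + b) := hkp _ (by omega) (by omega)
  have k3 : 0 < k (2 * m + 3 + b) := hkp _ (by omega) (by omega)
  set f0 := Fs k l (m + t + 2 + b) F1 m
  set f1 := Fs k l (m + t + 2 + b) F1 (m + 1)
  set g0 := Gs k l (m + t + 2 + b) F1 (t + 2)
  set g1 := Gs k l (m + t + 2 + b) F1 (t + 1)
  set L := l (m + t + 2)
  rw [← sq_le_sq] at h ⊢
  have h1 : L * (f0 + g0) ≤ 0 := by
    have : 0 ≤ (f0 - g0) * (f0 + g0) := by nlinarith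
    rw [e1] at this
    by_contra hc
    push Not at hc
    have := mul_pos hc k1
    nlinarith
  have h2 : L * (f1 + g1) ≤ 0 := by
    have : L * (f1 + g1) - L * (f0 + g0) = k (2 * m + 2 + b) * (L * (l (m + t + 1) - l (m + t + 3))) := by
      linear_combination L * e3
    have h3 := mul_nonpos_of_nonneg_of_nonpos k2.le hC
    linarith
  have h3 : 0 ≤ (f1 - g1) * (f1 + g1) := by
    rw [e2]
    have := mul_nonpos_of_nonneg_of_nonpos k3.le h2
    nlinarith
  nlinarith

theorem T_le_one {F G : ℕ → ℝ} {i : ℕ} :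
    ∀ J, (∀ m, m < J → F m ≠ 0) → (∀ m, m < J → |G (i - m)| ≤ |F m|) → |T F G i J| ≤ 1 := by
  intro J
  induction J with
  | zero => intro _ _; rw [T_zero]; simp
  | succ J ih =>
    intro hF h
    rw [T_succ, abs_mul, abs_div]
    have h1 := ih (fun m hm => hF m (by omega)) (fun m hm => h m (by omega))
    have h2 : |G (i - J)| / |F J| ≤ 1 := (div_le_one (abs_pos.2 (hF J (by omega)))).2 (h J (by omega))
    exact mul_le_one₀ h1 (by positivity) h2

theorem T_mono {F G : ℕ → ℝ} {i J : ℕ} :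
    ∀ e, (∀ m, m < J + e → F m ≠ 0) → (∀ m, J ≤ m → m < J + e → |F m| ≤ |G (i - m)|) →
      |T F G i J| ≤ |T F G i (J + e)| := by
  intro e
  induction e with
  | zero => intro _ _; exact le_rfl
  | succ e ih =>
    intro hF h
    refine le_trans (ih (fun m hm => hF m (by omega)) (fun m h1 h2 => h m h1 (by omega))) ?_
    rw [show J + (e + 1) = J + e + 1 by ring, T_succ, abs_mul, abs_div]
    have h2 : 1 ≤ |G (i - (J + e))| / |F (J + e)| :=
      (one_le_div (abs_pos.2 (hF _ (by omega)))).2 (h _ (by omega) (by omega))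
    exact le_mul_of_one_le_right (abs_nonneg _) h2

/-- a row is bounded by one and its last entry, if it has the valley form -/
theorem row_valley {c : ℝ} {k l : ℕ → ℝ} (hk : Rc c k) (hl : Rc c l) (F1 : ℝ) {d i : ℕ}
    (hkp : ∀ m, 1 ≤ m → m + 1 ≤ 2 * d → 0 < k m) (hi : i ≤ d) (hli : l i ≠ 0)
    (hF : ∀ m, m + 1 ≤ d → Fs k l d F1 m ≠ 0)
    (hC : 0 ≤ l i * (l (i - 1) - l (i + 1)))
    (hT : |T (Fs k l d F1) (Gs k l d F1) i i| ≤ 1) :
    ∀ J, J ≤ i → |T (Fs k l d F1) (Gs k l d F1) i J| ≤ 1 := by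
  intro J hJ
  by_cases hex : ∃ m, m < J ∧ |Fs k l d F1 m| < |Gs k l d F1 (i - m)|
  · obtain ⟨m, hm, hlt⟩ := hex
    have hall : ∀ e, m + e < i → |Fs k l d F1 (m + e)| ≤ |Gs k l d F1 (i - (m + e))| := by
      intro e
      induction e with
      | zero => intro _; exact hlt.le
      | succ e ih =>
        intro he
        have := step_up hk hl F1 hkp hi (m := m + e) (by omega) hli hC (ih (by omega))
        exact this
    have := T_mono (F := Fs k l d F1) (G := Gs k l d F1) (i := i) (J := J) (i - J)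
      (fun m' hm' => hF m' (by omega))
      (fun m' h1 h2 => by
        have := hall (m' - m) (by omega)
        rwa [show m + (m' - m) = m' by omega] at this)
    rw [show J + (i - J) = i by omega] at this
    exact le_trans this hT
  · push Not at hex
    exact T_le_one J (fun m hm => hF m (by omega)) (fun m hm => hex m hm)

/-- a row in hill form is bounded by one if its first ratio is -/
theorem row_hill {c : ℝ} {k l : ℕ → ℝ} (hk : Rc c k) (hl : Rc c l) (F1 : ℝ) {d i : ℕ}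
    (hkp : ∀ m, 1 ≤ m → m + 1 ≤ 2 * d → 0 < k m) (hi : i ≤ d)
    (hF : ∀ m, m + 1 ≤ d → Fs k l d F1 m ≠ 0)
    (hC : l i * (l (i - 1) - l (i + 1)) ≤ 0)
    (hG : |Gs k l d F1 i| ≤ |Fs k l d F1 0|) :
    ∀ J, J ≤ i → |T (Fs k l d F1) (Gs k l d F1) i J| ≤ 1 := by
  have hall : ∀ m, m < i → |Gs k l d F1 (i - m)| ≤ |Fs k l d F1 m| := by
    intro m
    induction m with
    | zero => intro _; exact hG
    | succ m ih =>
      intro hm
      exact step_dn hk hl F1 hkp hi (by omega) hC (ih (by omega))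
  intro J hJ
  exact T_le_one J (fun m hm => hF m (by omega)) (fun m hm => hall m (by omega))

end Pool.Agent.H92LS
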