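import Mathlib

set_option autoImplicit false

namespace Pool.Agent.H92LS

open Finset

/-- The sequence `0, 1, c, c^2 - 1, ...` with `S (n+2) = c S (n+1) - S n`. -/
def S (c : ℝ) : ℕ → ℝ
  | 0 => 0
  | 1 => 1
  | (n + 2) => c * S c (n + 1) - S c n

/-- Sequences with `k (m+2) = c k (m+1) - k m`. -/
def Rc (c : ℝ) (k : ℕ → ℝ) : Prop := ∀ m, k (m + 2) = c * k (m + 1) - k m

theorem S_zero (c : ℝ) : S c 0 = 0 := rfl
theorem S_one (c : ℝ) : S c 1 = 1 := rfl
theorem S_rec (c : ℝ) (n : ℕ) : S c (n + 2) = c * S c (n + 1) - S c n := rfl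

theorem S_Rc (c : ℝ) : Rc c (S c) := fun m => S_rec c m

theorem PL1 {c : ℝ} {k : ℕ → ℝ} (hk : Rc c k) (m : ℕ) :
    ∀ x : ℕ, S c (x + 1) * k (m + x) = S c x * k (m + x + 1) + k m := by
  intro x
  induction x with
  | zero => simp [S_zero, S_one]
  | succ x ih =>
    have h1 := S_rec c x
    have h2 := hk (m + x)
    have e1 : m + (x + 1) = m + x + 1 := by ring
    have e2 : m + (x + 1) + 1 = m + x + 2 := by ring
    rw [e1, show m + x + 1 + 1 = m + x + 2 by ring, show x + 1 + 1 = x + 2 by ring, h1, h2]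
    linear_combination ih

theorem PL {c : ℝ} {k : ℕ → ℝ} (hk : Rc c k) (x y m : ℕ) :
    S c (x + y) * k (m + x) = S c x * k (m + x + y) + S c y * k m := by
  induction y using Nat.twoStepInduction with
  | zero => simp [S_zero]
  | one => rw [PL1 hk m x, S_one]; ring
  | more y ih1 ih2 =>
    have h1 := S_rec c (x + y)
    have h2 := hk (m + x + y)
    have h3 := S_rec c y
    rw [show x + (y + 2) = x + y + 2 by ring, h1, show m + x + (y + 2) = m + x + y + 2 by ring,
      h2, h3]
    rw [show x + (y + 1) = x + y + 1 by ring, show m + x + (y + 1) = m + x + y + 1 by ring] at ih2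
    linear_combination c * ih2 - ih1

/-- The sum-index sequence attached to two sequences. -/
def V (k l : ℕ → ℝ) (m : ℕ) : ℝ := l 1 * k (m + 1) - l 0 * k m

theorem V_Rc {c : ℝ} {k : ℕ → ℝ} (l : ℕ → ℝ) (hk : Rc c k) : Rc c (V k l) := by
  intro m
  unfold V
  have h1 := hk m
  have h2 := hk (m + 1)
  rw [show m + 2 + 1 = m + 1 + 2 by ring, h2, h1]
  ring

theorem U0 {c : ℝ} {k l : ℕ → ℝ} (hk : Rc c k) (hl : Rc c l) (a : ℕ) :
    ∀ b : ℕ, l (a + 1) * k (b + 1) - l a * k b = V k l (a + b) := by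
  induction a with
  | zero => intro b; simp [V]
  | succ a ih =>
    intro b
    have h := ih (b + 1)
    have h1 := hl a
    have h2 := hk b
    rw [show a + 1 + 1 = a + 2 by ring, h1, show a + 1 + b = a + (b + 1) by ring, ← h,
      show b + 1 + 1 = b + 2 by ring, h2]
    ring

theorem U1 {c : ℝ} {k l : ℕ → ℝ} (hk : Rc c k) (hl : Rc c l) (x : ℕ) :
    ∀ a b : ℕ, l (a + (x + 1)) * k (b + (x + 1)) - l a * k b = S c (x + 1) * V k l (a + b + x) := by
  induction x with
  | zero =>
    intro a b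
    rw [show (0 : ℕ) + 1 = 1 from rfl, S_one, U0 hk hl a b]
    simp
  | succ x ih =>
    intro a b
    have h := ih (a + 1) (b + 1)
    have h0 := U0 hk hl a b
    have hp := PL (V_Rc l hk) (x + 1) 1 (a + b)
    rw [show a + 1 + (x + 1) = a + (x + 1 + 1) by ring, show b + 1 + (x + 1) = b + (x + 1 + 1) by ring,
      show a + 1 + (b + 1) + x = a + b + (x + 1) + 1 by ring] at h
    rw [S_one] at hp
    linear_combination h + h0 - hp

theorem CAS1 {c : ℝ} {k l : ℕ → ℝ} (hk : Rc c k) (hl : Rc c l) (a b x : ℕ) :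
    l a * k (b + x) - l (a + x) * k b = l (a + 1) * k (b + 1 + x) - l (a + 1 + x) * k (b + 1) := by
  have h1 := U0 hk hl a (b + x)
  have h2 := U0 hk hl (a + x) b
  rw [show a + (b + x) = a + b + x by ring, show b + x + 1 = b + 1 + x by ring] at h1
  rw [show a + x + b = a + b + x by ring, show a + x + 1 = a + 1 + x by ring] at h2
  linear_combination h2 - h1

theorem CAS {c : ℝ} {k l : ℕ → ℝ} (hk : Rc c k) (hl : Rc c l) (a b x i : ℕ) :
    l a * k (b + x) - l (a + x) * k b = l (a + i) * k (b + i + x) - l (a + i + x) * k (b + i) := by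
  induction i with
  | zero => simp
  | succ i ih =>
    rw [ih, CAS1 hk hl (a + i) (b + i) x]
    simp only [add_assoc]

end Pool.Agent.H92LS
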