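import Pool.Agent.H92LS.Main

set_option autoImplicit false

namespace Pool.Agent.H92LS

open Finset

/-- hyperbolic sequences -/
noncomputable def hyp (p b c : ℝ) (m : ℕ) : ℝ := (p - 1 / p) * b * p ^ m + (-((p - 1 / p) * c)) / p ^ m

theorem hyp_Rc {p : ℝ} (hp : 1 < p) (b c : ℝ) : Rc (p + 1 / p) (hyp p b c) := by
  intro m
  have hp0 : 0 < p := by linarith
  unfold hyp
  have : p ^ m ≠ 0 := by positivity
  rw [pow_succ p (m + 1), pow_succ p m]
  field_simp
  ring

theorem hyp_step {p : ℝ} (hp : 1 < p) (a b c : ℝ) {d : ℕ} {x : ℕ → ℝ}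
    (hx : ∀ i, i ≤ d → x i = a + b * (p ^ 2) ^ i + c / (p ^ 2) ^ i) :
    ∀ i, i + 1 ≤ d → x (i + 1) - x i = hyp p b c (2 * i + 1) := by
  intro i hi
  have hp0 : 0 < p := by linarith
  rw [hx i (by omega), hx (i + 1) hi]
  unfold hyp
  rw [pow_succ (p ^ 2) i, pow_succ p (2 * i), pow_mul]
  have : (p ^ 2) ^ i ≠ 0 := by positivity
  field_simp
  ring

theorem hyp_neg (p b c : ℝ) (m : ℕ) : - hyp p b c m = hyp p (-b) (-c) m := by
  unfold hyp; ring

theorem rec3 {c : ℝ} {k : ℕ → ℝ} (hk : Rc c k) {d : ℕ} {x : ℕ → ℝ}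
    (hx : ∀ i, i + 1 ≤ d → x (i + 1) - x i = k (2 * i + 1)) :
    ∀ i, i + 3 ≤ d → x i - x (i + 3) = (c ^ 2 - 1) * (x (i + 1) - x (i + 2)) := by
  intro i hi
  have h0 := hx i (by omega)
  have h1 := hx (i + 1) (by omega)
  have h2 := hx (i + 2) (by omega)
  rw [show 2 * (i + 1) + 1 = 2 * i + 3 by ring, show i + 1 + 1 = i + 2 by ring] at h1
  rw [show 2 * (i + 2) + 1 = 2 * i + 5 by ring, show i + 2 + 1 = i + 3 by ring] at h2
  have r1 := hk (2 * i + 1)
  have r2 := hk (2 * i + 2)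
  have r3 := hk (2 * i + 3)
  rw [show 2 * i + 1 + 2 = 2 * i + 3 by ring, show 2 * i + 1 + 1 = 2 * i + 2 by ring] at r1
  rw [show 2 * i + 2 + 2 = 2 * i + 4 by ring, show 2 * i + 2 + 1 = 2 * i + 3 by ring] at r2
  rw [show 2 * i + 3 + 2 = 2 * i + 5 by ring, show 2 * i + 3 + 1 = 2 * i + 4 by ring] at r3
  linear_combination -h0 - h2 + (c ^ 2 - 2) * h1 - r3 - c * r2 - r1

/-- transfer of the recurrence by (PA5) -/
theorem rec3_transfer {c : ℝ} {d : ℕ} {x y : ℕ → ℝ}
    (hne : ∀ i j, i ≤ d → j ≤ d → i ≠ j → x i ≠ x j ∧ y i ≠ y j)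
    (pa5 : ∀ i j, 2 ≤ i → i + 1 ≤ d → 2 ≤ j → j + 1 ≤ d →
      (x (i - 2) - x (i + 1)) / (x (i - 1) - x i) = (y (j - 2) - y (j + 1)) / (y (j - 1) - y j))
    (hx : ∀ i, i + 3 ≤ d → x i - x (i + 3) = (c ^ 2 - 1) * (x (i + 1) - x (i + 2))) :
    ∀ i, i + 3 ≤ d → y i - y (i + 3) = (c ^ 2 - 1) * (y (i + 1) - y (i + 2)) := by
  intro i hi
  have h := pa5 (i + 2) (i + 2) (by omega) (by omega) (by omega) (by omega)
  rw [show i + 2 - 2 = i by omega, show i + 2 - 1 = i + 1 by omega, show i + 2 + 1 = i + 3 by omega,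
    hx i hi] at h
  have e1 : x (i + 1) - x (i + 2) ≠ 0 :=
    sub_ne_zero.2 (hne (i + 1) (i + 2) (by omega) (by omega) (by omega)).1
  have e2 : y (i + 1) - y (i + 2) ≠ 0 :=
    sub_ne_zero.2 (hne (i + 1) (i + 2) (by omega) (by omega) (by omega)).2
  rw [mul_div_assoc, div_self e1, mul_one, eq_div_iff e2] at h
  exact h.symm

theorem good_of_neg {d : ℕ} {k l : ℕ → ℝ} (h : Good d (fun m => - k m) (fun m => - l m)) :
    Good d k l := by
  refine ⟨?_, fun F1 => ?_⟩
  · rcases h.1 with h1 | h1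
    · right; intro m a b; have := h1 m a b; simpa using this
    · left; intro m a b; have := h1 m a b; simpa using this
  · have := h.2 F1
    rwa [Fs_neg, Gs_neg] at this

theorem eta_pos {p : ℝ} (hp : 1 < p) : 0 < p - 1 / p := by
  have : 1 / p < 1 := by rw [div_lt_one (by linarith)]; exact hp
  linarith

/-- sinh type -/
theorem good_sinh_pos {p : ℝ} (hp : 1 < p) {b c : ℝ} (hb : 0 ≤ b) (hc : c ≤ 0) (hne : b ≠ 0 ∨ c ≠ 0)
    (d : ℕ) {l : ℕ → ℝ} (hl : Rc (p + 1 / p) l) : Good d (hyp p b c) l := by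
  have hη := eta_pos hp
  have hp0 : 0 < p := by linarith
  have hkp : ∀ m, 0 < hyp p b c m := by
    intro m
    unfold hyp
    have a1 : 0 ≤ (p - 1 / p) * b * p ^ m := by positivity
    have a2 : 0 ≤ -((p - 1 / p) * c) / p ^ m := by
      apply div_nonneg _ (by positivity)
      have := mul_nonneg hη.le (neg_nonneg.2 hc)
      linarith
    rcases hne with h | h
    · have : 0 < b := lt_of_le_of_ne hb (Ne.symm h)
      have : 0 < (p - 1 / p) * b * p ^ m := by positivity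
      linarith
    · have h' : 0 < -c := by
        have : c < 0 := lt_of_le_of_ne hc h
        linarith
      have : 0 < -((p - 1 / p) * c) / p ^ m := by
        apply div_pos _ (by positivity)
        have := mul_pos hη h'
        linarith
      linarith
  refine ⟨Or.inl (fun m _ _ => hkp m), fun F1 => ?_⟩
  obtain ⟨B', C', hlf⟩ := Rc_sol hp hl
  have hB : 0 ≤ (p - 1 / p) * b := by positivity
  have hC : 0 ≤ -((p - 1 / p) * c) := by
    have := mul_nonneg hη.le (neg_nonneg.2 hc)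
    linarith
  apply noHill_hyp hp (B := (p - 1 / p) * b) (C := -((p - 1 / p) * c)) (fun m => rfl) hlf
    (hyp_Rc hp b c) hl F1 (fun m _ _ => hkp m)
  rcases le_or_gt (B' * C') 0 with h | h
  · left
    have := mul_nonneg hB hC
    nlinarith [mul_nonneg this (neg_nonneg.2 h)]
  · right
    rcases pos_and_pos_or_neg_and_neg_of_mul_pos h with ⟨h1, h2⟩ | ⟨h1, h2⟩
    · right
      refine ⟨mul_nonneg h1.le hC, mul_nonneg h2.le hB, fun m _ _ => ?_⟩
      rw [hlf]; positivity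
    · left
      refine ⟨mul_nonpos_of_nonpos_of_nonneg h1.le hC, mul_nonpos_of_nonpos_of_nonneg h2.le hB,
        fun m _ _ => ?_⟩
      rw [hlf]
      have a1 : B' * p ^ m < 0 := mul_neg_of_neg_of_pos h1 (by positivity)
      have a2 : C' / p ^ m < 0 := div_neg_of_neg_of_pos h2 (by positivity)
      linarith

theorem good_sinh {p : ℝ} (hp : 1 < p) {b c : ℝ} (hbc : b * c ≤ 0) (hne : b ≠ 0 ∨ c ≠ 0)
    (d : ℕ) {l : ℕ → ℝ} (hl : Rc (p + 1 / p) l) : Good d (hyp p b c) l := by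
  rcases mul_nonpos_iff.1 hbc with ⟨h1, h2⟩ | ⟨h1, h2⟩
  · exact good_sinh_pos hp h1 h2 hne d hl
  · apply good_of_neg
    have : (fun m => - hyp p b c m) = hyp p (-b) (-c) := by
      funext m; exact hyp_neg p b c m
    rw [this]
    apply good_sinh_pos hp (by linarith) (by linarith) _ d (Rc_neg hl)
    rcases hne with h | h
    · left; simpa using h
    · right; simpa using h

/-- linear type -/
theorem good_lin {κ : ℝ} (hκ : κ ≠ 0) (d : ℕ) {l : ℕ → ℝ} (hl : Rc 2 l) :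
    Good d (fun _ => κ) l := by
  refine ⟨?_, fun F1 => ?_⟩
  · rcases lt_or_gt_of_ne hκ with h | h
    · exact Or.inr (fun _ _ _ => h)
    · exact Or.inl (fun _ _ _ => h)
  · have hlf := Rc_two hl
    have hstep : ∀ m, Gs (fun _ => κ) l d F1 (m + 1) - Gs (fun _ => κ) l d F1 m = (l 1 - l 0) * κ := by
      intro m
      unfold Gs
      rw [hlf (m + 1), hlf m]
      push_cast
      ring
    rcases lt_trichotomy ((l 1 - l 0) * κ) 0 with h | h | h
    · apply noHill_anti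
      intro m _ _
      have := hstep m
      linarith
    · apply noHill_const
      have h0 : ∀ m, Gs (fun _ => κ) l d F1 m = Gs (fun _ => κ) l d F1 0 := by
        intro m
        induction m with
        | zero => rfl
        | succ m ih => have := hstep m; linarith
      intro m n _ _ _ _
      rw [h0 m, h0 n]
    · apply noHill_mono
      intro m _ _
      have := hstep m
      linarith

/-- both of cosh type, opposite -/
theorem good_cosh_pos {p : ℝ} (hp : 1 < p) {b c b' c' : ℝ} {d : ℕ}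
    (hk : ∀ m, 1 ≤ m → m + 1 ≤ 2 * d → 0 < hyp p b c m)
    (h : (b * c' < 0 ∧ b' * c < 0 ∧ ∀ m, 1 ≤ m → m ≤ d → 0 < hyp p b' c' m) ∨
      (0 < b * c' ∧ 0 < b' * c ∧ ∀ m, 1 ≤ m → m ≤ d → hyp p b' c' m < 0)) :
    Good d (hyp p b c) (hyp p b' c') := by
  refine ⟨Or.inl hk, fun F1 => ?_⟩
  have hη := eta_pos hp
  have hη2 : 0 < (p - 1 / p) * (p - 1 / p) := mul_pos hη hη
  apply noHill_hyp hp (fun m => rfl) (fun m => rfl) (hyp_Rc hp b c) (hyp_Rc hp b' c') F1 hk
  right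
  rcases h with ⟨h1, h2, h3⟩ | ⟨h1, h2, h3⟩
  · right
    refine ⟨?_, ?_, h3⟩
    · have := mul_pos hη2 (neg_pos.2 h2)
      nlinarith
    · have := mul_pos hη2 (neg_pos.2 h1)
      nlinarith
  · left
    refine ⟨?_, ?_, h3⟩
    · have := mul_pos hη2 h2
      nlinarith
    · have := mul_pos hη2 h1
      nlinarith

/-- both quadratic, opposite -/
theorem good_quad_pos {b c b' c' : ℝ} {d : ℕ}
    (hk : ∀ m : ℕ, 1 ≤ m → m + 1 ≤ 2 * d → 0 < b + c * m)
    (h : (c * c' < 0 ∧ ∀ m : ℕ, 1 ≤ m → m ≤ d → 0 < b' + c' * m) ∨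
      (0 < c * c' ∧ ∀ m : ℕ, 1 ≤ m → m ≤ d → b' + c' * m < 0)) :
    Good d (fun m => b + c * m) (fun m => b' + c' * m) := by
  have hRk : Rc 2 (fun m : ℕ => b + c * (m : ℝ)) := by intro m; push_cast; ring
  have hRl : Rc 2 (fun m : ℕ => b' + c' * (m : ℝ)) := by intro m; push_cast; ring
  refine ⟨Or.inl hk, fun F1 => ?_⟩
  have hGf : ∀ m : ℕ, 1 ≤ m → m ≤ d → Gs (fun m => b + c * m) (fun m => b' + c' * m) d F1 m
      = (F1 + b' * b + b' * c * (d + 1)) + (c' * b + c' * c * (d + 1) - b' * c) * m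
        - (c * c') * (m : ℝ) ^ 2 := by
    intro m h1 h2
    unfold Gs
    show F1 + (b' + c' * (m : ℝ)) * (b + c * ((d + 1 - m : ℕ) : ℝ)) = _
    rw [Nat.cast_sub (by omega)]
    push_cast
    ring
  rcases h with ⟨h1, h2⟩ | ⟨h1, h2⟩
  · apply noHill_neg
    apply noHill_conc
    · apply CC_quad (C := -(c * c')) (g0 := -(F1 + b' * b + b' * c * (d + 1)))
        (g1 := -(c' * b + c' * c * (d + 1) - b' * c)) (by linarith)
      intro m a1 a2
      rw [hGf m a1 a2]
      ring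
    · intro D m a1 a2
      obtain ⟨x, hx, hxe⟩ := dom hRk hRl F1 hk a1 a2
      have := mul_pos (h2 D (by omega) a2) hx
      linarith
  · apply noHill_conc
    · exact CC_quad h1.le hGf
    · intro D m a1 a2
      obtain ⟨x, hx, hxe⟩ := dom hRk hRl F1 hk a1 a2
      have := mul_neg_of_neg_of_pos (h2 D (by omega) a2) hx
      linarith

end Pool.Agent.H92LS
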