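import Pool.Agent.H92LS.Crit
import Pool.Agent.H92LS.Types

set_option autoImplicit false

namespace Pool.Agent.H92LS

open Finset

/-- strictly monotone on `0..d` -/
def SM (d : ℕ) (x : ℕ → ℝ) : Prop :=
  (∀ i, i + 1 ≤ d → x i < x (i + 1)) ∨ (∀ i, i + 1 ≤ d → x (i + 1) < x i)

theorem oneSign_of_SM {c : ℝ} (hc : 0 < c) {d : ℕ} {x k : ℕ → ℝ} (hk : Rc c k)
    (hx : ∀ i, i + 1 ≤ d → x (i + 1) - x i = k (2 * i + 1)) (h : SM d x) : OneSign d k := by
  rcases h with h | h
  · left
    exact k_pos hc hk (fun i hi => by have := h i hi; have := hx i hi; linarith)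
  · right
    have := k_pos (c := c) hc (Rc_neg hk) (d := d)
      (fun i hi => by have h1 := h i hi; have h2 := hx i hi; linarith)
    intro m h1 h2
    have h3 := this m h1 h2
    simpa using h3

theorem SM_of_oneSign {d : ℕ} {x k : ℕ → ℝ}
    (hx : ∀ i, i + 1 ≤ d → x (i + 1) - x i = k (2 * i + 1)) (h : OneSign d k) : SM d x := by
  rcases h with h | h
  · left
    intro i hi
    have := h (2 * i + 1) (by omega) (by omega)
    have := hx i hi
    linarith
  · right
    intro i hi
    have := h (2 * i + 1) (by omega) (by omega)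
    have := hx i hi
    linarith

/-- positivity of the `S` from a strictly monotone sequence -/
theorem S_pos_of_SM {c : ℝ} (hc : 0 < c) {d : ℕ} {x k : ℕ → ℝ} (hk : Rc c k)
    (hx : ∀ i, i + 1 ≤ d → x (i + 1) - x i = k (2 * i + 1)) (h : SM d x) :
    ∀ m, 1 ≤ m → m ≤ d → 0 < S c m := by
  intro m h1 h2
  have hxx := sum_form' hk hx 0 m (Nat.zero_le _) h2
  simp only [Nat.sub_zero, add_zero] at hxx
  have hs := oneSign_of_SM hc hk hx h
  rcases h with h | h
  · have hlt : ∀ e, e + 1 ≤ d → x 0 < x (e + 1) := by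
      intro e
      induction e with
      | zero => intro he; exact h 0 he
      | succ e ih => intro he; exact lt_trans (ih (by omega)) (h (e + 1) he)
    have h3 := hlt (m - 1) (by omega)
    rw [show m - 1 + 1 = m by omega] at h3
    have hkm : 0 < k m := by
      rcases hs with hs | hs
      · exact hs m h1 (by omega)
      · exfalso
        have a := h 0 (by omega)
        have b := hx 0 (by omega)
        have e := hs 1 le_rfl (by omega)
        simp only [mul_zero, zero_add] at b
        linarith
    have : 0 < S c m * k m := by linarith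
    exact (pos_iff_pos_of_mul_pos this).2 hkm
  · have hlt : ∀ e, e + 1 ≤ d → x (e + 1) < x 0 := by
      intro e
      induction e with
      | zero => intro he; exact h 0 he
      | succ e ih => intro he; exact lt_trans (h (e + 1) he) (ih (by omega))
    have h3 := hlt (m - 1) (by omega)
    rw [show m - 1 + 1 = m by omega] at h3
    have hkm : k m < 0 := by
      rcases hs with hs | hs
      · exfalso
        have a := h 0 (by omega)
        have b := hx 0 (by omega)
        have e := hs 1 le_rfl (by omega)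
        simp only [mul_zero, zero_add] at b
        linarith
      · exact hs m h1 (by omega)
    have h4 : S c m * k m < 0 := by linarith
    by_contra hcon
    push Not at hcon
    have := mul_nonneg_of_nonpos_of_nonpos hcon hkm.le
    linarith

/-- `|F + y| ≤ |F|` in terms of `y` -/
theorem abs_add_le_iff {F y : ℝ} : |F + y| ≤ |F| ↔ y * (2 * F + y) ≤ 0 := by
  rw [← sq_le_sq]
  constructor
  · intro h; nlinarith
  · intro h; nlinarith

/-- consequence of the border conditions: `l` has one sign on `1..d` -/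
theorem border_sign {c : ℝ} {k l : ℕ → ℝ} (hl : Rc c l) {F1 : ℝ} {d : ℕ} (hd : 1 ≤ d)
    (hs : ∀ m, 1 ≤ m → m ≤ d → 0 < S c m)
    (hkp : ∀ m, 1 ≤ m → m + 1 ≤ 2 * d → 0 < k m)
    (hl0 : ∀ i, 1 ≤ i → i ≤ d → l i ≠ 0) (hF1 : F1 ≠ 0)
    (hB : Border d (Fs k l d F1) (Gs k l d F1)) :
    ((∀ m, 1 ≤ m → m ≤ d → 0 < l m) ∧ F1 < 0 ∧ l 1 * k d ≤ -(2 * F1) ∧ l d * k 1 ≤ -(2 * F1)) ∨
    ((∀ m, 1 ≤ m → m ≤ d → l m < 0) ∧ 0 < F1 ∧ -(l 1 * k d) ≤ 2 * F1 ∧ -(l d * k 1) ≤ 2 * F1) := by
  have h1 := (hB 1 hd).1
  have h2 := (hB 1 hd).2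
  have hF0 : 0 < |F1| := abs_pos.2 hF1
  have e1 : |F1 + l 1 * k d| ≤ |F1| := by
    have : T (Fs k l d F1) (Gs k l d F1) 1 1 = (F1 + l 1 * k d) / F1 := by
      rw [T_succ, T_zero, one_mul, Fs_zero]
      simp [Gs]
    rw [this, abs_div, div_le_one hF0] at h1
    exact h1
  have e2 : |F1 + l d * k 1| ≤ |F1| := by
    have : T (Fs k l d F1) (Gs k l d F1) d 1 = (F1 + l d * k 1) / F1 := by
      rw [T_succ, T_zero, one_mul, Fs_zero]
      simp [Gs]
    rw [this, abs_div, div_le_one hF0] at h2
    exact h2
  rw [abs_add_le_iff] at e1 e2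
  have kd : 0 < k d := hkp d hd (by omega)
  have k1 : 0 < k 1 := hkp 1 le_rfl (by omega)
  have l1 := hl0 1 le_rfl hd
  have ld := hl0 d hd le_rfl
  have hrep : ∀ m, 1 ≤ m → m ≤ d → S c (d - 1) * l m = S c (m - 1) * l d + S c (d - m) * l 1 := by
    intro m a b
    have := PL hl (m - 1) (d - m) 1
    rw [show m - 1 + (d - m) = d - 1 by omega, show 1 + (m - 1) = m by omega,
      show m + (d - m) = d by omega] at this
    exact this
  have hsn : ∀ m, m ≤ d → 0 ≤ S c m := by
    intro m hm
    rcases Nat.eq_zero_or_pos m with h | h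
    · subst h; rw [S_zero]
    · exact (hs m h hm).le
  rcases lt_or_gt_of_ne l1 with a | a
  · right
    have y1 : l 1 * k d < 0 := mul_neg_of_neg_of_pos a kd
    have f1 : 0 < F1 := by
      have : 0 ≤ 2 * F1 + l 1 * k d := by
        by_contra hc
        push Not at hc
        have := mul_pos_of_neg_of_neg y1 hc
        linarith
      linarith
    have hld : l d < 0 := by
      by_contra hc
      have h3 : 0 < l d := lt_of_le_of_ne (not_lt.1 hc) (Ne.symm ld)
      have h4 : 0 < l d * k 1 := mul_pos h3 k1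
      have : 0 < l d * k 1 * (2 * F1 + l d * k 1) := by positivity
      linarith
    have y2 : l d * k 1 < 0 := mul_neg_of_neg_of_pos hld k1
    refine ⟨?_, f1, ?_, ?_⟩
    · intro m h3 h4
      rcases Nat.eq_or_lt_of_le h3 with h5 | h5
      · rw [← h5]; exact a
      · have hr := hrep m h3 h4
        have s1 : 0 < S c (d - 1) := hs _ (by omega) (by omega)
        have s2 : 0 < S c (m - 1) := hs _ (by omega) (by omega)
        have s3 := hsn (d - m) (by omega)
        have t1 := mul_neg_of_pos_of_neg s2 hld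
        have t2 := mul_nonpos_of_nonneg_of_nonpos s3 a.le
        by_contra hc
        push Not at hc
        have := mul_nonneg s1.le hc
        linarith
    · by_contra hc
      push Not at hc
      have := mul_pos_of_neg_of_neg y1 (show 2 * F1 + l 1 * k d < 0 by linarith)
      linarith
    · by_contra hc
      push Not at hc
      have := mul_pos_of_neg_of_neg y2 (show 2 * F1 + l d * k 1 < 0 by linarith)
      linarith
  · left
    have y1 : 0 < l 1 * k d := mul_pos a kd
    have f1 : F1 < 0 := by
      have : 2 * F1 + l 1 * k d ≤ 0 := by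
        by_contra hc
        push Not at hc
        have := mul_pos y1 hc
        linarith
      linarith
    have hld : 0 < l d := by
      by_contra hc
      have h3 : l d < 0 := lt_of_le_of_ne (not_lt.1 hc) ld
      have h4 : l d * k 1 < 0 := mul_neg_of_neg_of_pos h3 k1
      have : 0 < l d * k 1 * (2 * F1 + l d * k 1) := mul_pos_of_neg_of_neg h4 (by linarith)
      linarith
    have y2 : 0 < l d * k 1 := mul_pos hld k1
    refine ⟨?_, f1, ?_, ?_⟩
    · intro m h3 h4
      rcases Nat.eq_or_lt_of_le h3 with h5 | h5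
      · rw [← h5]; exact a
      · have hr := hrep m h3 h4
        have s1 : 0 < S c (d - 1) := hs _ (by omega) (by omega)
        have s2 : 0 < S c (m - 1) := hs _ (by omega) (by omega)
        have s3 := hsn (d - m) (by omega)
        have t1 := mul_pos s2 hld
        have t2 := mul_nonneg s3 a.le
        by_contra hc
        push Not at hc
        have := mul_nonpos_of_nonneg_of_nonpos s1.le hc
        linarith
    · by_contra hc
      push Not at hc
      have := mul_pos y1 (show 0 < 2 * F1 + l 1 * k d by linarith)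
      linarith
    · by_contra hc
      push Not at hc
      have := mul_pos y2 (show 0 < 2 * F1 + l d * k 1 by linarith)
      linarith

/-- comparison principle -/
theorem sturm {c : ℝ} (_hc : 0 < c) {κ l : ℕ → ℝ} (hκ : Rc c κ) (hl : Rc c l) {d : ℕ}
    (hκp : ∀ m, 1 ≤ m → m + 1 ≤ 2 * d → 0 < κ m) (h13 : κ 3 ≤ κ 1)
    (hlp : ∀ m, 1 ≤ m → m ≤ d → 0 < l m) {i : ℕ} (hi : 2 ≤ i) (hid : i + 1 ≤ d)
    (hlt : l (i - 1) < l (i + 1)) : ∀ m, 1 ≤ m → m + 1 ≤ 2 * d → 0 < l m := by
  have k2 : 0 < κ 2 := hκp 2 (by omega) (by omega)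
  have li : 0 < l i := hlp i (by omega) (by omega)
  have rk : κ 3 = c * κ 2 - κ 1 := hκ 1
  have rl : l (i + 1) = c * l i - l (i - 1) := by
    have := hl (i - 1)
    rw [show i - 1 + 2 = i + 1 by omega, show i - 1 + 1 = i by omega] at this
    exact this
  have hw : 0 < l (i + 1) * κ 2 - l i * κ 3 := by
    have a1 : c * l i < 2 * l (i + 1) := by linarith
    have a2 : 2 * κ 3 ≤ c * κ 2 := by linarith
    have a3 := mul_pos (show 0 < 2 * l (i + 1) - c * l i by linarith) k2
    have a4 := mul_nonneg (show 0 ≤ c * κ 2 - 2 * κ 3 by linarith) li.le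
    nlinarith
  have hall : ∀ s, s + 3 ≤ 2 * d → 0 < l (i + s) := by
    intro s
    induction s with
    | zero => intro _; exact li
    | succ s ih =>
      intro hs
      have h1 := ih (by omega)
      have h2 := CAS hκ hl i 2 1 s
      rw [show i + s + 1 = i + (s + 1) by ring, show 2 + s + 1 = 3 + s by ring,
        show (2 : ℕ) + 1 = 3 from rfl] at h2
      have h3 : 0 < κ (2 + s) := hκp _ (by omega) (by omega)
      have h4 : 0 < κ (3 + s) := hκp _ (by omega) (by omega)
      have h5 := mul_pos h1 h4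
      have h6 : 0 < l (i + (s + 1)) * κ (2 + s) := by linarith
      exact (pos_iff_pos_of_mul_pos h6).2 h3
  intro m h1 h2
  rcases Nat.lt_or_ge m (i + 1) with h | h
  · exact hlp m h1 (by omega)
  · have := hall (m - i) (by omega)
    rwa [show i + (m - i) = m by omega] at this

/-- the reversed solution -/
theorem rev_sol {c : ℝ} {k : ℕ → ℝ} (hk : Rc c k) (N : ℕ) (_hN : 1 ≤ N) :
    ∃ κ : ℕ → ℝ, Rc c κ ∧ ∀ m, m ≤ N → κ m = k (N - m) := by
  refine ⟨R c (k N) (k (N - 1)), R_Rc _ _ _, ?_⟩
  intro m
  induction m using Nat.twoStepInduction with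
  | zero => intro _; rfl
  | one => intro _; rfl
  | more m ih1 ih2 =>
    intro h
    have r := R_Rc c (k N) (k (N - 1)) m
    rw [r, ih1 (by omega), ih2 (by omega)]
    have := hk (N - (m + 2))
    rw [show N - (m + 2) + 2 = N - m by omega, show N - (m + 2) + 1 = N - (m + 1) by omega] at this
    linarith

/-- if `k` is of one sign and its steps do not first grow and finally shrink, and `l` is not of one
sign on `1..2d-1`, then all rows have the valley form -/
theorem rows_nonmono {c : ℝ} (hc : 0 < c) {k l : ℕ → ℝ} (hk : Rc c k) (hl : Rc c l) {F1 : ℝ} {d : ℕ}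
    (hs : ∀ m, 1 ≤ m → m ≤ d → 0 < S c m)
    (hkp : OneSign d k) (hends : |k 3| ≤ |k 1| ∨ |k (2 * d - 3)| ≤ |k (2 * d - 1)|)
    (hl0 : ∀ i, 1 ≤ i → i ≤ d → l i ≠ 0) (hF1 : F1 ≠ 0)
    (hB : Border d (Fs k l d F1) (Gs k l d F1)) (hno : ¬ OneSign d l) : RowOK d k l F1 := by
  intro i hi hid
  left
  -- a positive comparison solution
  obtain ⟨κ, hκ, hκp, h13⟩ : ∃ κ : ℕ → ℝ, Rc c κ ∧ (∀ m, 1 ≤ m → m + 1 ≤ 2 * d → 0 < κ m) ∧ κ 3 ≤ κ 1 := by
    obtain ⟨k', hk', hp', hends'⟩ : ∃ k' : ℕ → ℝ, Rc c k' ∧ (∀ m, 1 ≤ m → m + 1 ≤ 2 * d → 0 < k' m) ∧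
        (k' 3 ≤ k' 1 ∨ k' (2 * d - 3) ≤ k' (2 * d - 1)) := by
      rcases hkp with h | h
      · refine ⟨k, hk, h, ?_⟩
        rwa [abs_of_pos (h 3 (by omega) (by omega)), abs_of_pos (h 1 (by omega) (by omega)),
          abs_of_pos (h (2 * d - 3) (by omega) (by omega)),
          abs_of_pos (h (2 * d - 1) (by omega) (by omega))] at hends
      · refine ⟨fun m => - k m, Rc_neg hk, fun m a b => by have := h m a b; simpa using this, ?_⟩
        rwa [abs_of_neg (h 3 (by omega) (by omega)), abs_of_neg (h 1 (by omega) (by omega)),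
          abs_of_neg (h (2 * d - 3) (by omega) (by omega)),
          abs_of_neg (h (2 * d - 1) (by omega) (by omega))] at hends
    rcases hends' with h | h
    · exact ⟨k', hk', hp', h⟩
    · obtain ⟨κ, h1, h2⟩ := rev_sol hk' (2 * d) (by omega)
      refine ⟨κ, h1, ?_, ?_⟩
      · intro m a b
        rw [h2 m (by omega)]
        exact hp' _ (by omega) (by omega)
      · rw [h2 3 (by omega), h2 1 (by omega)]
        exact h
  by_contra hneg
  push Not at hneg
  apply hno
  have hsgn : (∀ m, 1 ≤ m → m ≤ d → 0 < l m) ∨ (∀ m, 1 ≤ m → m ≤ d → l m < 0) := by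
    rcases hkp with h | h
    · rcases border_sign hl (by omega) hs h hl0 hF1 hB with h1 | h1
      · exact Or.inl h1.1
      · exact Or.inr h1.1
    · rcases border_sign (k := fun m => - k m) (l := fun m => - l m) (Rc_neg hl) (F1 := F1) (by omega) hs
        (fun m a b => by have := h m a b; simpa using this)
        (fun i a b => by have := hl0 i a b; simpa using this) hF1 (by rw [Fs_neg, Gs_neg]; exact hB) with h1 | h1
      · right; intro m a b; have := h1.1 m a b; simpa using this
      · left; intro m a b; have := h1.1 m a b; simpa using this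
  rcases hsgn with h | h
  · left
    refine sturm hc hκ hl hκp h13 h hi hid ?_
    by_contra hcon
    push Not at hcon
    have := mul_nonneg (h i (by omega) (by omega)).le (sub_nonneg.2 hcon)
    linarith
  · right
    have := sturm hc hκ (Rc_neg hl) hκp h13 (d := d) (i := i)
      (fun m a b => by have := h m a b; simpa using this) hi hid ?_
    · intro m a b
      have h2 := this m a b
      simpa using h2
    · by_contra hcon
      push Not at hcon
      have := mul_nonneg_of_nonpos_of_nonpos (h i (by omega) (by omega)).le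
        (show l (i - 1) - l (i + 1) ≤ 0 by linarith)
      linarith

/-- a one signed sequence with shrinking steps gives valley rows -/
theorem rows_slow {c : ℝ} (hc : 0 < c) {k l : ℕ → ℝ} (hl : Rc c l) {F1 : ℝ} {d : ℕ}
    (hlp : OneSign d l) (hslow : ∀ i, i + 2 ≤ d → |l (2 * i + 3)| ≤ |l (2 * i + 1)|) :
    RowOK d k l F1 := by
  have key : ∀ l' : ℕ → ℝ, Rc c l' → (∀ m, 1 ≤ m → m + 1 ≤ 2 * d → 0 < l' m) →
      (∀ i, i + 2 ≤ d → l' (2 * i + 3) ≤ l' (2 * i + 1)) →
      ∀ i, 2 ≤ i → i + 1 ≤ d → 0 ≤ l' i * (l' (i - 1) - l' (i + 1)) := by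
    intro l' hl' hp hst i hi hid
    apply mul_nonneg (hp i (by omega) (by omega)).le
    rcases Nat.even_or_odd' i with ⟨j, hj | hj⟩
    · have := hst (j - 1) (by omega)
      rw [show 2 * (j - 1) + 3 = i + 1 by omega, show 2 * (j - 1) + 1 = i - 1 by omega] at this
      linarith
    · -- i = 2j+1, j ≥ 1
      have h1 := hst (j - 1) (by omega)
      have h2 := hst j (by omega)
      rw [show 2 * (j - 1) + 3 = i by omega, show 2 * (j - 1) + 1 = i - 2 by omega] at h1
      rw [show 2 * j + 3 = i + 2 by omega, show 2 * j + 1 = i by omega] at h2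
      have r1 := hl' (i - 2)
      rw [show i - 2 + 2 = i by omega, show i - 2 + 1 = i - 1 by omega] at r1
      have r2 := hl' i
      by_contra hneg
      push Not at hneg
      have := mul_neg_of_pos_of_neg hc hneg
      nlinarith
  intro i hi hid
  left
  rcases hlp with h | h
  · exact key l hl h (fun i hi => by
      have := hslow i hi
      rwa [abs_of_pos (h _ (by omega) (by omega)), abs_of_pos (h _ (by omega) (by omega))] at this) i hi hid
  · have := key (fun m => - l m) (Rc_neg hl) (fun m a b => by have := h m a b; simpa using this)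
      (fun i hi => by
        have := hslow i hi
        rwa [abs_of_neg (h _ (by omega) (by omega)), abs_of_neg (h _ (by omega) (by omega))] at this) i hi hid
    have e : -l i * (-l (i - 1) - -l (i + 1)) = l i * (l (i - 1) - l (i + 1)) := by ring
    rwa [e] at this

end Pool.Agent.H92LS
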