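import Pool.Agent.H92LS.Core

set_option autoImplicit false

namespace Pool.Agent.H92LS

open Finset

/-- sliding the window by one step -/
theorem T_slide {F G : ℕ → ℝ} {D J : ℕ} (hJ : J ≤ D) :
    T F G (D + 1) J * G (D + 1 - J) = T F G D J * G (D + 1) := by
  cases J with
  | zero => simp [T_zero]
  | succ J =>
    unfold T
    simp only [prod_div_distrib]
    rw [prod_range_succ' (fun m => G (D + 1 - m)), prod_range_succ (fun m => G (D - m))]
    simp only [Nat.reduceSubDiff, Nat.sub_zero]
    ring

/-- absence of bad interior maxima of the window products -/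
def NoHill (d : ℕ) (F G : ℕ → ℝ) : Prop :=
  ∀ r J, 1 ≤ r → 1 ≤ J → r + 1 + J ≤ d → |G r| ≤ |G (r + J)| → |G (r + 1 + J)| < |G (r + 1)| →
    |T F G (r + J) J| ≤ 1

theorem up_iff {F G : ℕ → ℝ} {D J : ℕ} (hJ : J ≤ D) (hG : G (D + 1 - J) ≠ 0) (hT : T F G D J ≠ 0) :
    |T F G D J| ≤ |T F G (D + 1) J| ↔ |G (D + 1 - J)| ≤ |G (D + 1)| := by
  have h := congrArg abs (T_slide (F := F) (G := G) hJ)
  rw [abs_mul, abs_mul] at h
  have h1 : 0 < |G (D + 1 - J)| := abs_pos.2 hG
  have h2 : 0 < |T F G D J| := abs_pos.2 hT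
  constructor
  · intro hle
    by_contra hc
    push Not at hc
    nlinarith
  · intro hle
    by_contra hc
    push Not at hc
    nlinarith

theorem T_ne {F G : ℕ → ℝ} {d D J : ℕ} (hJ : J ≤ D) (hD : D ≤ d)
    (hF : ∀ m, m + 1 ≤ d → F m ≠ 0) (hG : ∀ m, 1 ≤ m → m ≤ d → G m ≠ 0) : T F G D J ≠ 0 := by
  unfold T
  rw [prod_ne_zero_iff]
  intro m hm
  rw [mem_range] at hm
  exact div_ne_zero (hG _ (by omega) (by omega)) (hF _ (by omega))

/-- Valley lemma. -/
theorem valley {d : ℕ} {F G : ℕ → ℝ}
    (hF : ∀ m, m + 1 ≤ d → F m ≠ 0) (hG : ∀ m, 1 ≤ m → m ≤ d → G m ≠ 0)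
    (hN : NoHill d F G)
    (h1 : ∀ J, J ≤ d → |T F G J J| ≤ 1) (h2 : ∀ J, J ≤ d → |T F G d J| ≤ 1) :
    ∀ D J, J ≤ D → D ≤ d → |T F G D J| ≤ 1 := by
  intro D J hJD hDd
  rcases Nat.eq_zero_or_pos J with hJ0 | hJ0
  · subst hJ0; rw [T_zero]; simp
  by_contra hc
  push Not at hc
  have hT : ∀ D', J ≤ D' → D' ≤ d → T F G D' J ≠ 0 := fun D' a b => T_ne a b hF hG
  have key : ∀ D', J < D' → D' < d → 1 < |T F G D' J| →
      |T F G (D' - 1) J| ≤ |T F G D' J| → |T F G D' J| ≤ |T F G (D' + 1) J| := by
    intro D' ha hb hc' hd'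
    by_contra hcon
    have e1 : |G (D' - J)| ≤ |G D'| := by
      have := (up_iff (F := F) (G := G) (D := D' - 1) (J := J) (by omega)
        (hG _ (by omega) (by omega)) (hT _ (by omega) (by omega))).1
        (by rw [show D' - 1 + 1 = D' by omega]; exact hd')
      rw [show D' - 1 + 1 = D' by omega] at this
      exact this
    have e2 : |G (D' + 1)| < |G (D' + 1 - J)| := by
      by_contra hx
      push Not at hx
      exact hcon ((up_iff (by omega) (hG _ (by omega) (by omega)) (hT _ (by omega) (by omega))).2 hx)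
    have := hN (D' - J) J (by omega) hJ0 (by omega)
      (by rw [show D' - J + J = D' by omega]; exact e1)
      (by rw [show D' - J + 1 + J = D' + 1 by omega, show D' - J + 1 = D' + 1 - J by omega]; exact e2)
    rw [show D' - J + J = D' by omega] at this
    linarith
  have hJ1 : J < D := by
    rcases lt_or_eq_of_le hJD with h | h
    · exact h
    · subst h; exact absurd (h1 J hDd) (not_le.2 hc)
  have hd1 : D < d := by
    rcases lt_or_eq_of_le hDd with h | h
    · exact h
    · subst h; exact absurd (h2 J hJD) (not_le.2 hc)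
  by_cases hup : |T F G D J| ≤ |T F G (D + 1) J|
  · -- go right
    have hr : ∀ e, D + e + 1 ≤ d → 1 < |T F G (D + e) J| ∧ |T F G (D + e) J| ≤ |T F G (D + e + 1) J| := by
      intro e
      induction e with
      | zero => intro _; exact ⟨hc, hup⟩
      | succ e ih =>
        intro he
        obtain ⟨i1, i2⟩ := ih (by omega)
        have i3 : 1 < |T F G (D + e + 1) J| := lt_of_lt_of_le i1 i2
        refine ⟨i3, ?_⟩
        have := key (D + e + 1) (by omega) (by omega) i3 (by simpa using i2)
        simpa [add_assoc] using this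
    obtain ⟨i1, i2⟩ := hr (d - D - 1) (by omega)
    have i3 := lt_of_lt_of_le i1 i2
    rw [show D + (d - D - 1) + 1 = d by omega] at i3
    exact absurd (h2 J (by omega)) (not_le.2 i3)
  · -- go left
    push Not at hup
    have hl : ∀ e, J + e ≤ D → 1 < |T F G (D - e) J| ∧ |T F G (D - e + 1) J| < |T F G (D - e) J| := by
      intro e
      induction e with
      | zero => intro _; exact ⟨hc, hup⟩
      | succ e ih =>
        intro he
        obtain ⟨i1, i2⟩ := ih (by omega)
        have i3 : |T F G (D - e) J| < |T F G (D - e - 1) J| := by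
          by_contra hx
          push Not at hx
          have := key (D - e) (by omega) (by omega) i1 hx
          linarith
        rw [show D - (e + 1) = D - e - 1 by omega, show D - e - 1 + 1 = D - e by omega]
        exact ⟨lt_trans i1 i3, i3⟩
    obtain ⟨i1, _⟩ := hl (D - J) (by omega)
    rw [show D - (D - J) = J by omega] at i1
    exact absurd (h1 J (by omega)) (not_le.2 i1)

/-- strictly monotone sequences have no hill -/
theorem noHill_mono {d : ℕ} {F G : ℕ → ℝ}
    (hG : ∀ m, 1 ≤ m → m + 1 ≤ d → G m < G (m + 1)) : NoHill d F G := by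
  have hlt : ∀ e m, 1 ≤ m → m + (e + 1) ≤ d → G m < G (m + (e + 1)) := by
    intro e
    induction e with
    | zero => intro m h1 h2; exact hG m h1 h2
    | succ e ih =>
      intro m h1 h2
      exact lt_trans (ih m h1 (by omega)) (hG (m + (e + 1)) (by omega) (by omega))
  intro r J hr hJ hd ha hb
  exfalso
  obtain ⟨J, rfl⟩ : ∃ J', J = J' + 1 := ⟨J - 1, by omega⟩
  have h1 := hlt J r hr (by omega)
  have h2 := hlt J (r + 1) (by omega) (by omega)
  have h3 := hG r hr (by omega)
  have h4 := hG (r + (J + 1)) (by omega) (by omega)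
  rw [show r + (J + 1) + 1 = r + 1 + (J + 1) by ring] at h4
  have s1 : 0 ≤ G r + G (r + (J + 1)) := by
    by_contra hc
    push Not at hc
    have : |G (r + (J + 1))| < |G r| := by
      rw [abs_of_neg (show G r < 0 by linarith), abs_lt]
      constructor <;> linarith
    linarith
  have : |G (r + 1)| < |G (r + 1 + (J + 1))| := by
    rw [abs_of_pos (show 0 < G (r + 1 + (J + 1)) by linarith), abs_lt]
    constructor <;> linarith
  linarith

theorem T_neg (F G : ℕ → ℝ) (D J : ℕ) : T (fun m => - F m) (fun m => - G m) D J = T F G D J := by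
  unfold T
  apply prod_congr rfl
  intro m _
  rw [neg_div_neg_eq]

theorem noHill_neg {d : ℕ} {F G : ℕ → ℝ}
    (h : NoHill d (fun m => - F m) (fun m => - G m)) : NoHill d F G := by
  intro r J hr hJ hd ha hb
  have := h r J hr hJ hd (by simpa using ha) (by simpa using hb)
  rwa [T_neg] at this

theorem noHill_anti {d : ℕ} {F G : ℕ → ℝ}
    (hG : ∀ m, 1 ≤ m → m + 1 ≤ d → G (m + 1) < G m) : NoHill d F G := by
  apply noHill_neg
  apply noHill_mono
  intro m h1 h2
  have := hG m h1 h2
  simpa using this

theorem noHill_const {d : ℕ} {F G : ℕ → ℝ}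
    (hG : ∀ m n, 1 ≤ m → m ≤ d → 1 ≤ n → n ≤ d → G m = G n) : NoHill d F G := by
  intro r J hr hJ hd ha hb
  exfalso
  rw [hG (r + 1 + J) (r + 1) (by omega) (by omega) (by omega) (by omega)] at hb
  exact lt_irrefl _ hb

/-- concave type sequences -/
def CC (d : ℕ) (G : ℕ → ℝ) : Prop :=
  ∀ r J, 1 ≤ r → 1 ≤ J → r + 1 + J ≤ d →
    (G (r + 1 + J) - G (r + 1) ≤ G (r + J) - G r) ∧
    (0 ≤ G (r + 1 + J) - G (r + 1) → G (r + J) + G r ≤ G (r + 1 + J) + G (r + 1)) ∧
    (G (r + J) - G r ≤ 0 → G (r + 1 + J) + G (r + 1) ≤ G (r + J) + G r)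

theorem conc_pos {G : ℕ → ℝ} : ∀ n a : ℕ,
    (∀ m, a ≤ m → m + 2 ≤ a + n → G (m + 2) - G (m + 1) ≤ G (m + 1) - G m) →
    0 < G a → 0 < G (a + n) → ∀ i, i ≤ n → 0 < G (a + i) := by
  intro n
  induction n with
  | zero =>
    intro a _ h0 _ i hi
    have : i = 0 := by omega
    subst this
    simpa using h0
  | succ n ih =>
    intro a hc h0 hn i hi
    rcases Nat.eq_zero_or_pos i with hi0 | hi0
    · subst hi0; simpa using h0
    by_cases h1 : 0 < G (a + 1)
    · have := ih (a + 1) (fun m h2 h3 => hc m (by omega) (by omega)) h1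
        (by rw [show a + 1 + n = a + (n + 1) by ring]; exact hn) (i - 1) (by omega)
      rw [show a + 1 + (i - 1) = a + i by omega] at this
      exact this
    · exfalso
      push Not at h1
      -- differences stay negative
      have hd : ∀ e, e ≤ n → G (a + e + 1) - G (a + e) < 0 ∧ G (a + e + 1) ≤ 0 := by
        intro e
        induction e with
        | zero => intro _; exact ⟨by simp only [add_zero]; linarith, by simpa using h1⟩
        | succ e ihe =>
          intro he
          obtain ⟨j1, j2⟩ := ihe (by omega)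
          have := hc (a + e) (by omega) (by omega)
          rw [show a + (e + 1) + 1 = a + e + 2 by ring, show a + (e + 1) = a + e + 1 by ring]
          constructor <;> linarith
      obtain ⟨_, j2⟩ := hd n le_rfl
      rw [show a + n + 1 = a + (n + 1) by ring] at j2
      linarith

/-- concave type sequences, dominated by `F`, have no hill -/
theorem noHill_conc {d : ℕ} {F G : ℕ → ℝ} (hC : CC d G)
    (hD : ∀ D m, m + 1 ≤ D → D ≤ d → G (D - m) < F m) : NoHill d F G := by
  intro r J hr hJ hd ha hb
  obtain ⟨c1, c2, c3⟩ := hC r J hr hJ hd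
  have hpos : 0 < G (r + 1) ∧ 0 < G (r + J) := by
    have b1 : ¬ (0 ≤ (G (r + 1 + J) - G (r + 1)) * (G (r + 1 + J) + G (r + 1))) := by
      intro hx
      have : G (r + 1) ^ 2 ≤ G (r + 1 + J) ^ 2 := by nlinarith
      exact absurd (sq_le_sq.1 this) (not_le.2 hb)
    have a1 : 0 ≤ (G (r + J) - G r) * (G (r + J) + G r) := by
      have : G r ^ 2 ≤ G (r + J) ^ 2 := sq_le_sq.2 ha
      nlinarith
    push Not at b1
    set df1 := G (r + J) - G r with hdf1
    set sm1 := G (r + J) + G r with hsm1
    set df2 := G (r + 1 + J) - G (r + 1) with hdf2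
    set sm2 := G (r + 1 + J) + G (r + 1) with hsm2
    rcases lt_or_ge df2 0 with h2 | h2
    · have s2 : 0 < sm2 := by
        by_contra hx
        push Not at hx
        have := mul_nonneg_of_nonpos_of_nonpos h2.le hx
        linarith
      have p1 : 0 < G (r + 1) := by linarith
      refine ⟨p1, ?_⟩
      rcases le_or_gt df1 0 with h1 | h1
      · have s1 := c3 h1
        have s3 : 0 < sm1 := lt_of_lt_of_le s2 s1
        have : df1 = 0 := by
          by_contra hne
          have : df1 < 0 := lt_of_le_of_ne h1 hne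
          have := mul_neg_of_neg_of_pos this s3
          linarith
        linarith
      · have s3 : 0 ≤ sm1 := by
          by_contra hx
          push Not at hx
          have := mul_neg_of_pos_of_neg h1 hx
          linarith
        linarith
    · exfalso
      have h3 : 0 < df2 := by
        rcases lt_or_eq_of_le h2 with h | h
        · exact h
        · rw [← h] at b1; simp at b1
      have s2 : sm2 < 0 := by
        by_contra hx
        push Not at hx
        have := mul_nonneg h3.le hx
        linarith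
      have s1 := c2 h2
      have h4 : 0 < df1 := lt_of_lt_of_le h3 c1
      have : sm1 < 0 := lt_of_le_of_lt s1 s2
      have := mul_neg_of_pos_of_neg h4 this
      linarith
  have hall : ∀ i, i ≤ J - 1 → 0 < G (r + 1 + i) := by
    apply conc_pos (J - 1) (r + 1)
    · intro m h1 h2
      have := (hC m 1 (by omega) le_rfl (by omega)).1
      rw [show m + 1 + 1 = m + 2 by ring] at this
      linarith
    · exact hpos.1
    · rw [show r + 1 + (J - 1) = r + J by omega]; exact hpos.2
  unfold T
  rw [abs_prod]
  apply prod_le_one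
  · intro m _; exact abs_nonneg _
  · intro m hm
    rw [mem_range] at hm
    have g1 : 0 < G (r + J - m) := by
      have := hall (J - 1 - m) (by omega)
      rwa [show r + 1 + (J - 1 - m) = r + J - m by omega] at this
    have g2 := hD (r + J) m (by omega) (by omega)
    have g3 : 0 < F m := lt_trans g1 g2
    rw [abs_of_pos (div_pos g1 g3)]
    exact (div_le_one g3).2 g2.le

end Pool.Agent.H92LS
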